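import Pool.Agent.T2h52.SQ.Stm
import Pool.Agent.T2h52.SP.SUD
import Pool.Agent.TH591.Ns.Cover

/-!
# The spread inequality without symmetry: the criterion
-/

set_option autoImplicit false

namespace Pool.Agent.T2h52.SQ

open MeasureTheory Set Filter Topology
open scoped ENNReal InnerProductSpace Pointwise
open Pool.Agent.N555.RZ (mP Spr)
open Pool.Agent.T2h52.SP
open Pool.Agent.T2h52.SP.Sud
open Pool.Agent.TH591.Ns (isG_gauge ball_eq)

/-- a bound for the gauge of a body -/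
theorem gauge_bound {d : ℕ} {P : Set (E d)} (hP : 0 ∈ interior P) :
    ∃ r : ℝ, 0 < r ∧ ∀ y, gauge P y ≤ r * ‖y‖ := by
  obtain ⟨r, hr, hsub⟩ := Metric.mem_nhds_iff.mp (mem_interior_iff_mem_nhds.mp hP)
  refine ⟨1 / r, by positivity, fun y => ?_⟩
  rw [one_div, inv_mul_eq_div, le_div_iff₀ hr]
  exact mul_comm (gauge P y) r ▸ mul_gauge_le_norm hsub

theorem gm_mul {d : ℕ} {P Q : Set (E d)} {C : ℝ} (hQ : Bd Q)
    (h : ∀ u, gauge P u ≤ C * gauge Q u) : gm (gauge P) ≤ C * gm (gauge Q) := by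
  obtain ⟨r, hr, hb⟩ := gauge_bound hQ.int
  have hc : Continuous (gauge Q) := continuous_gauge hQ.conv (mem_interior_iff_mem_nhds.mp hQ.int)
  have hi : Integrable fun y : E d => gauge Q y * W y := by
    refine (W_int1.const_mul r).mono' ((hc.mul W_cont).aestronglyMeasurable)
      (Eventually.of_forall fun y => ?_)
    rw [Real.norm_of_nonneg (mul_nonneg (gauge_nonneg _) (W_pos y).le), ← mul_assoc]
    exact mul_le_mul_of_nonneg_right (hb y) (W_pos y).le
  unfold gm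
  have h1 : ∫ y : E d, gauge P y * Real.exp (-(‖y‖ ^ 2 / 2)) ≤ ∫ y : E d, C * (gauge Q y * W y) := by
    refine integral_mono_of_nonneg (Eventually.of_forall fun y =>
      mul_nonneg (gauge_nonneg _) (Real.exp_pos _).le) (hi.const_mul C)
      (Eventually.of_forall fun y => ?_)
    show gauge P y * Real.exp (-(‖y‖ ^ 2 / 2)) ≤ C * (gauge Q y * W y)
    rw [← mul_assoc]
    exact mul_le_mul_of_nonneg_right (h y) (Real.exp_pos _).le
  rw [integral_const_mul] at h1
  have h0 : 0 ≤ (∫ y : E d, Real.exp (-(‖y‖ ^ 2 / 2)))⁻¹ :=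
    inv_nonneg.mpr (integral_nonneg fun y => (Real.exp_pos _).le)
  calc _ ≤ (∫ y : E d, Real.exp (-(‖y‖ ^ 2 / 2)))⁻¹ * (C * ∫ y : E d, gauge Q y * W y) :=
        mul_le_mul_of_nonneg_left h1 h0
    _ = _ := by
      show _ = C * ((∫ y : E d, Real.exp (-(‖y‖ ^ 2 / 2)))⁻¹ * ∫ y : E d, gauge Q y * W y)
      ring

theorem crt (h1 : U_IMG) (h2 : U_SPR) (h3 : U_MAI) : U_CRT := by
  intro d P Q A C l q B hd hP hQ hs hI hgm hl hn hq hB hco hnum
  obtain ⟨b1, b2, b3⟩ := h1 d P Q A C hP hQ hs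
  have hC := hP.one
  have hg : gm (gauge (A '' P)) ≤ C * l := by
    refine (gm_mul b2 fun u => (b3 u).2).trans ?_
    exact mul_le_mul_of_nonneg_left hgm (by linarith)
  have hCl : 1 ≤ C * l := by nlinarith
  have hspr := h2 d (A '' P) C (C * l) b1 hI hCl hg hn
  have hspr' := Pool.Agent.N555.RZ.spr_of_img hP.comp A _ hspr
  refine h3 d P Q C q B _ hd hP hQ hs hspr' hq hB hco ?_
  have hpos : 0 < 10 ^ 47 * C * (C * l) ^ ((1 : ℝ) / 2) := by
    have : 0 < (C * l) ^ ((1 : ℝ) / 2) := Real.rpow_pos_of_pos (by linarith) _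
    positivity
  rw [le_div_iff₀ hpos]
  exact hnum

end Pool.Agent.T2h52.SQ
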