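import Pool.Agent.T2h52.SQ.Stm
import Pool.Agent.T2h52.SP.Fin

/-!
# The spread inequality without symmetry: the final assembly
-/

set_option autoImplicit false

namespace Pool.Agent.T2h52.SQ

open MeasureTheory Set Filter Topology
open scoped ENNReal InnerProductSpace Pointwise
open Pool.Agent.N555.RZ (mP Spr)
open Pool.Agent.TH591.Lie (polarAt)
open Pool.Agent.T2h52.SP

/-- the general covering statement -/
theorem cov_gen (h0 : U_IMG) (h2 : U_CRT) {d : ℕ} {P Q : Set (E d)} {C : ℝ} (hP : Bn P C)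
    (hQ : Bd Q) (hs : ∀ u, gauge Q u ≤ gauge P u ∧ gauge P u ≤ C * gauge Q u) (l q B : ℝ)
    (hd : 2 ≤ d) (hq : 2 ≤ q) (hB : 1 ≤ B) (hl : 1 ≤ l)
    (hgm : ∀ A : E d ≃ₗ[ℝ] E d, Iso (A '' P) → Bn (A '' P) C →
      (∀ u, gauge (A '' Q) u ≤ gauge (A '' P) u) → gm (gauge (A '' Q)) ≤ l)
    (hn : 10 ^ 280 * (C * l) ^ 4 ≤ (d : ℝ))
    (hco : ∀ (m : ℕ) (x : Fin m → E d), (∑ i, gauge Q (x i) ^ q) ^ (1 / q) ≤
      B * Real.sqrt (sm (gauge Q) x))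
    (hnum : (10 ^ 12 * B * C ^ 2 * Real.log (d + 1) ^ 3) ^ (11 * q) *
      (10 ^ 47 * C * (C * l) ^ ((1 : ℝ) / 2)) ≤ (d : ℝ) ^ ((1 : ℝ) / 8)) :
    ∃ T : Finset (E d), P ⊆ ⋃ t ∈ T, (fun x => t + x) '' interior P ∧ T.card < 2 ^ d := by
  obtain ⟨A, hA⟩ := Pool.Agent.N555.RZ.exists_iso hP.comp (mem_interior_iff_mem_nhds.mp hP.int)
  obtain ⟨b1, b2, b3⟩ := h0 d P Q A C hP hQ hs
  exact h2 d P Q A C l q B hd hP hQ hs hA (hgm A hA b1 fun u => (b3 u).1) hl hn hq hB hco hnum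

/-- norms of zonoids are norms -/
theorem zn_add {d : ℕ} {n : E d → ℝ} (h : ZN n) (u v : E d) : n (u + v) ≤ n u + n v := by
  obtain ⟨μ, hμ, hi, hn⟩ := h
  have hI : ∀ w : E d, Integrable (fun x : E d => |⟪w, x⟫_ℝ|) μ := fun w => by
    refine (hi.const_mul ‖w‖).mono' (by
      have : Continuous fun x : E d => |⟪w, x⟫_ℝ| := by fun_prop
      exact this.aestronglyMeasurable) (Eventually.of_forall fun x => ?_)
    rw [Real.norm_of_nonneg (abs_nonneg _)]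
    exact abs_real_inner_le_norm w x
  rw [hn, hn, hn, ← integral_add (hI u) (hI v)]
  refine integral_mono (hI _) ((hI u).add (hI v)) fun x => ?_
  show |⟪u + v, x⟫_ℝ| ≤ |⟪u, x⟫_ℝ| + |⟪v, x⟫_ℝ|
  rw [inner_add_left]
  exact abs_add_le _ _

theorem zn_smul {d : ℕ} {n : E d → ℝ} (h : ZN n) (c : ℝ) (u : E d) : n (c • u) = |c| * n u := by
  obtain ⟨μ, hμ, hi, hn⟩ := h
  rw [hn, hn, ← integral_const_mul]
  refine integral_congr_ae (Eventually.of_forall fun x => ?_)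
  show |⟪c • u, x⟫_ℝ| = |c| * |⟪u, x⟫_ℝ|
  rw [real_inner_smul_left, abs_mul]

/-- dimension at least 2 -/
theorem two_le {d : ℕ} {q X k : ℝ} (hd0 : 1 ≤ d) (hq : 2 ≤ q) (hX : 1 ≤ X)
    (hnum : (10 ^ 13 * X * Real.log (d + 1) ^ 3) ^ (120 * q) ≤ (d : ℝ) ^ k) : 2 ≤ d := by
  by_contra hlt
  have hd1 : d = 1 := by omega
  subst hd1
  have hl : (1 / 2 : ℝ) ≤ Real.log ((1 : ℕ) + 1) := by
    have := Real.log_two_gt_d9
    push_cast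
    norm_num
    linarith
  have h1 : (2 : ℝ) ≤ 10 ^ 13 * X * Real.log ((1 : ℕ) + 1) ^ 3 := by
    calc (2 : ℝ) ≤ 10 ^ 13 * 1 * (1 / 2) ^ 3 := by norm_num
      _ ≤ 10 ^ 13 * X * Real.log ((1 : ℕ) + 1) ^ 3 := by gcongr
  have h2 : (2 : ℝ) ^ (120 * q) ≤ (10 ^ 13 * X * Real.log ((1 : ℕ) + 1) ^ 3) ^ (120 * q) :=
    Real.rpow_le_rpow (by norm_num) h1 (by positivity)
  have h3 : (1 : ℝ) < (2 : ℝ) ^ (120 * q) := Real.one_lt_rpow (by norm_num) (by positivity)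
  have h4 := h3.trans_le (h2.trans hnum)
  rw [Nat.cast_one, Real.one_rpow] at h4
  exact lt_irrefl _ h4

/-- the numbers, for norms with Gaussian mean at most `2 * 10^5 q M` and cotype constant `2 M` -/
theorem cov_num (h0 : U_IMG) (h2 : U_CRT) (h3 : U_NUM) {d : ℕ} {P Q : Set (E d)} {C : ℝ}
    (hP : Bn P C) (hQ : Bd Q) (hs : ∀ u, gauge Q u ≤ gauge P u ∧ gauge P u ≤ C * gauge Q u)
    (q M : ℝ) (hd : 2 ≤ d) (hq : 2 ≤ q) (hM : 1 ≤ M)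
    (hgm : ∀ A : E d ≃ₗ[ℝ] E d, Iso (A '' P) → Bn (A '' P) C →
      (∀ u, gauge (A '' Q) u ≤ gauge (A '' P) u) → gm (gauge (A '' Q)) ≤ 2 * 10 ^ 5 * q * M)
    (hco : ∀ (m : ℕ) (x : Fin m → E d), (∑ i, gauge Q (x i) ^ q) ^ (1 / q) ≤
      2 * M * Real.sqrt (sm (gauge Q) x))
    (hnum : (10 ^ 13 * M * C ^ 2 * Real.log (d + 1) ^ 3) ^ (120 * q) ≤ (d : ℝ)) :
    ∃ T : Finset (E d), P ⊆ ⋃ t ∈ T, (fun x => t + x) '' interior P ∧ T.card < 2 ^ d := by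
  obtain ⟨n1, n2⟩ := h3 d q M C hd hq hM hP.one hnum
  exact cov_gen h0 h2 hP hQ hs (2 * 10 ^ 5 * q * M) q (2 * M) hd hq (by linarith) (by nlinarith)
    hgm n1 hco n2

section

variable {d : ℕ} {K : Set (E d)} {o : E d} {C : ℝ} {n : E d → ℝ}

/-- near zonoids -/
theorem zon (h0 : U_IMG) (h2 : U_CRT) (h3 : U_NUM) (h7 : U_ZGM) (h8 : T_ZCO) (h9 : T_ZIM)
    (h10 : U_POL) (hd : 2 ≤ d) (hC : 1 ≤ C)
    (hKc : IsCompact K) (hK : Convex ℝ K) (ho : o ∈ interior K)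
    (hbar : ∀ w : E d, ∫ z, ⟪z, w⟫_ℝ ∂(mP (polarAt K o)) = 0)
    (hn : ZN n) (hn1 : ∀ u : E d, ∃ y ∈ K, n u ≤ ⟪u, y - o⟫_ℝ)
    (hn2 : ∀ u : E d, ∀ y ∈ K, ⟪u, y - o⟫_ℝ ≤ C * n u)
    (hnum : (10 ^ 13 * 1 * C ^ 2 * Real.log (d + 1) ^ 3) ^ (120 * (2 : ℝ)) ≤ d) :
    ∃ T : Finset (E d), polarAt K o ⊆ ⋃ t ∈ T, (fun x => t + x) '' interior (polarAt K o) ∧
      T.card < 2 ^ d := by
  obtain ⟨hP, hQ, hgQ, hg⟩ := h10 d C K o n hKc hK ho hC (zn_add hn) (zn_smul hn) hn1 hn2 hbar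
  set Q : Set (E d) := {u : E d | n u ≤ 1} with hQd
  have hz : ZC 1 (gauge Q) := ⟨n, hn, fun u => by rw [hgQ u, one_mul]; exact ⟨le_rfl, le_rfl⟩⟩
  have hs : ∀ u, gauge Q u ≤ gauge (polarAt K o) u ∧ gauge (polarAt K o) u ≤ C * gauge Q u :=
    fun u => by rw [hgQ u]; exact hg u
  refine cov_num h0 h2 h3 hP hQ hs 2 1 hd le_rfl le_rfl (fun A hA hB hi => ?_) ?_ hnum
  · obtain ⟨a1, a2⟩ := h9 d 1 Q A hQ hz
    have := h7 d (A '' polarAt K o) (A '' Q) C hB hA a1 hi a2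
    linarith
  · intro m x
    have h := h8 d 1 _ le_rfl hz m x
    have e1 : (∑ i, gauge Q (x i) ^ (2 : ℝ)) ^ (1 / (2 : ℝ)) =
        Real.sqrt (∑ i, gauge Q (x i) ^ 2) := by
      rw [Real.sqrt_eq_rpow]
      congr 1
      refine Finset.sum_congr rfl fun i _ => ?_
      exact_mod_cast Real.rpow_natCast _ 2
    rw [e1]
    have e2 : 2 * 1 * Real.sqrt (sm (gauge Q) x) = Real.sqrt ((2 * 1) ^ 2 * sm (gauge Q) x) := by
      rw [Real.sqrt_mul (by positivity), Real.sqrt_sq (by positivity)]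
    rw [e2]
    exact Real.sqrt_le_sqrt h

/-- near lattices -/
theorem lat (h0 : U_IMG) (h2 : U_CRT) (h3 : U_NUM) (h4 : U_LGM) (h5 : T_LCO) (h6 : T_LIA)
    (h10 : U_POL) {q M : ℝ} {N : ℕ} {G : (Fin N → ℝ) → ℝ} {x : Fin N → E d} (hd : 2 ≤ d)
    (hq : 2 ≤ q) (hM : 1 ≤ M) (hC : 1 ≤ C)
    (hKc : IsCompact K) (hK : Convex ℝ K) (ho : o ∈ interior K)
    (hbar : ∀ w : E d, ∫ z, ⟪z, w⟫_ℝ ∂(mP (polarAt K o)) = 0)
    (hG : LN N q M G) (hn1 : ∀ u : E d, ∃ y ∈ K, G (fun j => ⟪u, x j⟫_ℝ) ≤ ⟪u, y - o⟫_ℝ)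
    (hn2 : ∀ u : E d, ∀ y ∈ K, ⟪u, y - o⟫_ℝ ≤ C * G (fun j => ⟪u, x j⟫_ℝ))
    (hnum : (10 ^ 13 * M * C ^ 2 * Real.log (d + 1) ^ 3) ^ (120 * q) ≤ d) :
    ∃ T : Finset (E d), polarAt K o ⊆ ⋃ t ∈ T, (fun x => t + x) '' interior (polarAt K o) ∧
      T.card < 2 ^ d := by
  obtain ⟨hP, hQ, hgQ, hg⟩ := h10 d C K o (fun u => G (fun j => ⟪u, x j⟫_ℝ)) hKc hK ho hC
    (fun u v => by
      have e : (fun j => ⟪u + v, x j⟫_ℝ) = (fun j => ⟪u, x j⟫_ℝ) + fun j => ⟪v, x j⟫_ℝ := by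
        funext j
        rw [inner_add_left]
        rfl
      show G (fun j => ⟪u + v, x j⟫_ℝ) ≤ _
      rw [e]
      exact hG.add _ _)
    (fun c u => by
      have e : (fun j => ⟪c • u, x j⟫_ℝ) = c • fun j => ⟪u, x j⟫_ℝ := by
        funext j
        rw [real_inner_smul_left]
        rfl
      show G (fun j => ⟪c • u, x j⟫_ℝ) = _
      rw [e]
      exact hG.smul _ _) hn1 hn2 hbar
  set Q : Set (E d) := {u : E d | G (fun j => ⟪u, x j⟫_ℝ) ≤ 1} with hQd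
  have hz : LC q M 1 (gauge Q) := ⟨N, G, x, hG, fun u => by
    rw [hgQ u, one_mul]; exact ⟨le_rfl, le_rfl⟩⟩
  have hs : ∀ u, gauge Q u ≤ gauge (polarAt K o) u ∧ gauge (polarAt K o) u ≤ C * gauge Q u :=
    fun u => by rw [hgQ u]; exact hg u
  refine cov_num h0 h2 h3 hP hQ hs q M hd hq hM (fun A hA hB hi => ?_) ?_ hnum
  · obtain ⟨a1, a2⟩ := h6 d q M 1 Q A hQ hz
    exact h4 d (A '' polarAt K o) (A '' Q) C q M hq hM hB hA a1 hi a2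
  · intro m y
    have h := h5 d q M 1 _ hq hM le_rfl hz m y
    rwa [mul_one] at h

/-- type and cotype -/
theorem typ (h0 : U_IMG) (h2 : U_CRT) (h3 : U_TNU) (h4 : U_TGM) (h6 : T_TYI)
    (h10 : U_POL) {p q T B : ℝ} (hd : 2 ≤ d) (hp : 4 / 3 < p) (hp2 : p ≤ 2)
    (hq : 2 ≤ q) (hT : 1 ≤ T) (hB : 1 ≤ B) (hC : 1 ≤ C)
    (hKc : IsCompact K) (hK : Convex ℝ K) (ho : o ∈ interior K)
    (hbar : ∀ w : E d, ∫ z, ⟪z, w⟫_ℝ ∂(mP (polarAt K o)) = 0)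
    (hna : ∀ u v, n (u + v) ≤ n u + n v) (hns : ∀ (c : ℝ) u, n (c • u) = |c| * n u)
    (hn1 : ∀ u : E d, ∃ y ∈ K, n u ≤ ⟪u, y - o⟫_ℝ)
    (hn2 : ∀ u : E d, ∀ y ∈ K, ⟪u, y - o⟫_ℝ ≤ C * n u)
    (hty : TY p T n)
    (hco : ∀ (m : ℕ) (x : Fin m → E d), (∑ i, n (x i) ^ q) ^ (1 / q) ≤
      B * Real.sqrt (sm n x))
    (hnum : (10 ^ 13 * T * B * C ^ 2 * Real.log (d + 1) ^ 3) ^ (120 * q) ≤
      (d : ℝ) ^ (3 - 4 / p)) :
    ∃ T : Finset (E d), polarAt K o ⊆ ⋃ t ∈ T, (fun x => t + x) '' interior (polarAt K o) ∧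
      T.card < 2 ^ d := by
  obtain ⟨hP, hQ, hgQ, hg⟩ := h10 d C K o n hKc hK ho hC hna hns hn1 hn2 hbar
  set Q : Set (E d) := {u : E d | n u ≤ 1} with hQd
  have hgn : gauge Q = n := funext hgQ
  have hs : ∀ u, gauge Q u ≤ gauge (polarAt K o) u ∧ gauge (polarAt K o) u ≤ C * gauge Q u :=
    fun u => by rw [hgQ u]; exact hg u
  obtain ⟨n0, n1, n2⟩ := h3 d p q T B C hd hp hp2 hq hT hB hC hnum
  refine cov_gen h0 h2 hP hQ hs _ q B hd hq hB n0 (fun A hA hBn hi => ?_) n1 ?_ n2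
  · obtain ⟨a1, a2⟩ := h6 d Q A p T hQ (by rw [hgn]; exact hty)
    exact h4 d (A '' polarAt K o) (A '' Q) C p T hd hBn hA a1 hi hp.le hp2 hT a2
  · rw [hgn]
    exact hco

end

/-- the spread inequality without the functional `ψ` -/
theorem spr_ineq (h1 : U_SPR) {d : ℕ} {P : Set (E d)} {a l : ℝ} (hP : Bn P a) (hI : Iso P)
    (hl : 1 ≤ l) (hg : gm (gauge P) ≤ l) (hd : 10 ^ 280 * l ^ 4 ≤ (d : ℝ)) (w : E d) :
    ∫ z, (fderiv ℝ (gauge P) z w) ^ 2 ∂(mP P) ≤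
      10 ^ 47 * a * l ^ ((1 : ℝ) / 2) / (d : ℝ) ^ ((1 : ℝ) / 8) * ‖w‖ ^ 2 := by
  have h := Pool.Agent.N555.RZ.iso_of_spr hI _ (h1 d P a l hP hI hl hg hd) w
  have hl0 : 0 < l := by linarith
  have ha0 : 0 < a := by have := hP.one; linarith
  have hd0 : (0 : ℝ) < d := lt_of_lt_of_le (by positivity) hd
  have e1 : 0 < (d : ℝ) ^ ((1 : ℝ) / 8) := Real.rpow_pos_of_pos hd0 _
  have e2 : 0 < 10 ^ 47 * a * l ^ ((1 : ℝ) / 2) := by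
    have := Real.rpow_pos_of_pos hl0 ((1 : ℝ) / 2)
    positivity
  rw [div_mul_eq_mul_div, div_le_iff₀ e2] at h
  rw [div_mul_eq_mul_div, le_div_iff₀ e1]
  linarith

end Pool.Agent.T2h52.SQ
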