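import Pool.Agent.T2h52.SQ.Stm
import Pool.Agent.T2h52.SP.BIG

/-!
# BIG: the affinity of two measures at large times
-/

set_option autoImplicit false
set_option linter.all false

namespace Pool.Agent.T2h52.SQ

open MeasureTheory Set Filter Topology
open scoped ENNReal InnerProductSpace Pointwise
open Pool.Agent.H888R2.KT (gs gc gc_pos)
open Pool.Agent.R755.KF (zn aff sd PB PL3 PLH zn_ok)
open Pool.Agent.T2h52.SP
open Pool.Agent.T2h52.SP.Big (smooth)

theorem big (hS : U_SNH) (hC : U_CHI) : U_BIG := by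
  intro d H M B ν ν' hd hM hH hB hν hν' hmean hmean' hexp hexp'
  have hHpos : 0 < H := by
    have h1 : 0 < Real.sqrt d := by
      apply Real.sqrt_pos.2
      have : 0 < d := by omega
      exact_mod_cast this
    have h2 : 0 < (10 : ℝ) ^ 5 * M := by positivity
    exact lt_of_lt_of_le (mul_pos h2 h1) hH
  haveI := hν.prob
  haveI := hν'.prob
  obtain ⟨A, hA, hA2, hA2', hA3⟩ := hS d H M B ν ν' hd hM hH hν hν' hmean hmean' hexp hexp'
  obtain ⟨gp, -, -, -⟩ := gc_pos (κ := Fin d) H hHpos
  set m := ν.restrict A with hm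
  set m' := ν'.restrict A with hm'
  have hbd : ∀ᵐ x ∂m, ‖x‖ ≤ B := ae_restrict_of_ae hν.bdd
  have hbd' : ∀ᵐ x ∂m', ‖x‖ ≤ B := ae_restrict_of_ae hν'.bdd
  obtain ⟨hi, hsq⟩ := hC d H B m m' hHpos inferInstance inferInstance hbd hbd'
  set F : E d → ℝ := fun y => ∫ x, Real.exp (-(‖x - y‖ ^ 2 / (2 * H))) ∂m with hF
  set F' : E d → ℝ := fun y => ∫ x, Real.exp (-(‖x - y‖ ^ 2 / (2 * H))) ∂m' with hF'
  have hmu : (m univ).toReal = (ν A).toReal := by
    rw [hm, Measure.restrict_apply MeasurableSet.univ, univ_inter]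
  have hmu' : (m' univ).toReal = (ν' A).toReal := by
    rw [hm', Measure.restrict_apply MeasurableSet.univ, univ_inter]
  have eF : F = fun y : E d => ∫ x, Real.exp (-(‖(1 : ℝ) • x - y‖ ^ 2 / (2 * H))) ∂m := by
    funext y
    simp only [hF, one_smul]
  have eF' : F' = fun y : E d => ∫ x, Real.exp (-(‖(1 : ℝ) • x - y‖ ^ 2 / (2 * H))) ∂m' := by
    funext y
    simp only [hF', one_smul]
  obtain ⟨iF, jF⟩ := smooth hHpos m 1
  obtain ⟨iF', jF'⟩ := smooth hHpos m' 1
  rw [← eF] at iF
  rw [← eF'] at iF'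
  have jF2 : ∫ y, F y = gc (Fin d) H * (ν A).toReal := by rw [← hmu, ← jF, eF]
  have jF'2 : ∫ y, F' y = gc (Fin d) H * (ν' A).toReal := by rw [← hmu', ← jF', eF']
  have hdiff : ∫ y, |F y - F' y| ≤ gc (Fin d) H * (3 / 10) := by
    have h1 : (∫ y, |F y - F' y|) ^ 2 ≤ (gc (Fin d) H * (3 / 10)) ^ 2 := by
      refine hsq.trans ?_
      have h2 : 0 ≤ gc (Fin d) H ^ 2 := sq_nonneg _
      have h3 := mul_le_mul_of_nonneg_left hA3 h2
      refine h3.trans (le_of_eq ?_)
      ring
    exact (abs_le_of_sq_le_sq' h1 (by positivity)).2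
  have hmin : ∀ y, min (F y) (F' y) = (F y + F' y - |F y - F' y|) / 2 := by
    intro y
    rcases le_total (F y) (F' y) with h | h
    · rw [min_eq_left h, abs_of_nonpos (by linarith)]
      ring
    · rw [min_eq_right h, abs_of_nonneg (by linarith)]
      ring
  have imin : Integrable fun y => min (F y) (F' y) := by
    have := ((iF.add iF').sub hi.abs).div_const 2
    refine this.congr (Eventually.of_forall fun y => ?_)
    simp only [Pi.add_apply, Pi.sub_apply]
    rw [hmin y]
  have jmin : gc (Fin d) H / 4 ≤ ∫ y, min (F y) (F' y) := by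
    have e1 : ∫ y, min (F y) (F' y) = ((∫ y, F y) + (∫ y, F' y) - ∫ y, |F y - F' y|) / 2 := by
      have a1 := integral_sub (μ := volume) (f := fun y => F y + F' y)
        (g := fun y => |F y - F' y|) (iF.add iF') hi.abs
      have a2 := integral_add (μ := volume) (f := F) (g := F') iF iF'
      rw [← a2, ← a1, ← integral_div]
      exact integral_congr_ae (Eventually.of_forall hmin)
    rw [e1, jF2, jF'2]
    nlinarith
  obtain ⟨c1, p1, -, -, -, i1, -⟩ := zn_ok d H B ν hHpos hB hν
  obtain ⟨c2, p2, -, -, -, i2, -⟩ := zn_ok d H B ν' hHpos hB hν'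
  have hk : ∀ (κ : Measure (E d)) [IsProbabilityMeasure κ] (y : E d),
      Integrable (fun x : E d => Real.exp (-(‖x - y‖ ^ 2 / (2 * H)))) κ := by
    intro κ _ y
    refine (integrable_const (1 : ℝ)).mono' (Continuous.aestronglyMeasurable (by fun_prop))
      (Eventually.of_forall fun x => ?_)
    rw [Real.norm_eq_abs, abs_of_pos (Real.exp_pos _), Real.exp_le_one_iff]
    have : 0 ≤ ‖x - y‖ ^ 2 / (2 * H) := by positivity
    linarith
  have l1 : ∀ y, F y ≤ zn H ν y := by
    intro y
    simp only [hF]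
    unfold zn
    exact setIntegral_le_integral (hk ν y) (Eventually.of_forall fun x => (Real.exp_pos _).le)
  have l2 : ∀ y, F' y ≤ zn H ν' y := by
    intro y
    simp only [hF']
    unfold zn
    exact setIntegral_le_integral (hk ν' y) (Eventually.of_forall fun x => (Real.exp_pos _).le)
  have i3 : Integrable fun y => Real.sqrt (zn H ν y * zn H ν' y) := by
    refine ((i1.add i2).div_const 2).mono' ?_ (Eventually.of_forall fun y => ?_)
    · exact ((c1.continuous.mul c2.continuous).sqrt).aestronglyMeasurable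
    · rw [Real.norm_eq_abs, abs_of_nonneg (Real.sqrt_nonneg _)]
      simp only [Pi.add_apply]
      rw [Real.sqrt_le_left (by linarith [p1 y, p2 y])]
      nlinarith [sq_nonneg (zn H ν y - zn H ν' y)]
  have h5 : ∫ y, min (F y) (F' y) ≤ ∫ y, Real.sqrt (zn H ν y * zn H ν' y) := by
    refine integral_mono imin i3 fun y => ?_
    simp only
    have h6 : min (F y) (F' y) ≤ min (zn H ν y) (zn H ν' y) :=
      min_le_min (l1 y) (l2 y)
    refine h6.trans ?_
    have h7 : 0 ≤ min (zn H ν y) (zn H ν' y) := le_min (p1 y).le (p2 y).le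
    apply Real.le_sqrt_of_sq_le
    rw [sq]
    exact mul_le_mul (min_le_left _ _) (min_le_right _ _) h7 (p1 y).le
  unfold aff
  rw [← div_eq_inv_mul, le_div_iff₀ gp]
  linarith

end Pool.Agent.T2h52.SQ
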