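import Pool.Agent.T2h52.SQ.Stm
import Pool.Agent.T2h52.SP.CHI

/-!
# CHI: the chi-square method for two measures
-/

set_option autoImplicit false
set_option linter.all false

namespace Pool.Agent.T2h52.SQ

open MeasureTheory Set Filter Topology
open scoped ENNReal InnerProductSpace Pointwise
open Pool.Agent.H888R2.KT (gs gc gc_pos)
open Pool.Agent.T2h52.SP

namespace CHIx

variable {d : ℕ}

/-- smoothing of a finite measure -/
lemma smooth {H : ℝ} (hH : 0 < H) (m : Measure (E d)) [IsFiniteMeasure m] :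
    Integrable (fun y : E d => ∫ x, Real.exp (-(‖x - y‖ ^ 2 / (2 * H))) ∂m) ∧
    ∫ y : E d, ∫ x, Real.exp (-(‖x - y‖ ^ 2 / (2 * H))) ∂m = gc (Fin d) H * (m univ).toReal := by
  obtain ⟨-, g1, g2, -⟩ := gc_pos (κ := Fin d) H hH
  have hint : Integrable (fun z : E d × E d => Real.exp (-(‖z.2 - z.1‖ ^ 2 / (2 * H))))
      ((volume : Measure (E d)).prod m) := by
    have hm : AEStronglyMeasurable (fun z : E d × E d => Real.exp (-(‖z.2 - z.1‖ ^ 2 / (2 * H))))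
        ((volume : Measure (E d)).prod m) := by
      refine Continuous.aestronglyMeasurable ?_
      fun_prop
    rw [integrable_prod_iff' hm]
    refine ⟨Eventually.of_forall fun x => g2 x, ?_⟩
    have : (fun x : E d => ∫ y : E d, ‖Real.exp (-(‖x - y‖ ^ 2 / (2 * H)))‖) =
        fun _ => gc (Fin d) H := by
      funext x
      rw [← g1 x]
      refine integral_congr_ae (Eventually.of_forall fun y => ?_)
      simp only
      rw [Real.norm_eq_abs, abs_of_pos (Real.exp_pos _)]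
    rw [this]
    exact integrable_const _
  refine ⟨hint.integral_prod_left, ?_⟩
  rw [integral_integral_swap hint]
  have : (fun x : E d => ∫ y : E d, Real.exp (-(‖x - y‖ ^ 2 / (2 * H)))) =
      fun _ => gc (Fin d) H := funext fun x => g1 x
  rw [this, integral_const, smul_eq_mul, mul_comm]
  rfl

/-- the weighted product of two smoothed measures -/
lemma bil {H R : ℝ} (hH : 0 < H) (m m' : Measure (E d)) [IsFiniteMeasure m] [IsFiniteMeasure m']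
    (hR : ∀ᵐ x ∂m, ‖x‖ ≤ R) (hR' : ∀ᵐ x ∂m', ‖x‖ ≤ R) :
    Integrable (fun y : E d => (∫ x, Real.exp (-(‖x - y‖ ^ 2 / (2 * H))) ∂m) *
      (∫ x, Real.exp (-(‖x - y‖ ^ 2 / (2 * H))) ∂m') * Real.exp (‖y‖ ^ 2 / (2 * H))) ∧
    ∫ y : E d, (∫ x, Real.exp (-(‖x - y‖ ^ 2 / (2 * H))) ∂m) *
      (∫ x, Real.exp (-(‖x - y‖ ^ 2 / (2 * H))) ∂m') * Real.exp (‖y‖ ^ 2 / (2 * H)) =
      gc (Fin d) H * ∫ x, ∫ x', Real.exp (⟪x, x'⟫_ℝ / H) ∂m' ∂m := by
  obtain ⟨gp, g1, g2, -⟩ := gc_pos (κ := Fin d) H hH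
  set C : ℝ := Real.exp (2 * R ^ 2 / H) with hC
  have hC0 : 0 < C := by positivity
  have hint : Integrable (fun z : (E d × E d) × E d => Real.exp (-(‖z.1.1 - z.2‖ ^ 2 / (2 * H))) *
      Real.exp (-(‖z.1.2 - z.2‖ ^ 2 / (2 * H))) *
      Real.exp (‖z.2‖ ^ 2 / (2 * H))) ((m.prod m').prod volume) := by
    have hb1 : Integrable (fun y : E d => C ^ 2 * Real.exp (-(1 / (4 * H)) * ‖y‖ ^ 2)) :=
      (Pool.Agent.H888R2.KT.N0x.gauss_int (κ := Fin d) (1 / (4 * H))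
          (by positivity)).const_mul (C ^ 2)
    have hb0 : Integrable (fun _ : E d × E d => (1 : ℝ)) (m.prod m') := integrable_const 1
    have hb : Integrable (fun z : (E d × E d) × E d => (1 : ℝ) *
        (C ^ 2 * Real.exp (-(1 / (4 * H)) * ‖z.2‖ ^ 2))) ((m.prod m').prod volume) :=
      hb0.mul_prod hb1
    have hc : Continuous fun z : (E d × E d) × E d => Real.exp (-(‖z.1.1 - z.2‖ ^ 2 / (2 * H))) *
      Real.exp (-(‖z.1.2 - z.2‖ ^ 2 / (2 * H))) *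
      Real.exp (‖z.2‖ ^ 2 / (2 * H)) := by fun_prop
    refine hb.mono' hc.aestronglyMeasurable ?_
    have h2 : ∀ᵐ p : E d × E d ∂(m.prod m'), ‖p.1‖ ≤ R ∧ ‖p.2‖ ≤ R :=
      (Measure.quasiMeasurePreserving_fst.ae hR).and (Measure.quasiMeasurePreserving_snd.ae hR')
    have h3 : ∀ᵐ z : (E d × E d) × E d ∂((m.prod m').prod volume), ‖z.1.1‖ ≤ R ∧ ‖z.1.2‖ ≤ R :=
      Measure.quasiMeasurePreserving_fst.ae h2
    filter_upwards [h3] with z hz
    rw [Real.norm_of_nonneg (by positivity), one_mul]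
    have b1 := SP.CHIx.ker_bound hH hz.1 z.2
    have b2 := SP.CHIx.ker_bound hH hz.2 z.2
    have e1 : Real.exp (-(3 / (8 * H) * ‖z.2‖ ^ 2)) * Real.exp (-(3 / (8 * H) * ‖z.2‖ ^ 2)) *
        Real.exp (‖z.2‖ ^ 2 / (2 * H)) = Real.exp (-(1 / (4 * H)) * ‖z.2‖ ^ 2) := by
      rw [← Real.exp_add, ← Real.exp_add]
      congr 1
      field_simp
      ring
    calc Real.exp (-(‖z.1.1 - z.2‖ ^ 2 / (2 * H))) * Real.exp (-(‖z.1.2 - z.2‖ ^ 2 / (2 * H))) *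
          Real.exp (‖z.2‖ ^ 2 / (2 * H))
        ≤ (C * Real.exp (-(3 / (8 * H) * ‖z.2‖ ^ 2))) *
          (C * Real.exp (-(3 / (8 * H) * ‖z.2‖ ^ 2))) * Real.exp (‖z.2‖ ^ 2 / (2 * H)) := by
          gcongr
      _ = C ^ 2 * (Real.exp (-(3 / (8 * H) * ‖z.2‖ ^ 2)) *
          Real.exp (-(3 / (8 * H) * ‖z.2‖ ^ 2)) * Real.exp (‖z.2‖ ^ 2 / (2 * H))) := by ring
      _ = _ := by rw [e1]
  have hsq : ∀ y : E d, ∫ p : E d × E d, Real.exp (-(‖p.1 - y‖ ^ 2 / (2 * H))) *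
      Real.exp (-(‖p.2 - y‖ ^ 2 / (2 * H))) * Real.exp (‖y‖ ^ 2 / (2 * H)) ∂(m.prod m') =
      (∫ x, Real.exp (-(‖x - y‖ ^ 2 / (2 * H))) ∂m) *
      (∫ x, Real.exp (-(‖x - y‖ ^ 2 / (2 * H))) ∂m') * Real.exp (‖y‖ ^ 2 / (2 * H)) := by
    intro y
    rw [integral_mul_const, integral_prod_mul (fun x : E d => Real.exp (-(‖x - y‖ ^ 2 / (2 * H))))
      (fun x : E d => Real.exp (-(‖x - y‖ ^ 2 / (2 * H))))]
  have hGi2 : Integrable fun y : E d => (∫ x, Real.exp (-(‖x - y‖ ^ 2 / (2 * H))) ∂m) *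
      (∫ x, Real.exp (-(‖x - y‖ ^ 2 / (2 * H))) ∂m') * Real.exp (‖y‖ ^ 2 / (2 * H)) := by
    have h1 := hint.integral_prod_right
    refine h1.congr (Eventually.of_forall fun y => ?_)
    exact hsq y
  refine ⟨hGi2, ?_⟩
  have h1 : ∫ y : E d, (∫ x, Real.exp (-(‖x - y‖ ^ 2 / (2 * H))) ∂m) *
      (∫ x, Real.exp (-(‖x - y‖ ^ 2 / (2 * H))) ∂m') * Real.exp (‖y‖ ^ 2 / (2 * H)) =
      ∫ y : E d, ∫ p : E d × E d, Real.exp (-(‖p.1 - y‖ ^ 2 / (2 * H))) *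
        Real.exp (-(‖p.2 - y‖ ^ 2 / (2 * H))) * Real.exp (‖y‖ ^ 2 / (2 * H)) ∂(m.prod m') :=
    integral_congr_ae (Eventually.of_forall fun y => (hsq y).symm)
  have h2 : ∫ p : E d × E d, (∫ y : E d, Real.exp (-(‖p.1 - y‖ ^ 2 / (2 * H))) *
        Real.exp (-(‖p.2 - y‖ ^ 2 / (2 * H))) * Real.exp (‖y‖ ^ 2 / (2 * H))) ∂(m.prod m') =
      ∫ y : E d, ∫ p : E d × E d, Real.exp (-(‖p.1 - y‖ ^ 2 / (2 * H))) *
        Real.exp (-(‖p.2 - y‖ ^ 2 / (2 * H))) * Real.exp (‖y‖ ^ 2 / (2 * H)) ∂(m.prod m') :=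
    integral_integral_swap (f := fun (p : E d × E d) (y : E d) =>
      Real.exp (-(‖p.1 - y‖ ^ 2 / (2 * H))) *
        Real.exp (-(‖p.2 - y‖ ^ 2 / (2 * H))) * Real.exp (‖y‖ ^ 2 / (2 * H))) hint
  have hk : ∀ p : E d × E d, ∫ y : E d, Real.exp (-(‖p.1 - y‖ ^ 2 / (2 * H))) *
        Real.exp (-(‖p.2 - y‖ ^ 2 / (2 * H))) * Real.exp (‖y‖ ^ 2 / (2 * H)) =
      gc (Fin d) H * Real.exp (⟪p.1, p.2⟫_ℝ / H) := fun p => by
    rw [(SP.CHIx.int_ker hH p.1 p.2).2, mul_comm]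
  have h3 : Integrable (fun p : E d × E d => Real.exp (⟪p.1, p.2⟫_ℝ / H)) (m.prod m') := by
    have h4 := hint.integral_prod_left
    have h5 := h4.const_mul (gc (Fin d) H)⁻¹
    refine h5.congr (Eventually.of_forall fun p => ?_)
    change (gc (Fin d) H)⁻¹ * ∫ y : E d, Real.exp (-(‖p.1 - y‖ ^ 2 / (2 * H))) *
        Real.exp (-(‖p.2 - y‖ ^ 2 / (2 * H))) * Real.exp (‖y‖ ^ 2 / (2 * H)) = _
    rw [hk p, inv_mul_cancel_left₀ gp.ne']
  rw [h1, ← h2]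
  simp only [hk]
  rw [integral_const_mul, integral_prod _ h3]

end CHIx

open CHIx in
theorem chi : U_CHI := by
  intro d H R m m' hH hm hm' hR hR'
  have := hm
  have := hm'
  obtain ⟨gp, g1, g2, -⟩ := gc_pos (κ := Fin d) H hH
  obtain ⟨iF, -⟩ := smooth hH m
  obtain ⟨iF', -⟩ := smooth hH m'
  obtain ⟨b11, c11⟩ := bil hH m m hR hR
  obtain ⟨b12, c12⟩ := bil hH m m' hR hR'
  obtain ⟨b22, c22⟩ := bil hH m' m' hR' hR'
  set F : E d → ℝ := fun y => ∫ x, Real.exp (-(‖x - y‖ ^ 2 / (2 * H))) ∂m with hF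
  set F' : E d → ℝ := fun y => ∫ x, Real.exp (-(‖x - y‖ ^ 2 / (2 * H))) ∂m' with hF'
  have hGint : Integrable fun y => F y - F' y := iF.sub iF'
  refine ⟨hGint, ?_⟩
  have hGe : ∀ y : E d, (F y - F' y) ^ 2 * Real.exp (‖y‖ ^ 2 / (2 * H)) =
      F y * F y * Real.exp (‖y‖ ^ 2 / (2 * H)) + F' y * F' y * Real.exp (‖y‖ ^ 2 / (2 * H)) -
        2 * (F y * F' y * Real.exp (‖y‖ ^ 2 / (2 * H))) := by
    intro y
    ring
  have b12' : Integrable (fun y : E d => 2 * (F y * F' y * Real.exp (‖y‖ ^ 2 / (2 * H)))) :=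
    b12.const_mul 2
  have bs : Integrable (fun y : E d => F y * F y * Real.exp (‖y‖ ^ 2 / (2 * H)) +
      F' y * F' y * Real.exp (‖y‖ ^ 2 / (2 * H))) := b11.add b22
  have hGi2 : Integrable fun y => (F y - F' y) ^ 2 * Real.exp (‖y‖ ^ 2 / (2 * H)) := by
    simp only [hGe]
    exact bs.sub b12'
  set W : ℝ := (∫ x, ∫ x', Real.exp (⟪x, x'⟫_ℝ / H) ∂m ∂m) +
      (∫ x, ∫ x', Real.exp (⟪x, x'⟫_ℝ / H) ∂m' ∂m') -
      2 * ∫ x, ∫ x', Real.exp (⟪x, x'⟫_ℝ / H) ∂m' ∂m with hW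
  have hA : ∫ y, (F y - F' y) ^ 2 * Real.exp (‖y‖ ^ 2 / (2 * H)) = gc (Fin d) H * W := by
    simp only [hGe]
    rw [integral_sub bs b12', integral_add b11 b22, integral_const_mul, c11, c12, c22, hW]
    ring
  -- Cauchy-Schwarz
  set a : ℝ := ∫ y, |F y - F' y| with ha
  have hw : Integrable fun y : E d => Real.exp (-(‖y‖ ^ 2 / (2 * H))) :=
    Pool.Agent.H888R2.KT.N0x.gauss_int' H hH
  obtain ⟨-, gg1, -, -⟩ := gc_pos (κ := Fin d) H hH
  have hcs : ∀ s : ℝ, 0 ≤ s → 2 * s * a ≤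
      (∫ y, (F y - F' y) ^ 2 * Real.exp (‖y‖ ^ 2 / (2 * H))) + s ^ 2 * gc (Fin d) H := by
    intro s hs
    have h1 : ∫ y, 2 * s * |F y - F' y| ≤ ∫ y, ((F y - F' y) ^ 2 * Real.exp (‖y‖ ^ 2 / (2 * H)) +
        s ^ 2 * Real.exp (-(‖y‖ ^ 2 / (2 * H)))) := by
      refine integral_mono (hGint.abs.const_mul _) (hGi2.add (hw.const_mul _)) fun y => ?_
      change 2 * s * |F y - F' y| ≤ (F y - F' y) ^ 2 * Real.exp (‖y‖ ^ 2 / (2 * H)) +
        s ^ 2 * Real.exp (-(‖y‖ ^ 2 / (2 * H)))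
      set u := Real.exp (‖y‖ ^ 2 / (4 * H)) with hu
      have hu0 : 0 < u := Real.exp_pos _
      have e1 : Real.exp (‖y‖ ^ 2 / (2 * H)) = u ^ 2 := by
        rw [hu, ← Real.exp_nat_mul]
        congr 1
        push_cast
        field_simp
        ring
      have e2 : Real.exp (-(‖y‖ ^ 2 / (2 * H))) = (u⁻¹) ^ 2 := by
        rw [Real.exp_neg, e1, inv_pow]
      rw [e1, e2]
      have e3 := two_mul_le_add_sq (|F y - F' y| * u) (s * u⁻¹)
      have e4 : 2 * (|F y - F' y| * u) * (s * u⁻¹) = 2 * s * |F y - F' y| := by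
        field_simp
      rw [e4, mul_pow, mul_pow, sq_abs] at e3
      exact e3
    rw [integral_const_mul, integral_add hGi2 (hw.const_mul _), integral_const_mul] at h1
    exact h1
  have ha0 : 0 ≤ a := integral_nonneg fun y => abs_nonneg _
  have h1 := hcs (a / gc (Fin d) H) (div_nonneg ha0 gp.le)
  rw [hA] at h1
  set c := gc (Fin d) H with hc
  have h2 : 2 * (a / c) * a = 2 * (a ^ 2 / c) := by
    field_simp
  have h3 : (a / c) ^ 2 * c = a ^ 2 / c := by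
    field_simp
  rw [h2, h3] at h1
  have h4 : a ^ 2 / c ≤ c * W := by linarith
  rw [div_le_iff₀ gp] at h4
  calc a ^ 2 ≤ _ := h4
    _ = _ := by ring

end Pool.Agent.T2h52.SQ
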