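import Pool.Agent.T2h52.SQ.Stm
import Pool.Agent.N555.RZ.MainA

/-!
# Task FM: first moments of linear functionals (adapted from `SP/LGM.lean`)
-/

set_option autoImplicit false

namespace Pool.Agent.T2h52.SQ

open MeasureTheory Set Filter Topology
open scoped ENNReal InnerProductSpace Pointwise
open Pool.Agent.N555.RZ (mP Spr)
open Pool.Agent.T2h52.SP

namespace FMaux

variable {d : ℕ}

lemma vol_ne {P : Set (E d)} {a : ℝ} (hP : Bn P a) : volume P ≠ 0 :=
  (Measure.measure_pos_of_mem_nhds volume (mem_interior_iff_mem_nhds.1 hP.int)).ne'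

lemma mP_int {P : Set (E d)} {a : ℝ} (hP : Bn P a) {f : E d → ℝ} (hf : Continuous f) :
    Integrable f (mP P) := by
  unfold mP
  exact (hf.continuousOn.integrableOn_compact hP.comp).smul_measure (ENNReal.inv_ne_top.2 (vol_ne hP))

end FMaux

open FMaux

theorem fm : U_FM := by
  intro d P a hP hI x
  rcases eq_or_ne x 0 with rfl | hx
  · simp
  · have hr : 0 < ‖x‖ := norm_pos_iff.2 hx
    set r := ‖x‖ with hrd
    have hpt : ∀ y : ℝ, y ^ 2 / (50000 * r) - y ^ 4 / (50000 ^ 3 * r ^ 3) ≤ |y| := by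
      intro y
      set τ := |y| / (50000 * r) with hτ
      have hτ0 : 0 ≤ τ := by positivity
      have h1 : |y| = 50000 * r * τ := by
        rw [hτ]
        field_simp
      have h2 : y ^ 2 / (50000 * r) - y ^ 4 / (50000 ^ 3 * r ^ 3) = 50000 * r * (τ ^ 2 - τ ^ 4) := by
        have e2 : y ^ 2 = |y| ^ 2 := (sq_abs y).symm
        have e4 : y ^ 4 = |y| ^ 4 := by
          rw [show (4 : ℕ) = 2 * 2 by norm_num, pow_mul, pow_mul, sq_abs]
        rw [e2, e4, h1]
        field_simp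
      rw [h2, h1]
      apply mul_le_mul_of_nonneg_left _ (by positivity)
      rcases le_total τ 1 with h | h
      · nlinarith [pow_nonneg hτ0 4]
      · have : τ ^ 2 ≤ τ ^ 4 := pow_le_pow_right₀ h (by norm_num)
        linarith
    have hi2 : Integrable (fun u : E d => ⟪u, x⟫_ℝ ^ 2) (mP P) := mP_int hP (by fun_prop)
    have hi4 : Integrable (fun u : E d => ⟪u, x⟫_ℝ ^ 4) (mP P) := mP_int hP (by fun_prop)
    have hi1 : Integrable (fun u : E d => |⟪u, x⟫_ℝ|) (mP P) := mP_int hP (by fun_prop)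
    have h4 : ∫ u, ⟪u, x⟫_ℝ ^ 4 ∂(mP P) ≤ (160 * r) ^ 4 := by
      have h5 := Pool.Agent.N555.RZ.mom_inner hP.conv hP.comp (mem_interior_iff_mem_nhds.1 hP.int)
        hI x 2 (by norm_num)
      rw [integral_eq_lintegral_of_nonneg_ae (Eventually.of_forall fun u => by positivity)
        hi4.aestronglyMeasurable]
      refine ENNReal.toReal_le_of_le_ofReal (by positivity) ?_
      refine le_trans (le_of_eq ?_) (h5.trans (le_of_eq ?_))
      · refine lintegral_congr fun u => ?_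
        rw [real_inner_comm]
        congr 1
        rw [show 2 * 2 = 4 by norm_num, show (4 : ℕ) = 2 * 2 by norm_num, pow_mul, pow_mul, sq_abs]
      · congr 1
        norm_num
        ring
    have h2 : ∫ u, ⟪u, x⟫_ℝ ^ 2 ∂(mP P) = r ^ 2 := hI x
    have h6 : ∫ u, (⟪u, x⟫_ℝ ^ 2 / (50000 * r) - ⟪u, x⟫_ℝ ^ 4 / (50000 ^ 3 * r ^ 3)) ∂(mP P) ≤
        ∫ u, |⟪u, x⟫_ℝ| ∂(mP P) :=
      integral_mono ((hi2.div_const _).sub (hi4.div_const _)) hi1 fun u => hpt _
    refine le_trans ?_ h6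
    rw [integral_sub (hi2.div_const _) (hi4.div_const _), integral_div, integral_div, h2]
    have h7 : (∫ u, ⟪u, x⟫_ℝ ^ 4 ∂(mP P)) / (50000 ^ 3 * r ^ 3) ≤ (160 * r) ^ 4 / (50000 ^ 3 * r ^ 3) :=
      div_le_div_of_nonneg_right h4 (by positivity)
    have h8 : r ^ 2 / (50000 * r) - (160 * r) ^ 4 / (50000 ^ 3 * r ^ 3) =
        (1 / 50000 - 160 ^ 4 / 50000 ^ 3) * r := by
      field_simp
    have h9 : 1 / 10 ^ 5 * r ≤ (1 / 50000 - 160 ^ 4 / 50000 ^ 3) * r := by
      apply mul_le_mul_of_nonneg_right _ hr.le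
      norm_num
    linarith

end Pool.Agent.T2h52.SQ
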