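import Pool.Agent.T2h52.SQ.Stm
import Pool.Agent.H888R2.KT.N0

/-!
# Task GSY: the symmetric core
-/

set_option autoImplicit false

namespace Pool.Agent.T2h52.SQ

open MeasureTheory Set Filter Topology
open scoped ENNReal InnerProductSpace Pointwise
open Pool.Agent.H888R2.KT (gs gc gc_pos)
open Pool.Agent.N555.RZ (mP Spr)
open Pool.Agent.T2h52.SP

namespace GSYaux

variable {d : ℕ}

/-- the weight -/
noncomputable def W (y : E d) : ℝ := Real.exp (-(‖y‖ ^ 2 / 2))

lemma gint (g : E d → ℝ) (hg : Continuous g) (C : ℝ) (hC : ∀ y, |g y| ≤ C * ‖y‖) :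
    Integrable fun y => g y * Real.exp (-(‖y‖ ^ 2 / 2)) := by
  obtain ⟨-, -, -, g3⟩ := gc_pos (κ := Fin d) 1 one_pos
  have h1 : Integrable fun y : E d => C * (‖y‖ * Real.exp (-(‖y‖ ^ 2 / 2))) := by
    refine ((g3 0).const_mul C).congr (Eventually.of_forall fun y => ?_)
    simp only [zero_sub, norm_neg, mul_one]
  refine h1.mono' ?_ (Eventually.of_forall fun y => ?_)
  · have : Continuous fun y => g y * Real.exp (-(‖y‖ ^ 2 / 2)) := by fun_prop
    exact this.aestronglyMeasurable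
  · rw [norm_mul, Real.norm_eq_abs, Real.norm_of_nonneg (Real.exp_pos _).le, ← mul_assoc]
    exact mul_le_mul_of_nonneg_right (hC y) (Real.exp_pos _).le

lemma gbound {P : Set (E d)} (hc : Convex ℝ P) (hP : P ∈ 𝓝 (0 : E d)) :
    ∃ C : ℝ, ∀ y, |gauge P y| ≤ C * ‖y‖ := by
  obtain ⟨r, hr, hb⟩ := Metric.mem_nhds_iff.1 hP
  refine ⟨r⁻¹, fun y => ?_⟩
  rw [abs_of_nonneg (gauge_nonneg _)]
  have h1 : gauge P y ≤ gauge (Metric.ball (0 : E d) r) y :=
    gauge_mono (absorbent_ball_zero hr) hb y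
  rw [gauge_ball hr.le] at h1
  rw [inv_mul_eq_div]
  exact h1

end GSYaux

open GSYaux

theorem gsy : U_GSY := by
  intro d P a hP
  have hnh : P ∈ 𝓝 (0 : E d) := mem_interior_iff_mem_nhds.1 hP.int
  have hmem : ∀ x : E d, gauge P x ≤ 1 ↔ x ∈ P := fun x => by
    rw [gauge_le_one_iff_mem_closure hP.conv hnh, hP.comp.isClosed.closure_eq]
  have hz : ∀ x : E d, gauge P x = 0 → x = 0 := by
    intro x hx
    have hb : Bornology.IsVonNBounded ℝ P :=
      NormedSpace.isVonNBounded_of_isBounded ℝ hP.comp.isBounded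
    by_contra hne
    have := (gauge_pos (absorbent_nhds_zero hnh) hb).2 hne
    linarith
  have ha0 : 0 < a := lt_of_lt_of_le one_pos hP.one
  have hconv : Convex ℝ (sc P) := by
    intro x hx y hy s t hs ht hst
    refine ⟨hP.conv hx.1 hy.1 hs ht hst, ?_⟩
    have h1 := hP.conv hx.2 hy.2 hs ht hst
    have e : -(s • x + t • y) = s • (-x) + t • (-y) := by
      rw [neg_add, smul_neg, smul_neg]
    rw [e]
    exact h1
  have hclosed : IsClosed (sc P) :=
    hP.comp.isClosed.inter (hP.comp.isClosed.preimage continuous_neg)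
  have hnhs : sc P ∈ 𝓝 (0 : E d) := by
    refine Filter.inter_mem hnh ?_
    have h1 : Tendsto (fun x : E d => -x) (𝓝 0) (𝓝 0) := by
      have := (continuous_neg (G := E d)).tendsto 0
      rwa [neg_zero] at this
    exact h1 hnh
  have hBd : Bd (sc P) :=
    ⟨hconv, hP.comp.of_isClosed_subset hclosed fun x hx => hx.1,
      mem_interior_iff_mem_nhds.2 hnhs, fun x hx => ⟨hx.2, by rw [neg_neg]; exact hx.1⟩⟩
  have hle1 : ∀ x, gauge P x ≤ gauge (sc P) x := fun x =>
    gauge_mono (absorbent_nhds_zero hnhs) (fun y hy => hy.1) x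
  have hsym : ∀ x, gauge (sc P) (-x) = gauge (sc P) x :=
    gauge_neg hBd.sym
  have hle2 : ∀ x, gauge P (-x) ≤ gauge (sc P) x := fun x => by
    rw [← hsym x]
    exact hle1 (-x)
  have hle3 : ∀ x, gauge P (-x) ≤ a * gauge P x := by
    intro x
    rcases eq_or_lt_of_le (gauge_nonneg (s := P) x) with h | h
    · have hx := hz x h.symm
      subst hx
      simp
    · have h1 : (gauge P x)⁻¹ • x ∈ P := by
        rw [← hmem, gauge_smul_of_nonneg (by positivity), smul_eq_mul, inv_mul_cancel₀ h.ne']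
      have h2 := hP.asym _ h1
      rw [← hmem] at h2
      have e : -(a⁻¹ • (gauge P x)⁻¹ • x) = (a⁻¹ * (gauge P x)⁻¹) • (-x) := by
        rw [smul_smul, smul_neg]
      rw [e, gauge_smul_of_nonneg (by positivity), smul_eq_mul, ← mul_inv,
        inv_mul_le_iff₀ (by positivity), mul_one] at h2
      exact h2
  have hmax : ∀ x, gauge (sc P) x ≤ gauge P x + gauge P (-x) := by
    intro x
    rcases eq_or_lt_of_le (add_nonneg (gauge_nonneg (s := P) x) (gauge_nonneg (s := P) (-x))) with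
      h | h
    · have h1 : gauge P x = 0 := by
        have := gauge_nonneg (s := P) x
        have := gauge_nonneg (s := P) (-x)
        linarith
      have hx := hz x h1
      subst hx
      simp
    · set t := gauge P x + gauge P (-x) with ht
      have hm : t⁻¹ • x ∈ sc P := by
        refine ⟨?_, ?_⟩
        · rw [← hmem, gauge_smul_of_nonneg (by positivity), smul_eq_mul,
            inv_mul_le_iff₀ h, mul_one, ht]
          linarith [gauge_nonneg (s := P) (-x)]
        · rw [← smul_neg, ← hmem, gauge_smul_of_nonneg (by positivity), smul_eq_mul,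
            inv_mul_le_iff₀ h, mul_one, ht]
          linarith [gauge_nonneg (s := P) x]
      have h2 : gauge (sc P) (t⁻¹ • x) ≤ 1 := gauge_le_one_of_mem hm
      rwa [gauge_smul_of_nonneg (by positivity), smul_eq_mul, inv_mul_le_iff₀ h, mul_one] at h2
  refine ⟨hBd, ?_, hle1, hle2, hle3⟩
  obtain ⟨C, hC⟩ := gbound hP.conv hnh
  obtain ⟨C', hC'⟩ := gbound hconv hnhs
  have hcg := continuous_gauge hP.conv hnh
  have i1 := gint (gauge P) hcg C hC
  have i2 := gint (fun y => gauge P (-y)) (hcg.comp continuous_neg) C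
    (fun y => by rw [← norm_neg y]; exact hC (-y))
  have i3 := gint (gauge (sc P)) (continuous_gauge hconv hnhs) C' hC'
  have e2 : ∫ y : E d, gauge P (-y) * Real.exp (-(‖y‖ ^ 2 / 2)) =
      ∫ y : E d, gauge P y * Real.exp (-(‖y‖ ^ 2 / 2)) := by
    have h1 := integral_neg_eq_self (fun y : E d => gauge P y * Real.exp (-(‖y‖ ^ 2 / 2))) volume
    simp only [norm_neg] at h1
    exact h1
  have h3 : ∫ y : E d, gauge (sc P) y * Real.exp (-(‖y‖ ^ 2 / 2)) ≤
      2 * ∫ y : E d, gauge P y * Real.exp (-(‖y‖ ^ 2 / 2)) := by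
    calc ∫ y : E d, gauge (sc P) y * Real.exp (-(‖y‖ ^ 2 / 2)) ≤
        ∫ y : E d, (gauge P y * Real.exp (-(‖y‖ ^ 2 / 2)) +
          gauge P (-y) * Real.exp (-(‖y‖ ^ 2 / 2))) := by
          refine integral_mono i3 (i1.add i2) fun y => ?_
          simp only
          rw [← add_mul]
          exact mul_le_mul_of_nonneg_right (hmax y) (Real.exp_pos _).le
      _ = 2 * ∫ y : E d, gauge P y * Real.exp (-(‖y‖ ^ 2 / 2)) := by
          rw [integral_add i1 i2, e2]
          ring
  have hpos : 0 ≤ (∫ y : E d, Real.exp (-(‖y‖ ^ 2 / 2)))⁻¹ :=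
    inv_nonneg.2 (integral_nonneg fun y => (Real.exp_pos _).le)
  unfold gm
  calc (∫ y : E d, Real.exp (-(‖y‖ ^ 2 / 2)))⁻¹ *
      ∫ y : E d, gauge (sc P) y * Real.exp (-(‖y‖ ^ 2 / 2)) ≤
      (∫ y : E d, Real.exp (-(‖y‖ ^ 2 / 2)))⁻¹ *
        (2 * ∫ y : E d, gauge P y * Real.exp (-(‖y‖ ^ 2 / 2))) :=
        mul_le_mul_of_nonneg_left h3 hpos
    _ = _ := by ring

end Pool.Agent.T2h52.SQ
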