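import Pool.Agent.T2h52.SQ.Stm
import Pool.Agent.N555.RZ.MainA

/-!
Task HAF: the part `{2/10^6 ≤ ⟪x, e⟫}` has at least the part `10^(-12)` of the volume.
-/

set_option autoImplicit false

namespace Pool.Agent.T2h52.SQ

open MeasureTheory Set Filter Topology
open scoped ENNReal InnerProductSpace Pointwise
open Pool.Agent.N555.RZ (mP mP_prob int_K)
open Pool.Agent.T2h52.SP

namespace HAFaux

theorem point (s : ℝ) : (|s| + s) / 2 ≤ 2 / 10 ^ 6 + 3 / (2 * 10 ^ 6) * s ^ 2 +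
    (10 ^ 6 / 6) * (if 2 / 10 ^ 6 ≤ s then (1 : ℝ) else 0) := by
  split_ifs with h
  · have hs : 0 ≤ s := le_trans (by positivity) h
    rw [abs_of_nonneg hs]
    nlinarith [sq_nonneg (3 / 10 ^ 6 * s - 1)]
  · rw [not_le] at h
    have h2 : 0 ≤ 3 / (2 * 10 ^ 6 : ℝ) * s ^ 2 := by positivity
    rcases abs_cases s with ⟨h3, h4⟩ | ⟨h3, h4⟩
    · rw [h3]; linarith
    · rw [h3]
      have : (0 : ℝ) ≤ 2 / 10 ^ 6 := by positivity
      linarith

end HAFaux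

theorem haf (hFM : U_FM) : U_HAF := by
  intro d P a hP hiso e he
  have hK0 : P ∈ 𝓝 0 := mem_interior_iff_mem_nhds.1 hP.int
  have hPm : MeasurableSet P := hP.comp.isClosed.measurableSet
  have hfin : volume P ≠ ⊤ := hP.comp.measure_lt_top.ne
  have h0 : volume P ≠ 0 := (Measure.measure_pos_of_mem_nhds volume hK0).ne'
  have hprob := mP_prob h0 hfin
  set T : Set (E d) := {x | 2 / 10 ^ 6 ≤ ⟪x, e⟫_ℝ} with hT
  have hTm : MeasurableSet T :=
    (isClosed_le continuous_const (by fun_prop : Continuous fun x : E d => ⟪x, e⟫_ℝ)).measurableSet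
  -- moments
  have i0 : Integrable (fun x : E d => |⟪x, e⟫_ℝ|) (mP P) := int_K hP.comp h0 (by fun_prop)
  have i1 : Integrable (fun x : E d => ⟪x, e⟫_ℝ) (mP P) := int_K hP.comp h0 (by fun_prop)
  have i2 : Integrable (fun x : E d => ⟪x, e⟫_ℝ ^ 2) (mP P) := int_K hP.comp h0 (by fun_prop)
  have m0 : 1 / 10 ^ 5 ≤ ∫ x, |⟪x, e⟫_ℝ| ∂(mP P) := by
    have h1 := hFM d P a hP hiso e
    rwa [he, mul_one] at h1
  have m1 : ∫ x, ⟪x, e⟫_ℝ ∂(mP P) = 0 := hP.bar e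
  have m2 : ∫ x, ⟪x, e⟫_ℝ ^ 2 ∂(mP P) = 1 := by
    rw [hiso e, he, one_pow]
  have iS : Integrable (fun x : E d => (|⟪x, e⟫_ℝ| + ⟪x, e⟫_ℝ) / 2) (mP P) := (i0.add i1).div_const 2
  have hS : ∫ x, (|⟪x, e⟫_ℝ| + ⟪x, e⟫_ℝ) / 2 ∂(mP P) = (∫ x, |⟪x, e⟫_ℝ| ∂(mP P)) / 2 := by
    rw [integral_div, integral_add i0 i1, m1, add_zero]
  have hle : ∫ x, (|⟪x, e⟫_ℝ| + ⟪x, e⟫_ℝ) / 2 ∂(mP P) ≤
      ∫ x, (2 / 10 ^ 6 + 3 / (2 * 10 ^ 6) * ⟪x, e⟫_ℝ ^ 2 +
      (10 ^ 6 / 6) * T.indicator (fun _ => (1 : ℝ)) x) ∂(mP P) := by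
    refine integral_mono iS ?_ fun x => ?_
    · refine ((integrable_const _).add (i2.const_mul _)).add (Integrable.const_mul ?_ _)
      exact (integrable_const _).indicator hTm
    · have h1 := HAFaux.point (⟪x, e⟫_ℝ)
      have h2 : T.indicator (fun _ => (1 : ℝ)) x = if 2 / 10 ^ 6 ≤ ⟪x, e⟫_ℝ then (1 : ℝ) else 0 := by
        by_cases hx : 2 / 10 ^ 6 ≤ ⟪x, e⟫_ℝ
        · rw [if_pos hx, indicator_of_mem (show x ∈ T from hx)]
        · rw [if_neg hx, indicator_of_notMem (show x ∉ T from hx)]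
      show (|⟪x, e⟫_ℝ| + ⟪x, e⟫_ℝ) / 2 ≤ _
      rw [h2]
      exact h1
  have iA : Integrable (fun x : E d => (2 / 10 ^ 6 : ℝ) + 3 / (2 * 10 ^ 6) * ⟪x, e⟫_ℝ ^ 2) (mP P) :=
    (integrable_const _).add (i2.const_mul _)
  have iB : Integrable (fun x : E d => (10 ^ 6 / 6 : ℝ) * T.indicator (fun _ => (1 : ℝ)) x)
      (mP P) := Integrable.const_mul ((integrable_const (1 : ℝ)).indicator hTm) _
  have iC : Integrable (fun _ : E d => (2 / 10 ^ 6 : ℝ)) (mP P) := integrable_const _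
  have iD : Integrable (fun x : E d => (3 / (2 * 10 ^ 6) : ℝ) * ⟪x, e⟫_ℝ ^ 2) (mP P) :=
    i2.const_mul _
  rw [hS, integral_add iA iB, integral_add iC iD, integral_const_mul, integral_const_mul,
    integral_indicator hTm, integral_const, integral_const, m2] at hle
  simp only [probReal_univ, smul_eq_mul, one_mul, mul_one] at hle
  have hTp : 9 / 10 ^ 12 ≤ (mP P).real T := by
    have h1 : ((mP P).restrict T).real univ = (mP P).real T := by
      rw [measureReal_restrict_apply_univ]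
    rw [h1] at hle
    linarith
  -- volumes
  have hvT : (mP P).real T = (volume P).toReal⁻¹ * (volume (T ∩ P)).toReal := by
    rw [Measure.real, mP, Measure.smul_apply, Measure.restrict_apply hTm, smul_eq_mul,
      ENNReal.toReal_mul, ENNReal.toReal_inv]
  have hTP : T ∩ P = hc P (2 / 10 ^ 6) e := by
    ext x
    exact ⟨fun h => ⟨h.2, h.1⟩, fun h => ⟨h.2, h.1⟩⟩
  have hhb : hc P (2 / 10 ^ 6) e ⊆ P := fun x hx => hx.1
  have hhfin : volume (hc P (2 / 10 ^ 6) e) ≠ ⊤ := measure_ne_top_of_subset hhb hfin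
  have hV : 0 < (volume P).toReal := ENNReal.toReal_pos h0 hfin
  rw [← ENNReal.ofReal_toReal hfin, ← ENNReal.ofReal_toReal hhfin,
    ← ENNReal.ofReal_mul (by norm_num)]
  refine ENNReal.ofReal_le_ofReal ?_
  rw [hvT, inv_mul_eq_div, le_div_iff₀ hV, hTP] at hTp
  refine le_trans ?_ hTp
  gcongr
  norm_num

end Pool.Agent.T2h52.SQ
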