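import Pool.Agent.T2h52.SQ.Stm

/-!
# IMG: linear images
-/

set_option autoImplicit false

namespace Pool.Agent.T2h52.SQ

open MeasureTheory Set Filter Topology
open scoped ENNReal InnerProductSpace Pointwise
open Pool.Agent.N555.RZ (mP Spr)
open Pool.Agent.T2h52.SP

/-- IMG -/
theorem img : U_IMG := by
  intro d P Q A C hP hQ hPQ
  have hAc : Continuous A := A.toContinuousLinearEquiv.continuous
  have hint : ∀ K : Set (E d), interior (A '' K) = A '' interior K := fun K =>
    (A.toContinuousLinearEquiv.toHomeomorph.image_interior K).symm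
  refine ⟨⟨?_, hP.comp.image hAc, ?_, hP.one, ?_, fun w => ?_⟩, ⟨?_, hQ.comp.image hAc, ?_, ?_⟩,
    fun u => ?_⟩
  · exact hP.conv.linear_image A.toLinearMap
  · rw [hint]
    exact ⟨0, hP.int, map_zero A⟩
  · rintro _ ⟨x, hx, rfl⟩
    exact ⟨-(C⁻¹ • x), hP.asym x hx, by rw [map_neg, map_smul]⟩
  · rw [← Pool.Agent.N555.RZ.mP_map hP.comp.measurableSet A, integral_map
      hAc.aemeasurable (by
        have : Continuous fun x : E d => ⟪x, w⟫_ℝ := by fun_prop
        exact this.aestronglyMeasurable)]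
    have h1 := hP.bar (LinearMap.adjoint (A : E d →ₗ[ℝ] E d) w)
    rw [← h1]
    refine integral_congr_ae (ae_of_all _ fun z => ?_)
    show ⟪(A : E d →ₗ[ℝ] E d) z, w⟫_ℝ = ⟪z, LinearMap.adjoint (A : E d →ₗ[ℝ] E d) w⟫_ℝ
    rw [LinearMap.adjoint_inner_right]
  · exact hQ.conv.linear_image A.toLinearMap
  · rw [hint]
    exact ⟨0, hQ.int, map_zero A⟩
  · rintro _ ⟨x, hx, rfl⟩
    exact ⟨-x, hQ.sym x hx, map_neg A x⟩
  · have h1 := Pool.Agent.N555.RZ.gauge_img (K := P) A (A.symm u)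
    have h2 := Pool.Agent.N555.RZ.gauge_img (K := Q) A (A.symm u)
    rw [A.apply_symm_apply] at h1 h2
    rw [h1, h2]
    exact hPQ _

end Pool.Agent.T2h52.SQ
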