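import Pool.Agent.T2h52.SQ.Stm
import Pool.Agent.T2h52.SP.PLB

/-!
# LAW: the laws of `x - β`
-/

set_option autoImplicit false

namespace Pool.Agent.T2h52.SQ

open MeasureTheory Set Filter Topology
open scoped ENNReal InnerProductSpace Pointwise
open Pool.Agent.R755.KF (zn aff sd PB PL3 PLH)
open Pool.Agent.N555.RZ (mP)
open Pool.Agent.T2h52.SP

/-- LAW -/
theorem law : U_LAW := by
  intro d A hA hA0 β
  refine ⟨PLBaux.pb_map hA hA0.ne' (fun x => x - β) (by fun_prop), fun hβ w => ?_⟩
  haveI := PLBaux.mP_prob' hA0.ne' hA.measure_lt_top.ne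
  have hm : Continuous fun x : E d => x - β := by fun_prop
  have hi : Integrable (fun x : E d => ⟪x, w⟫_ℝ) (mP A) := by
    have h1 : IntegrableOn (fun x : E d => ⟪x, w⟫_ℝ) A volume :=
      (Continuous.continuousOn (by fun_prop)).integrableOn_compact hA
    exact Integrable.smul_measure h1 (ENNReal.inv_ne_top.2 hA0.ne')
  rw [la, integral_map hm.aemeasurable (by
    have : Continuous fun x : E d => ⟪x, w⟫_ℝ := by fun_prop
    exact this.aestronglyMeasurable)]
  have e : ∀ x : E d, ⟪x - β, w⟫_ℝ = ⟪x, w⟫_ℝ - ⟪β, w⟫_ℝ := fun x => inner_sub_left _ _ _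
  simp only [e]
  rw [integral_sub hi (integrable_const _), integral_const, ← hβ w]
  simp

end Pool.Agent.T2h52.SQ
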