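import Pool.Agent.T2h52.SQ.Stm
import Pool.Agent.N555.RZ.MainB

/-!
Task MAI: spread bodies close to a symmetric body of finite cotype are covered.
-/

set_option autoImplicit false

namespace Pool.Agent.T2h52.SQ

open MeasureTheory Set Filter Topology
open scoped ENNReal InnerProductSpace Pointwise
open Pool.Agent.T2h52.SP
open Pool.Agent.N555.RZ (Spr log_ge_one)
open Pool.Agent.TH591.Ns

theorem mai (hR : U_RAD) : U_MAI := by
  intro d P Q C q B D hd hP hQ hPQ hspr hq hB hcot hD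
  have hC := hP.one
  have hC0 : 0 < C := by linarith
  have hB0 : 0 < B := by linarith
  have hP0 : P ∈ nhds (0 : E d) := mem_interior_iff_mem_nhds.mp hP.int
  have hQ0 : Q ∈ nhds (0 : E d) := mem_interior_iff_mem_nhds.mp hQ.int
  have hgP := isG_gauge hP.conv hP0
  have hℓ := log_ge_one d hd
  set ℓ := Real.log ((d : ℝ) + 1) with hℓ'
  have hq0 : 0 < q := by linarith
  have hℓ0 : 0 < ℓ := by linarith
  obtain ⟨Y, hY⟩ : ∃ Y, Y = 10 ^ 12 * B * C ^ 2 * ℓ ^ 3 := ⟨_, rfl⟩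
  rw [← hY] at hD
  have hC2 : 1 ≤ C ^ 2 := one_le_pow₀ hC
  have hℓ3 : 1 ≤ ℓ ^ 3 := one_le_pow₀ hℓ
  have hY1 : 1 ≤ Y := by
    rw [hY]
    have h1 : 1 ≤ B * C ^ 2 := one_le_mul_of_one_le_of_one_le hB hC2
    have h2 : 1 ≤ B * C ^ 2 * ℓ ^ 3 := one_le_mul_of_one_le_of_one_le h1 hℓ3
    nlinarith
  have hY0 : 0 < Y := by linarith
  obtain ⟨n, hn⟩ : ∃ n : ℕ, n = ⌈Y ^ q⌉₊ := ⟨_, rfl⟩
  have hYq : 1 ≤ Y ^ q := Real.one_le_rpow hY1 hq0.le
  have hnY : Y ^ q ≤ n := by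
    rw [hn]
    exact Nat.le_ceil _
  have hnY2 : (n : ℝ) ≤ 2 * Y ^ q := by
    have h1 : (n : ℝ) < Y ^ q + 1 := by
      rw [hn]
      exact Nat.ceil_lt_add_one (by positivity)
    linarith
  have hn1 : 1 ≤ n := by
    have h1 : (1 : ℝ) ≤ n := hYq.trans hnY
    exact_mod_cast h1
  have hDn : 10 ^ 64 * (n : ℝ) ^ 4 * C ^ 8 * ℓ ^ 10 ≤ D := by
    refine le_trans ?_ hD
    have h1 : (n : ℝ) ^ 4 ≤ 16 * Y ^ (4 * q) := by
      calc (n : ℝ) ^ 4 ≤ (2 * Y ^ q) ^ 4 := by gcongr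
        _ = 16 * (Y ^ q) ^ 4 := by ring
        _ = 16 * Y ^ (4 * q) := by
          rw [← Real.rpow_natCast (Y ^ q) 4, ← Real.rpow_mul hY0.le]
          congr 2
          push_cast
          ring
    have h2 : 10 ^ 66 * (C ^ 8 * ℓ ^ 10) ≤ Y ^ (7 * q) := by
      calc 10 ^ 66 * (C ^ 8 * ℓ ^ 10) ≤ 10 ^ 120 * (B ^ 10 * (C ^ 20 * ℓ ^ 30)) := by
            have h3 : 1 ≤ B ^ 10 := one_le_pow₀ hB
            have h4 : C ^ 8 ≤ C ^ 20 := pow_le_pow_right₀ hC (by norm_num)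
            have h5 : ℓ ^ 10 ≤ ℓ ^ 30 := pow_le_pow_right₀ hℓ (by norm_num)
            have h6 : C ^ 8 * ℓ ^ 10 ≤ C ^ 20 * ℓ ^ 30 := by gcongr
            have h7 : C ^ 20 * ℓ ^ 30 ≤ B ^ 10 * (C ^ 20 * ℓ ^ 30) :=
              le_mul_of_one_le_left (by positivity) h3
            have h8 : 0 ≤ B ^ 10 * (C ^ 20 * ℓ ^ 30) := by positivity
            calc (10 : ℝ) ^ 66 * (C ^ 8 * ℓ ^ 10) ≤ 10 ^ 66 * (B ^ 10 * (C ^ 20 * ℓ ^ 30)) :=
                  mul_le_mul_of_nonneg_left (h6.trans h7) (by norm_num)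
              _ ≤ _ := mul_le_mul_of_nonneg_right (by norm_num) h8
        _ = Y ^ 10 := by rw [hY]; ring
        _ = Y ^ (10 : ℝ) := by norm_cast
        _ ≤ Y ^ (7 * q) := Real.rpow_le_rpow_of_exponent_le hY1 (by linarith)
    calc 10 ^ 64 * (n : ℝ) ^ 4 * C ^ 8 * ℓ ^ 10 = (n : ℝ) ^ 4 * (10 ^ 64 * (C ^ 8 * ℓ ^ 10)) := by
          ring
      _ ≤ 16 * Y ^ (4 * q) * (10 ^ 64 * (C ^ 8 * ℓ ^ 10)) := by gcongr
      _ = Y ^ (4 * q) * (16 * 10 ^ 64 * (C ^ 8 * ℓ ^ 10)) := by ring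
      _ ≤ Y ^ (4 * q) * (10 ^ 66 * (C ^ 8 * ℓ ^ 10)) := by
          gcongr
          norm_num
      _ ≤ Y ^ (4 * q) * Y ^ (7 * q) := by gcongr
      _ = Y ^ (11 * q) := by
          rw [← Real.rpow_add hY0]
          congr 1
          ring
  have hneg : -P ⊆ C • P := by
    intro x hx
    rw [Set.mem_smul_set_iff_inv_smul_mem₀ hC0.ne']
    have h1 := hP.asym _ hx
    rwa [smul_neg, neg_neg] at h1
  rcases Pool.Agent.N555.RZ.mainA n D hd hn1 hP.conv hP.comp hP.int C hC hneg hspr hDn with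
    h | ⟨φ, h1, h2⟩
  · exact h
  exfalso
  obtain ⟨c, hc⟩ : ∃ c : ℝ, c = 1 / (10 ^ 10 * C ^ 2 * ℓ ^ 2) := ⟨_, rfl⟩
  have hc0 : 0 < c := by rw [hc]; positivity
  obtain ⟨x, hx1, hx2⟩ := hR d n Q c hd hn1 hQ hc0 (fun i => C⁻¹ • φ i) (by
    intro i x hx
    have h3 : gauge Q x ≤ 1 := Pool.Agent.N555.RZ.gauge_le_one hQ.conv hQ.comp hQ0 hx
    have h4 : C⁻¹ • x ∈ P := by
      refine Pool.Agent.N555.RZ.mem_of_gauge hP.conv hP.comp hP0 ?_
      rw [hgP.smul _ (by positivity), inv_mul_le_iff₀ hC0, mul_one]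
      refine (hPQ x).2.trans ?_
      calc C * gauge Q x ≤ C * 1 := by gcongr
        _ = C := mul_one _
    have h5 := h1 i _ h4
    rwa [map_smul] at h5) (by
    intro δ
    obtain ⟨z, hz, hz2⟩ := h2 δ
    refine ⟨z, ?_, fun i => ?_⟩
    · refine Pool.Agent.N555.RZ.mem_of_gauge hQ.conv hQ.comp hQ0 ?_
      exact (hPQ z).1.trans (Pool.Agent.N555.RZ.gauge_le_one hP.conv hP.comp hP0 hz)
    · have h3 : (if δ i then (1 : ℝ) else -1) * (C⁻¹ • φ i) z =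
          C⁻¹ * (Pool.Agent.N555.RZ.sg (δ i) * φ i z) := by
        show (if δ i then (1 : ℝ) else -1) * (C⁻¹ * φ i z) =
          C⁻¹ * ((if δ i then (1 : ℝ) else -1) * φ i z)
        ring
      rw [h3]
      calc c = C⁻¹ * (1 / (10 ^ 10 * C * ℓ ^ 2)) := by
            rw [hc]
            field_simp
        _ ≤ _ := by
            gcongr
            exact hz2 i)
  have h1 := hcot n x
  have h2 : Real.sqrt (sm (gauge Q) x) ≤ 13 * ℓ := by
    rw [Real.sqrt_le_iff]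
    exact ⟨by positivity, hx2⟩
  have h3 : (n : ℝ) ^ (1 / q) * c ≤ (∑ i, gauge Q (x i) ^ q) ^ (1 / q) := by
    have h4 : (n : ℝ) * c ^ q ≤ ∑ i, gauge Q (x i) ^ q := by
      calc (n : ℝ) * c ^ q = ∑ _i : Fin n, c ^ q := by simp
        _ ≤ ∑ i, gauge Q (x i) ^ q := by
            refine Finset.sum_le_sum fun i _ => ?_
            exact Real.rpow_le_rpow hc0.le (hx1 i) hq0.le
    calc (n : ℝ) ^ (1 / q) * c = ((n : ℝ) * c ^ q) ^ (1 / q) := by
          rw [Real.mul_rpow (Nat.cast_nonneg n) (by positivity), ← Real.rpow_mul hc0.le,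
            mul_one_div_cancel hq0.ne', Real.rpow_one]
      _ ≤ _ := Real.rpow_le_rpow (by positivity) h4 (by positivity)
  have h5 : (n : ℝ) ^ (1 / q) * c ≤ B * (13 * ℓ) :=
    (h3.trans h1).trans (by gcongr)
  have h6 : Y ≤ (n : ℝ) ^ (1 / q) := by
    calc Y = (Y ^ q) ^ (1 / q) := by
          rw [← Real.rpow_mul hY0.le, mul_one_div_cancel hq0.ne', Real.rpow_one]
      _ ≤ (n : ℝ) ^ (1 / q) := Real.rpow_le_rpow (by positivity) hnY (by positivity)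
  have h7 : Y * c = 100 * (B * ℓ) := by
    rw [hY, hc]
    field_simp
    norm_num
  have h8 : Y * c ≤ (n : ℝ) ^ (1 / q) * c := by gcongr
  have h9 : 0 < B * ℓ := by positivity
  nlinarith

end Pool.Agent.T2h52.SQ
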