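import Pool.Agent.T2h52.SQ.Stm

/-!
# Task NUM (adapted from `SP/NUM.lean`)
-/

set_option autoImplicit false

namespace Pool.Agent.T2h52.SQ

theorem num : U_NUM := by
  intro d q M C hd hq hM hC hX
  have hd' : (2 : ℝ) ≤ d := by exact_mod_cast hd
  set L := Real.log (d + 1) with hL
  have hL1 : 1 ≤ L := by
    rw [hL, Real.le_log_iff_exp_le (by positivity)]
    have := Real.exp_one_lt_d9
    linarith
  have hL3 : 1 ≤ L ^ 3 := one_le_pow₀ hL1
  have hC2 : 1 ≤ C ^ 2 := one_le_pow₀ hC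
  have hCC : C ≤ C ^ 2 := by nlinarith
  set X : ℝ := 10 ^ 13 * M * C ^ 2 * L ^ 3 with hXd
  have hMC : 1 ≤ M * C ^ 2 := by nlinarith
  have hX13 : (10 : ℝ) ^ 13 ≤ X := by
    rw [hXd, mul_assoc (10 ^ 13) M, mul_assoc]
    have h1 : 1 ≤ M * C ^ 2 * L ^ 3 := one_le_mul_of_one_le_of_one_le hMC hL3
    nlinarith
  have hX1 : (1 : ℝ) ≤ X := le_trans (by norm_num) hX13
  have hX0 : (0 : ℝ) < X := by linarith
  have h47 : (10 : ℝ) ^ 47 ≤ X ^ (47 / 13 : ℝ) := by
    calc (10 : ℝ) ^ 47 = ((10 : ℝ) ^ 13) ^ (47 / 13 : ℝ) := by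
          rw [← Real.rpow_natCast 10 13, ← Real.rpow_mul (by norm_num), ← Real.rpow_natCast 10 47]
          norm_num
      _ ≤ X ^ (47 / 13 : ℝ) := Real.rpow_le_rpow (by positivity) hX13 (by norm_num)
  have h280 : (10 : ℝ) ^ 280 ≤ X ^ (280 / 13 : ℝ) := by
    calc (10 : ℝ) ^ 280 = ((10 : ℝ) ^ 13) ^ (280 / 13 : ℝ) := by
          rw [← Real.rpow_natCast 10 13, ← Real.rpow_mul (by norm_num), ← Real.rpow_natCast 10 280]
          norm_num
      _ ≤ X ^ (280 / 13 : ℝ) := Real.rpow_le_rpow (by positivity) hX13 (by norm_num)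
  have hq2 : q ≤ (2 : ℝ) ^ q := by
    rw [Real.rpow_def_of_pos (by norm_num : (0 : ℝ) < 2)]
    have h1 := Real.log_two_gt_d9
    have h2 : 0 ≤ Real.log 2 * q := by positivity
    have h3 := Real.quadratic_le_exp_of_nonneg h2
    have h4 : 0.69 * q ≤ Real.log 2 * q := by
      apply mul_le_mul_of_nonneg_right _ (by linarith)
      linarith
    have h5 : (0.69 * q) ^ 2 ≤ (Real.log 2 * q) ^ 2 := by
      apply pow_le_pow_left₀ (by positivity) h4
    nlinarith [sq_nonneg (q - 1)]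
  have hqX : q ≤ X ^ (q / 43) := by
    refine hq2.trans ?_
    calc (2 : ℝ) ^ q = ((2 : ℝ) ^ (43 : ℕ)) ^ (q / 43) := by
          rw [← Real.rpow_natCast 2 43, ← Real.rpow_mul (by norm_num)]
          congr 1
          push_cast
          ring
      _ ≤ X ^ (q / 43) := by
          apply Real.rpow_le_rpow (by positivity) _ (by positivity)
          refine le_trans ?_ hX13
          norm_num
  have hqB : C * (2 * 10 ^ 5 * q * M) ≤ X ^ (1 + q / 43) := by
    rw [Real.rpow_add hX0, Real.rpow_one]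
    have h1 : 2 * 10 ^ 5 * M * C ≤ X := by
      rw [hXd]
      calc 2 * 10 ^ 5 * M * C ≤ 10 ^ 13 * M * C ^ 2 := by
            refine mul_le_mul ?_ hCC (by linarith) (by positivity)
            nlinarith
        _ ≤ 10 ^ 13 * M * C ^ 2 * L ^ 3 := le_mul_of_one_le_right (by positivity) hL3
    calc C * (2 * 10 ^ 5 * q * M) = (2 * 10 ^ 5 * M * C) * q := by ring
      _ ≤ X * X ^ (q / 43) := mul_le_mul h1 hqX (by linarith) hX0.le
  have hq0 : 0 < q := by linarith
  have hCX : C ≤ X ^ ((1 : ℝ) / 2) := by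
    rw [← Real.sqrt_eq_rpow]
    refine Real.le_sqrt_of_sq_le ?_
    rw [hXd]
    calc C ^ 2 = 1 * C ^ 2 * 1 := by ring
      _ ≤ (10 ^ 13 * M) * C ^ 2 * L ^ 3 := by
          refine mul_le_mul (mul_le_mul_of_nonneg_right ?_ (by positivity)) hL3 (by norm_num)
            (by positivity)
          nlinarith
  have hB0 : 0 ≤ C * (2 * 10 ^ 5 * q * M) := by positivity
  constructor
  · calc 10 ^ 280 * (C * (2 * 10 ^ 5 * q * M)) ^ 4 ≤
        X ^ (280 / 13 : ℝ) * (X ^ (1 + q / 43)) ^ 4 := by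
          gcongr
      _ = X ^ (280 / 13 + (1 + q / 43) * 4) := by
          rw [← Real.rpow_natCast (X ^ (1 + q / 43)) 4, ← Real.rpow_mul hX0.le,
            ← Real.rpow_add hX0]
          norm_num
      _ ≤ X ^ (120 * q) := Real.rpow_le_rpow_of_exponent_le hX1 (by linarith)
      _ ≤ d := hX
  · have h1 : (10 ^ 12 * (2 * M) * C ^ 2 * L ^ 3) ^ (11 * q) ≤ X ^ (11 * q) := by
      apply Real.rpow_le_rpow (by positivity) _ (by positivity)
      rw [hXd]
      have h2 : 0 ≤ M * C ^ 2 * L ^ 3 := by positivity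
      nlinarith
    have h2 : (C * (2 * 10 ^ 5 * q * M)) ^ ((1 : ℝ) / 2) ≤ X ^ ((1 + q / 43) * (1 / 2)) := by
      rw [Real.rpow_mul hX0.le]
      exact Real.rpow_le_rpow (by positivity) hqB (by norm_num)
    calc (10 ^ 12 * (2 * M) * C ^ 2 * L ^ 3) ^ (11 * q) *
          (10 ^ 47 * C * (C * (2 * 10 ^ 5 * q * M)) ^ ((1 : ℝ) / 2))
        ≤ X ^ (11 * q) * (X ^ (47 / 13 : ℝ) * X ^ ((1 : ℝ) / 2) *
            X ^ ((1 + q / 43) * (1 / 2))) := by
          refine mul_le_mul h1 (mul_le_mul (mul_le_mul h47 hCX (by linarith) (by positivity)) h2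
            (by positivity) (by positivity)) (by positivity) (by positivity)
      _ = X ^ (11 * q + (47 / 13 + 1 / 2 + (1 + q / 43) * (1 / 2))) := by
          rw [Real.rpow_add hX0, Real.rpow_add hX0, Real.rpow_add hX0]
      _ ≤ X ^ ((120 * q) * (1 / 8)) :=
          Real.rpow_le_rpow_of_exponent_le hX1 (by linarith)
      _ = (X ^ (120 * q)) ^ ((1 : ℝ) / 8) := Real.rpow_mul hX0.le _ _
      _ ≤ (d : ℝ) ^ ((1 : ℝ) / 8) := Real.rpow_le_rpow (by positivity) hX (by norm_num)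

end Pool.Agent.T2h52.SQ
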