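import Pool.Agent.T2h52.SP.Stm3

/-!
# The spread inequality for bodies which need not be symmetric: statements

Each `U_XXX : Prop` is proved in a file `Pool/Agent/T2h52/SQ/XXX.lean` as
`theorem xxx (hypotheses, other U_'s, T_'s or library theorems) : U_XXX`.

`P` is a convex body with the barycentre `0` and `-P ⊆ a P`. The case of symmetric bodies is in the
folder `SP`, the proofs of which can be adapted.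
-/

set_option autoImplicit false

namespace Pool.Agent.T2h52.SQ

open MeasureTheory Set Filter Topology
open scoped ENNReal InnerProductSpace Pointwise
open Pool.Agent.H888R2.KT (gs gc)
open Pool.Agent.R755.KF (zn aff sd PB PL3 PLH)
open Pool.Agent.N555.RZ (mP Spr)
open Pool.Agent.T2h52.SP

/-- convex bodies with barycentre `0` and `-P ⊆ a P` -/
structure Bn {d : ℕ} (P : Set (E d)) (a : ℝ) : Prop where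
  conv : Convex ℝ P
  comp : IsCompact P
  int : 0 ∈ interior P
  one : 1 ≤ a
  asym : ∀ x ∈ P, -(a⁻¹ • x) ∈ P
  bar : ∀ w : E d, ∫ z, ⟪z, w⟫_ℝ ∂(mP P) = 0

/-- the part `{x ∈ P | c ≤ ⟪x, e⟫}` -/
def hc {d : ℕ} (P : Set (E d)) (c : ℝ) (e : E d) : Set (E d) := {x | x ∈ P ∧ c ≤ ⟪x, e⟫_ℝ}

/-- the symmetric core `P ∩ -P` -/
def sc {d : ℕ} (P : Set (E d)) : Set (E d) := {x | x ∈ P ∧ -x ∈ P}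

/-- FM. First moments of linear functionals.
Proof. `E s⁴ ≤ 160⁴` for `s = ⟪z, w⟫`, `‖w‖ = 1` (`N555.RZ.mom_inner`, no symmetry needed) and
`|s| ≥ s²/b - s⁴/b³` with `b = 5 * 10⁴`. (See `Lgm.first_moment` in `SP/LGM.lean` for the symmetric
case.) -/
def U_FM : Prop := ∀ (d : ℕ) (P : Set (E d)) (a : ℝ), Bn P a → Iso P → ∀ w : E d,
  1 / 10 ^ 5 * ‖w‖ ≤ ∫ z, |⟪z, w⟫_ℝ| ∂(mP P)

/-- HAF. The part `{⟪x, e⟫ ≥ 2/10^6}` is not small.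
Proof. `s = ⟪x, e⟫`, `E s = 0`, so `E s_+ = E |s| / 2 ≥ 5/10^6` (`U_FM`);
`E s_+ ≤ 2/10^6 + E s 1_{s ≥ 2/10^6} ≤ 2/10^6 + (E s²)^{1/2} μ(s ≥ 2/10^6)^{1/2}`, so
`μ(s ≥ 2/10^6) ≥ (3/10^6)² ≥ 1/10^12`. -/
def U_HAF : Prop := ∀ (d : ℕ) (P : Set (E d)) (a : ℝ), Bn P a → Iso P → ∀ e : E d, ‖e‖ = 1 →
  ENNReal.ofReal (1 / 10 ^ 12) * volume P ≤ volume (hc P (2 / 10 ^ 6) e)

/-- LAW. The laws of `x - β`. Proof. See `SP/HB.lean`. -/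
def U_LAW : Prop := ∀ (d : ℕ) (A : Set (E d)), IsCompact A → 0 < volume A → ∀ β : E d,
  (∃ B : ℝ, 0 ≤ B ∧ PB B (la A β)) ∧
    ((∀ w : E d, ⟪β, w⟫_ℝ = ∫ x, ⟪x, w⟫_ℝ ∂(mP A)) → ∀ w : E d, ∫ x, ⟪x, w⟫_ℝ ∂(la A β) = 0)

/-- EXM. Exponential moments. Proof. See `SP/EXPM.lean`; now the density is at most `10^12`:
`(4 * 10^12)² ≤ 10^26`. (`N555.RZ.exp_one_side` does not need symmetry.) -/
def U_EXM : Prop := ∀ (d : ℕ) (P A : Set (E d)) (a : ℝ), Bn P a → Iso P → A ⊆ P →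
  MeasurableSet A → ENNReal.ofReal (1 / 10 ^ 12) * volume P ≤ volume A → ∀ β : E d,
  (∀ w : E d, ⟪β, w⟫_ℝ = ∫ x, ⟪x, w⟫_ℝ ∂(mP A)) → ∀ w : E d, ‖w‖ ≤ 1 →
  ∫ x, Real.exp (|⟪x, w⟫_ℝ| / 20) ∂(la A β) ≤ 10 ^ 26

/-- PLB. The Prékopa-Leindler hypothesis for two subsets of `P`.
Proof. See `SP/PLB.lean`; `PL3 (la A β) (la A' β') (image of mP P under x ↦ x - (β + β')/2)
(|P|²/(|A| |A'|))` by `R755.KF.L3aux.gen` with `φa = · - β`, `φb = · - β'`, `φc = · - (β + β')/2`. -/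
def U_PLB : Prop := ∀ (d : ℕ) (P A A' : Set (E d)), Convex ℝ P → IsCompact P → A ⊆ P → A' ⊆ P →
  IsCompact A → IsCompact A' → 0 < volume A → 0 < volume A' → ∀ (β β' : E d) (h : ℝ), 0 < h →
  PLH h ((volume P).toReal / Real.sqrt ((volume A).toReal * (volume A').toReal) - 1)
    (la A β) (la A' β')

/-- CHI. Chi-square estimate for two measures.
Proof. See `SP/CHI.lean`: `(∫ |F - F'|)² ≤ (∫ (F - F')² exp (‖y‖²/(2H))) gc` and the first factor is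
`gc (∬_{m,m} exp T + ∬_{m',m'} exp T - 2 ∬_{m,m'} exp T)`, `T = ⟪x, x'⟫/H`. -/
def U_CHI : Prop := ∀ (d : ℕ) (H R : ℝ) (m m' : Measure (E d)), 0 < H → IsFiniteMeasure m →
  IsFiniteMeasure m' → (∀ᵐ x ∂m, ‖x‖ ≤ R) → (∀ᵐ x ∂m', ‖x‖ ≤ R) →
  Integrable (fun y => (∫ x, Real.exp (-(‖x - y‖ ^ 2 / (2 * H))) ∂m) -
    ∫ x, Real.exp (-(‖x - y‖ ^ 2 / (2 * H))) ∂m') ∧
  (∫ y, |(∫ x, Real.exp (-(‖x - y‖ ^ 2 / (2 * H))) ∂m) -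
    ∫ x, Real.exp (-(‖x - y‖ ^ 2 / (2 * H))) ∂m'|) ^ 2 ≤
    gc (Fin d) H ^ 2 * ((∫ x, ∫ x', Real.exp (⟪x, x'⟫_ℝ / H) ∂m ∂m) +
      (∫ x, ∫ x', Real.exp (⟪x, x'⟫_ℝ / H) ∂m' ∂m') -
      2 * ∫ x, ∫ x', Real.exp (⟪x, x'⟫_ℝ / H) ∂m' ∂m)

/-- SNH. The bound for the right side of `U_CHI`.
Proof. See `SP/SNH.lean`. `A = A' = {‖x‖ ≤ R}`, `R² = 3200 M d`: `∫ ⟪x,w⟫² dν ≤ 800 M` for `‖w‖ ≤ 1`, so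
`ν(A) ≥ 3/4`, and `v = ∫_A x dν = -∫_{Aᶜ} x dν` has `‖v‖² ≤ 800 M ν(Aᶜ) ≤ 200 M`; similarly `ν'`, `v'`.
Write `exp T = 1 + T + (exp T - 1 - T)`, where the last part is `≥ 0`, so it can be dropped for the
mixed term. The expression is at most `(ν(A) - ν'(A'))² + ‖v - v'‖²/H + R₁ + R₂`,
`(ν(A) - ν'(A'))² ≤ 1/16`, `‖v - v'‖²/H ≤ 800 M/H ≤ 8/1000`. With `τ = 40 R/H ≤ 1`,
`u = ⟪x', x/R⟫/40`, `T = τ u`: `exp T - 1 - T ≤ T² exp |T| / 2 ≤ τ² u² exp |u| / 2 ≤ τ² exp (2|u|)`, so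
`R₁ ≤ τ² M ≤ 1/1000` (`τ ≤ 3/(100 √M)`). Sum `≤ 9/100`. -/
def U_SNH : Prop := ∀ (d : ℕ) (H M B : ℝ) (ν ν' : Measure (E d)), 1 ≤ d → 1 ≤ M →
  10 ^ 5 * M * Real.sqrt d ≤ H → PB B ν → PB B ν' → (∀ w : E d, ∫ x, ⟪x, w⟫_ℝ ∂ν = 0) →
  (∀ w : E d, ∫ x, ⟪x, w⟫_ℝ ∂ν' = 0) →
  (∀ w : E d, ‖w‖ ≤ 1 → ∫ x, Real.exp (|⟪x, w⟫_ℝ| / 20) ∂ν ≤ M) →
  (∀ w : E d, ‖w‖ ≤ 1 → ∫ x, Real.exp (|⟪x, w⟫_ℝ| / 20) ∂ν' ≤ M) →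
  ∃ A : Set (E d), MeasurableSet A ∧ 3 / 4 ≤ (ν A).toReal ∧ 3 / 4 ≤ (ν' A).toReal ∧
    (∫ x in A, ∫ x' in A, Real.exp (⟪x, x'⟫_ℝ / H) ∂ν ∂ν) +
      (∫ x in A, ∫ x' in A, Real.exp (⟪x, x'⟫_ℝ / H) ∂ν' ∂ν') -
      2 * (∫ x in A, ∫ x' in A, Real.exp (⟪x, x'⟫_ℝ / H) ∂ν' ∂ν) ≤ 9 / 100

/-- BIG. The affinity at large times.
Proof. See `SP/BIG.lean`: `∫ |F - F'| ≤ (3/10) gc`, `∫ F, ∫ F' ≥ (3/4) gc`, so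
`∫ min (F, F') ≥ (3/5) gc`. -/
def U_BIG : Prop := ∀ (d : ℕ) (H M B : ℝ) (ν ν' : Measure (E d)), 1 ≤ d → 1 ≤ M →
  10 ^ 5 * M * Real.sqrt d ≤ H → 0 ≤ B → PB B ν → PB B ν' → (∀ w : E d, ∫ x, ⟪x, w⟫_ℝ ∂ν = 0) →
  (∀ w : E d, ∫ x, ⟪x, w⟫_ℝ ∂ν' = 0) →
  (∀ w : E d, ‖w‖ ≤ 1 → ∫ x, Real.exp (|⟪x, w⟫_ℝ| / 20) ∂ν ≤ M) →
  (∀ w : E d, ‖w‖ ≤ 1 → ∫ x, Real.exp (|⟪x, w⟫_ℝ| / 20) ∂ν' ≤ M) → 1 / 4 ≤ aff H ν ν'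

/-- OVL. A translation with a large overlap, for two sets and a symmetric body `Q`.
Proof. The proof of `T_OVL` (see its docstring and `SP/OVL.lean`), with `-y` instead of `y`. -/
def U_OVL : Prop := ∀ (d : ℕ) (Q A A' : Set (E d)), 7 ≤ d → Bd Q → IsCompact A →
  IsCompact A' → 0 < volume A → 0 < volume A' → ∀ (β β' : E d) (h L ε : ℝ), 0 < h → 0 ≤ L →
  8 * L ≤ d → 0 < ε → Real.exp (-L) ≤ aff h (la A β) (la A' β') → ∀ S : Finset (E d),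
  (∀ z : E d, ‖z‖ ≤ 2 * Real.sqrt (h * d) → ∃ t ∈ S, gauge Q (z - t) ≤ ε) →
  ∃ x1 ∈ A, ∃ x2 ∈ A', ENNReal.ofReal (Real.exp (-(2 * L)) / (4 * (S.card : ℝ) ^ 2)) * volume A ≤
    volume {x | x ∈ A ∧ ∃ y ∈ A', gauge Q (x - y - (x1 - x2)) ≤ 4 * ε}

/-- GSY. The symmetric core.
Proof. `gauge (P ∩ -P) x = max (gauge P x) (gauge P (-x))`; the Gaussian measure is symmetric;
`gauge P (-x) ≤ a gauge P x`. -/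
def U_GSY : Prop := ∀ (d : ℕ) (P : Set (E d)) (a : ℝ), Bn P a → Bd (sc P) ∧
  gm (gauge (sc P)) ≤ 2 * gm (gauge P) ∧ (∀ x, gauge P x ≤ gauge (sc P) x) ∧
  (∀ x, gauge P (-x) ≤ gauge (sc P) x) ∧ ∀ x, gauge P (-x) ≤ a * gauge P x

/-- BM. Small translations. Proof. See `SP/BM.lean`; symmetry is not used. -/
def U_BM : Prop := ∀ (d : ℕ) (P : Set (E d)) (a : ℝ), Bn P a → ∀ (γ : E d) (r ε' : ℝ), 0 ≤ r →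
  0 ≤ ε' →
  ENNReal.ofReal (Real.exp (-r)) * volume P ≤ volume {x | x ∈ P ∧ gauge P (x - γ) ≤ 1 + ε'} →
  ∀ k : ℕ, volume {x | x ∈ P ∧ 1 + ε' * (1 / 2) ^ k < gauge P (x - (1 / 2 : ℝ) ^ k • γ)} ≤
    ENNReal.ofReal (r * (1 / 2) ^ k) * volume P

/-- WEA. Weak type estimate. Proof. See `SP/WEAK.lean`; symmetry is not used. -/
def U_WEA : Prop := ∀ (d : ℕ) (P : Set (E d)) (a : ℝ), 1 ≤ d → Bn P a →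
  ∀ (γ : E d) (r ε' : ℝ), 0 ≤ r → 0 ≤ ε' → (∀ k : ℕ, volume {x | x ∈ P ∧ 1 + ε' * (1 / 2) ^ k <
    gauge P (x - (1 / 2 : ℝ) ^ k • γ)} ≤ ENNReal.ofReal (r * (1 / 2) ^ k) * volume P) →
  ∀ t : ℝ, 0 < t → volume {x | x ∈ P ∧ ε' + t ≤ -(fderiv ℝ (gauge P) x γ)} ≤
    ENNReal.ofReal (8 / 5 * (r + 1) / (d * t)) * volume P

/-- REV. The opposite direction.
Proof. The map `x ↦ (1 + ε')⁻¹ (x - γ)` maps `{x ∈ P | gauge P (x - γ) ≤ 1 + ε'}` into the set on the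
right (`y = (x - γ)/(1 + ε') ∈ P`, `y + γ/(1 + ε') = x/(1 + ε') ∈ P`), and multiplies volumes by
`(1 + ε')^(-d) ≥ exp (-ε' d)`. -/
def U_REV : Prop := ∀ (d : ℕ) (P : Set (E d)) (a : ℝ), Bn P a → ∀ (γ : E d) (r ε' : ℝ), 0 ≤ r →
  0 ≤ ε' →
  ENNReal.ofReal (Real.exp (-r)) * volume P ≤ volume {x | x ∈ P ∧ gauge P (x - γ) ≤ 1 + ε'} →
  ENNReal.ofReal (Real.exp (-(r + ε' * d))) * volume P ≤
    volume {x | x ∈ P ∧ gauge P (x - (-((1 + ε')⁻¹ • γ))) ≤ 1 + 0}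

/-- SM. Second moment.
Proof. See `SP/SM.lean`. `φ(x) = g'(x) γ`, `|φ| ≤ 2a` (`TH591.Ns.fderiv_le_g` for `γ` and `-γ`). The
second hypothesis with `s = (1 + ε') t` gives `μ(φ ≥ s) ≤ (16/5)(r + 1 + ε'd)/(d s)` (as
`1 + ε' ≤ 2`), so `E (φ_+)² = ∫_0^{2a} 2s μ(φ ≥ s) ds ≤ (64/5) a ((r+1)/d + ε')`; the first one gives
`E (φ_-)² ≤ 2ε'² + 2 E ((φ_- - ε')_+)² ≤ 2ε'² + (64/5) a (r+1)/d`. -/
def U_SM : Prop := ∀ (d : ℕ) (P : Set (E d)) (a : ℝ), 1 ≤ d → Bn P a →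
  ∀ (γ : E d) (r ε' : ℝ), 0 ≤ r → 0 ≤ ε' → ε' ≤ 1 → gauge P γ ≤ 2 * a → gauge P (-γ) ≤ 2 * a →
  (∀ t : ℝ, 0 < t → volume {x | x ∈ P ∧ ε' + t ≤ -(fderiv ℝ (gauge P) x γ)} ≤
    ENNReal.ofReal (8 / 5 * (r + 1) / (d * t)) * volume P) →
  (∀ t : ℝ, 0 < t → volume {x | x ∈ P ∧ 0 + t ≤
      -(fderiv ℝ (gauge P) x (-((1 + ε')⁻¹ • γ)))} ≤
    ENNReal.ofReal (8 / 5 * (r + ε' * d + 1) / (d * t)) * volume P) →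
  ∫ z, (fderiv ℝ (gauge P) z γ) ^ 2 ∂(mP P) ≤
    2 * ε' ^ 2 + 128 / 5 * a * ((r + 1) / d + ε')

/-- EIG. The top eigenvector. Proof. See `SP/EIG.lean`. -/
def U_EIG : Prop := ∀ (d : ℕ) (P : Set (E d)) (a : ℝ), 1 ≤ d → Bn P a → ∃ (e : E d) (lam : ℝ),
  ‖e‖ = 1 ∧ 0 ≤ lam ∧
  (∀ w : E d, ∫ z, (fderiv ℝ (gauge P) z w) ^ 2 ∂(mP P) ≤ lam * ‖w‖ ^ 2) ∧
  ∀ w : E d, lam * ⟪w, e⟫_ℝ ^ 2 ≤ ∫ z, (fderiv ℝ (gauge P) z w) ^ 2 ∂(mP P)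

/-- LAM. The bound for the top eigenvalue with free parameters.
Proof. See `SP/LAM.lean`. `A = hc P c e`, `A' = hc P c (-e)`, `c = 2/10^6`, `β, β'` the barycentres;
`1 + η = |P|/√(|A||A'|) ≤ 10^12`, `H = 10^31 √d`, `M = 10^26`, `aff H ≥ 1/4`, so
`-log aff h ≤ (H/h)(log 10^12 + log 4) ≤ L = 30 * 10^31 √d/h`. `T_SUD` for `Q = sc P` and `2l`, with
`ρ = 2√(hd)`: `N ≤ 2 exp κ`, `κ = 128 l² h d/ε²`. `U_OVL` gives `γ = x1 - x2`, `⟪γ, e⟫ ≥ 4/10^6`,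
`gauge P (±γ) ≤ 1 + a ≤ 2a`, and
`{x ∈ A | ∃ y ∈ A', gauge Q (x - y - γ) ≤ 4ε} ⊆ {x ∈ P | gauge P (x - γ) ≤ 1 + 4ε}`. So the
hypotheses of `U_BM` and `U_REV` hold with `ε' = 4ε ≤ 1`, `r = 31 + 2L + 2κ`
(`exp 31 ≥ 16 * 10^12`). `U_WEA` twice and `U_SM`:
`λ (4/10^6)² ≤ λ ⟪γ, e⟫² ≤ 32 ε² + (128/5) a ((32 + 2L + 2κ)/d + 4ε)`, and `32 ε² ≤ 8 ε`. -/
def U_LAM : Prop := ∀ (d : ℕ) (P : Set (E d)) (a l h ε : ℝ), 7 ≤ d → Bn P a → Iso P → 0 < l →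
  gm (gauge P) ≤ l → 0 < h → h ≤ 10 ^ 31 * Real.sqrt d → 0 < ε → 4 * ε ≤ 1 →
  8 * (30 * 10 ^ 31 * Real.sqrt d / h) ≤ d →
  ∀ w : E d, ∫ z, (fderiv ℝ (gauge P) z w) ^ 2 ∂(mP P) ≤
    10 ^ 14 * a * (ε + (1 + 30 * 10 ^ 31 * Real.sqrt d / h +
      128 * l ^ 2 * h * d / ε ^ 2) / d) * ‖w‖ ^ 2

/-- SPR. **The spread inequality.**
Proof. `U_LAM` with `s = l^{1/2} d^{-1/8}` (`s⁸ = l⁴/d ≤ 10^(-280)`, `s ≤ 10^(-35)`), `ε = s`,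
`h = s³/l²`: `√d/h = d s` (as `l² = √d s⁴`), `l² h d/ε² = d s`. The bound is
`10^14 a (s + 1/d + 3 * 10^32 s + 128 s) ≤ 10^47 a s`. Then `N555.RZ.spr_of_iso`. -/
def U_SPR : Prop := ∀ (d : ℕ) (P : Set (E d)) (a l : ℝ), Bn P a → Iso P → 1 ≤ l →
  gm (gauge P) ≤ l → 10 ^ 280 * l ^ 4 ≤ (d : ℝ) →
  Spr P ((d : ℝ) ^ ((1 : ℝ) / 8) / (10 ^ 47 * a * l ^ ((1 : ℝ) / 2)))

/-- RAD. From sign patterns to vectors with small sign averages, for a symmetric body.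
Proof. This is the second half of the proof of `N555.RZ.mainB` (`Pool/Agent/N555/RZ/MainB.lean`), with
`c` instead of `1/(10^10 log (d+1)²)`. -/
def U_RAD : Prop := ∀ (d n : ℕ) (Q : Set (E d)) (c : ℝ), 2 ≤ d → 1 ≤ n → Bd Q → 0 < c →
  ∀ φ : Fin n → E d →L[ℝ] ℝ, (∀ i, ∀ x ∈ Q, φ i x ≤ 1) →
  (∀ δ : Fin n → Bool, ∃ z ∈ Q, ∀ i, c ≤ (if δ i then (1 : ℝ) else -1) * φ i z) →
  ∃ x : Fin n → E d, (∀ i, c ≤ gauge Q (x i)) ∧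
    sm (gauge Q) x ≤ (13 * Real.log (d + 1)) ^ 2

/-- MAI. Spread bodies close to a symmetric body of finite cotype are covered.
Proof. Let `L = log (d+1) ≥ 1`, `Y = 10^12 B C² L³`, `n = ⌈Y^q⌉`. `N555.RZ.mainA` with `a = C` (the
condition is `10^64 n⁴ C⁸ L^10 ≤ D`: `n⁴ ≤ 16 Y^{4q}`, `10^66 C⁸ L^10 ≤ Y^{13}`, `4q + 13 ≤ 11q`): else
there are `φ_i ≤ 1` on `P` with all sign patterns at the level `1/(10^10 C L²)` in `P ⊆ Q`. As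
`Q ⊆ C P` and `-Q = Q`, the functionals `φ_i/C` are at most `1` on `Q`. `U_RAD` with
`c = 1/(10^10 C² L²)` and the cotype of `gauge Q`: `n^{1/q} c ≤ (Σ gauge Q (x_i)^q)^{1/q} ≤ 13 B L`, so
`Y ≤ n^{1/q} ≤ 13 * 10^10 B C² L³ < Y`, a contradiction. -/
def U_MAI : Prop := ∀ (d : ℕ) (P Q : Set (E d)) (C q B D : ℝ), 2 ≤ d → Bn P C → Bd Q →
  (∀ u, gauge Q u ≤ gauge P u ∧ gauge P u ≤ C * gauge Q u) → Spr P D → 2 ≤ q → 1 ≤ B →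
  (∀ (m : ℕ) (x : Fin m → E d), (∑ i, gauge Q (x i) ^ q) ^ (1 / q) ≤
    B * Real.sqrt (sm (gauge Q) x)) →
  (10 ^ 12 * B * C ^ 2 * Real.log (d + 1) ^ 3) ^ (11 * q) ≤ D →
  ∃ T : Finset (E d), P ⊆ ⋃ t ∈ T, (fun x => t + x) '' interior P ∧ T.card < 2 ^ d

/-- IMG. Linear images.
Proof. `gauge (A '' P) (A u) = gauge P u` (`N555.RZ.gauge_img`), `N555.RZ.mP_map`, linearity. -/
def U_IMG : Prop := ∀ (d : ℕ) (P Q : Set (E d)) (A : E d ≃ₗ[ℝ] E d) (C : ℝ), Bn P C → Bd Q →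
  (∀ u, gauge Q u ≤ gauge P u ∧ gauge P u ≤ C * gauge Q u) →
  Bn (A '' P) C ∧ Bd (A '' Q) ∧
    ∀ u, gauge (A '' Q) u ≤ gauge (A '' P) u ∧ gauge (A '' P) u ≤ C * gauge (A '' Q) u

/-- CRT. The criterion.
Proof. `U_IMG`, `gm (gauge (A '' P)) ≤ C gm (gauge (A '' Q)) ≤ C l`, `U_SPR` for `A '' P` with `C l`,
`N555.RZ.spr_of_img`, `U_MAI`. -/
def U_CRT : Prop := ∀ (d : ℕ) (P Q : Set (E d)) (A : E d ≃ₗ[ℝ] E d) (C l q B : ℝ), 2 ≤ d →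
  Bn P C → Bd Q → (∀ u, gauge Q u ≤ gauge P u ∧ gauge P u ≤ C * gauge Q u) → Iso (A '' P) →
  gm (gauge (A '' Q)) ≤ l → 1 ≤ l → 10 ^ 280 * (C * l) ^ 4 ≤ (d : ℝ) → 2 ≤ q → 1 ≤ B →
  (∀ (m : ℕ) (x : Fin m → E d), (∑ i, gauge Q (x i) ^ q) ^ (1 / q) ≤
    B * Real.sqrt (sm (gauge Q) x)) →
  (10 ^ 12 * B * C ^ 2 * Real.log (d + 1) ^ 3) ^ (11 * q) *
    (10 ^ 47 * C * (C * l) ^ ((1 : ℝ) / 2)) ≤ (d : ℝ) ^ ((1 : ℝ) / 8) →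
  ∃ T : Finset (E d), P ⊆ ⋃ t ∈ T, (fun x => t + x) '' interior P ∧ T.card < 2 ^ d

/-- ZGM. Gaussian mean, zonoids. Proof. See `SP/ZGM.lean`: `1 ≥ E_P gauge P ≥ E_P gauge Q
= ∫ E_P |⟪u, x⟫| dμ ≥ 10^(-5) ∫ ‖x‖ dμ` (`U_FM`). (`ZC 1` means that `gauge Q` has the form `ZN`.) -/
def U_ZGM : Prop := ∀ (d : ℕ) (P Q : Set (E d)) (a : ℝ), Bn P a → Iso P → Bd Q →
  (∀ u, gauge Q u ≤ gauge P u) → ZC 1 (gauge Q) → gm (gauge Q) ≤ 10 ^ 5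

/-- LGM. Gaussian mean, lattices. Proof. See `SP/LGM.lean` and `U_FM`. -/
def U_LGM : Prop := ∀ (d : ℕ) (P Q : Set (E d)) (a q M : ℝ), 2 ≤ q → 1 ≤ M → Bn P a → Iso P →
  Bd Q → (∀ u, gauge Q u ≤ gauge P u) → LC q M 1 (gauge Q) → gm (gauge Q) ≤ 2 * 10 ^ 5 * q * M

/-- SMP. Sampling. Proof. See `SP/SMP.lean` (and `SP/PZD.lean`); symmetry is not used. -/
def U_SMP : Prop := ∀ (d : ℕ) (P : Set (E d)) (a : ℝ), 2 ≤ d → Bn P a → Iso P →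
  ∃ (N : ℕ) (x : Fin N → E d),
  1 ≤ N ∧ (N : ℝ) ≤ 2 * 10 ^ 12 * (d * Real.log (d + 1)) ∧ (∀ i, x i ∈ P) ∧
  ∀ w : E d, 8 / 10 ^ 10 / 32 * N * ‖w‖ ^ 2 ≤ ∑ i, ⟪x i, w⟫_ℝ ^ 2

/-- TGM. Gaussian mean, type `p`. Proof. See `SP/TGM.lean`: `U_SMP` for `P` (the points are in
`P ⊆ Q`), `T_GMO` and `T_TYG` for `Q`. -/
def U_TGM : Prop := ∀ (d : ℕ) (P Q : Set (E d)) (a p T : ℝ), 2 ≤ d → Bn P a → Iso P → Bd Q →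
  (∀ u, gauge Q u ≤ gauge P u) → 4 / 3 ≤ p → p ≤ 2 → 1 ≤ T → TY p T (gauge Q) →
  gm (gauge Q) ≤ 3 * 10 ^ 8 * T * (d * Real.log (d + 1)) ^ (1 / p - 1 / 2)

/-- NUM. Numbers.
Proof. `L = log (d+1) ≥ 1`, `X = 10^13 M C² L³ ≥ 10^13`, `X^(120 q) ≤ d`.
`(10^12 * 2M * C² L³)^{11q} ≤ X^{11q}`, `10^47 ≤ X^{47/13}`, `C ≤ X^{1/2}`, `q ≤ 2^q ≤ X^{q/43}`, so the
left side of the second claim is at most `X^{11q + 47/13 + 1/2 + 1/2 + q/86} ≤ X^{15q} ≤ d^{1/8}`, and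
`10^280 (2 * 10^5 q M C)⁴ ≤ X^{280/13 + 4 + 4q/43} ≤ X^{120q}`. -/
def U_NUM : Prop := ∀ (d : ℕ) (q M C : ℝ), 2 ≤ d → 2 ≤ q → 1 ≤ M → 1 ≤ C →
  (10 ^ 13 * M * C ^ 2 * Real.log (d + 1) ^ 3) ^ (120 * q) ≤ d →
  10 ^ 280 * (C * (2 * 10 ^ 5 * q * M)) ^ 4 ≤ d ∧
  (10 ^ 12 * (2 * M) * C ^ 2 * Real.log (d + 1) ^ 3) ^ (11 * q) *
    (10 ^ 47 * C * (C * (2 * 10 ^ 5 * q * M)) ^ ((1 : ℝ) / 2)) ≤ (d : ℝ) ^ ((1 : ℝ) / 8)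

/-- TNU. Numbers for type `p`.
Proof. `X = 10^13 T B C² L³`, `κ = 3 - 4/p ∈ (0, 1]`, `X^(120 q) ≤ d^κ`,
`l = 3 * 10^8 T (dL)^{1/p - 1/2}`, `1/p - 1/2 = (1 - κ)/4`. `l⁴ = 81 * 10^32 T⁴ (dL)^{1-κ}`; the first
claim follows from `10^314 C⁴ T⁴ L ≤ X^{31} ≤ d^κ`. `l^{1/2} ≤ 2 * 10^4 T^{1/2} L^{1/8} d^{(1-κ)/8}`; the
second follows from `(10^12 B C² L³)^{11q} 10^52 C^{3/2} T^{1/2} L^{1/8} ≤ X^{11q + 4 + 3/4 + 1/2 + 1}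
≤ X^{15q} ≤ d^{κ/8}`. -/
def U_TNU : Prop := ∀ (d : ℕ) (p q T B C : ℝ), 2 ≤ d → 4 / 3 < p → p ≤ 2 → 2 ≤ q → 1 ≤ T →
  1 ≤ B → 1 ≤ C →
  (10 ^ 13 * T * B * C ^ 2 * Real.log (d + 1) ^ 3) ^ (120 * q) ≤ (d : ℝ) ^ (3 - 4 / p) →
  1 ≤ 3 * 10 ^ 8 * T * (d * Real.log (d + 1)) ^ (1 / p - 1 / 2) ∧
  10 ^ 280 * (C * (3 * 10 ^ 8 * T * (d * Real.log (d + 1)) ^ (1 / p - 1 / 2))) ^ 4 ≤ d ∧
  (10 ^ 12 * B * C ^ 2 * Real.log (d + 1) ^ 3) ^ (11 * q) *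
    (10 ^ 47 * C * (C * (3 * 10 ^ 8 * T * (d * Real.log (d + 1)) ^ (1 / p - 1 / 2))) ^
      ((1 : ℝ) / 2)) ≤ (d : ℝ) ^ ((1 : ℝ) / 8)

/-- POL. The polar body and the unit ball of `n`.
Proof. See `SP/LPO.lean`. `P = polarAt K o`, `H(u) = max_K ⟪u, y - o⟫ = gauge P u`, `n ≤ H ≤ C n`. `n` is a
norm (`n u ≥ H(u)/C > 0`), `Q = {n ≤ 1}` is a symmetric convex body and `gauge Q = n`.
`-P ⊆ -Q = Q ⊆ C P`. The last conjunct of `Bn` is the hypothesis on the barycentre. -/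
def U_POL : Prop := ∀ (d : ℕ) (C : ℝ) (K : Set (E d)) (o : E d) (n : E d → ℝ), IsCompact K →
  Convex ℝ K → o ∈ interior K → 1 ≤ C → (∀ u v, n (u + v) ≤ n u + n v) →
  (∀ (c : ℝ) u, n (c • u) = |c| * n u) →
  (∀ u : E d, ∃ y ∈ K, n u ≤ ⟪u, y - o⟫_ℝ) → (∀ u : E d, ∀ y ∈ K, ⟪u, y - o⟫_ℝ ≤ C * n u) →
  (∀ w : E d, ∫ z, ⟪z, w⟫_ℝ ∂(mP (Pool.Agent.TH591.Lie.polarAt K o)) = 0) →
  Bn (Pool.Agent.TH591.Lie.polarAt K o) C ∧ Bd {u : E d | n u ≤ 1} ∧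
    (∀ u, gauge {u : E d | n u ≤ 1} u = n u) ∧
    ∀ u, n u ≤ gauge (Pool.Agent.TH591.Lie.polarAt K o) u ∧
      gauge (Pool.Agent.TH591.Lie.polarAt K o) u ≤ C * n u

end Pool.Agent.T2h52.SQ
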