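import Pool.Agent.T2h52.SP.OVL
import Pool.Agent.T2h52.SQ.Stm

set_option autoImplicit false

namespace Pool.Agent.T2h52.SQ

open MeasureTheory Set Filter Topology
open scoped ENNReal InnerProductSpace Pointwise
open Pool.Agent.H888R2.KT (gs gc)
open Pool.Agent.R755.KF (zn aff sd PB PL3 PLH S_ZN)
open Pool.Agent.N555.RZ (mP Spr)
open Pool.Agent.T2h52.SP
open Pool.Agent.T2h52.SP.OVLx

namespace OVLx

variable {d : ℕ}

lemma piece {P : Set (E d)} (hP : Bd P) {A A' : Set (E d)} {m m' : Measure (E d)}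
    [IsProbabilityMeasure m] (hmA : ∀ᵐ x ∂m, x ∈ A)
    (hmA' : ∀ᵐ x ∂m', x ∈ A') {h ε : ℝ} (β β' t t' : E d) {V : Set (E d)}
    (hVm : MeasurableSet V)
    (hV : ∀ x ∈ A, ∀ x' ∈ A', gauge P (x - x' - (β - β' + t' - t)) ≤ 2 * ε → x ∈ V) :
    ∫⁻ y, min (∫⁻ x, Dt P h ε t (x - β - y) ∂m) (∫⁻ x, Dt P h ε t' (x - β' - y) ∂m') ≤
      m V * ∫⁻ u : E d, kap h u := by
  rw [← ton m (kap_meas h) (s := fun x => x - β) (measurable_id.sub_const β) hVm]
  refine lintegral_mono fun y => ?_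
  by_cases h0 : ∫⁻ x, Dt P h ε t' (x - β' - y) ∂m' = 0
  · rw [h0, min_eq_right zero_le]
    exact zero_le
  · obtain ⟨x', hx', hg'⟩ : ∃ x' ∈ A', gauge P (-(x' - β' - y) - t') ≤ ε := by
      by_contra hcon
      push Not at hcon
      apply h0
      rw [← lintegral_zero (μ := m')]
      refine lintegral_congr_ae ?_
      filter_upwards [hmA'] with x hx
      exact Set.indicator_of_notMem (s := {u : E d | gauge P (-u - t') ≤ ε})
        (not_le.mpr (hcon x hx)) _
    refine (min_le_left _ _).trans (lintegral_mono_ae ?_)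
    filter_upwards [hmA] with x hx
    by_cases hg : gauge P (-(x - β - y) - t) ≤ ε
    · have hxV : x ∈ V := by
        refine hV x hx x' hx' ?_
        have e : x - x' - (β - β' + t' - t) = (-(x' - β' - y) - t') + -(-(x - β - y) - t) := by
          abel
        rw [e]
        refine (gauge_add_le hP.conv (absorbent_nhds_zero
          (mem_interior_iff_mem_nhds.mp hP.int)) _ _).trans ?_
        rw [gauge_neg hP.sym]
        linarith
      rw [Set.indicator_of_mem hxV]
      simp only [Pi.one_apply, one_mul]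
      exact Set.indicator_le_self _ _ _
    · have h1 : Dt P h ε t (x - β - y) = 0 :=
        Set.indicator_of_notMem (s := {u : E d | gauge P (-u - t) ≤ ε}) hg _
      rw [h1]
      exact zero_le

end OVLx

open OVLx in
theorem ovl (hz : S_ZN) (hT : T_TAIL) (hB : U_LAW) : U_OVL := by
  intro d P A A' hd hP hAk hAk' hA0 hA0' β β' h L ε hh hL hLd hε haff S hS
  obtain ⟨⟨Ba, hBa0, hBa⟩, -⟩ := hB d A hAk hA0 β
  obtain ⟨⟨Bb, hBb0, hBb⟩, -⟩ := hB d A' hAk' hA0' β'
  by_contra hcon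
  push Not at hcon
  set B : ℝ := max Ba Bb with hBdef
  have hB0 : 0 ≤ B := hBa0.trans (le_max_left _ _)
  have hBa : PB B (la A β) := ⟨hBa.prob, by
    filter_upwards [hBa.bdd] with x hx
    exact hx.trans (le_max_left _ _)⟩
  have hBb : PB B (la A' β') := ⟨hBb.prob, by
    filter_upwards [hBb.bdd] with x hx
    exact hx.trans (le_max_right _ _)⟩
  have hg : 0 < gc (Fin d) h := gc_pos hz hh hB0 hBa
  have hAfin : volume A ≠ ⊤ := hAk.measure_lt_top.ne
  have hprob : IsProbabilityMeasure (mP A) := Pool.Agent.N555.RZ.mP_prob hA0.ne' hAfin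
  have hAm : MeasurableSet A := hAk.isClosed.measurableSet
  have hmA : ∀ᵐ x ∂(mP A), x ∈ A := by
    unfold mP
    exact Measure.ae_smul_measure (ae_restrict_mem hAm) _
  have hAfin' : volume A' ≠ ⊤ := hAk'.measure_lt_top.ne
  have hprob' : IsProbabilityMeasure (mP A') := Pool.Agent.N555.RZ.mP_prob hA0'.ne' hAfin'
  have hAm' : MeasurableSet A' := hAk'.isClosed.measurableSet
  have hmA' : ∀ᵐ x ∂(mP A'), x ∈ A' := by
    unfold mP
    exact Measure.ae_smul_measure (ae_restrict_mem hAm') _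
  have hgau : Continuous (gauge P) := continuous_gauge hP.conv (mem_interior_iff_mem_nhds.mp hP.int)
  have hab : Absorbent ℝ P := absorbent_nhds_zero (mem_interior_iff_mem_nhds.mp hP.int)
  have hsa : Measurable fun x : E d => x - β := measurable_id.sub_const β
  have hsb : Measurable fun x : E d => x - β' := measurable_id.sub_const β'
  obtain ⟨t₀, ht₀, -⟩ := hS 0 (by rw [norm_zero]; positivity)
  have hN : (1 : ℝ) ≤ S.card := by
    exact_mod_cast Finset.card_pos.mpr ⟨t₀, ht₀⟩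
  set q : ℝ := Real.exp (-(2 * L)) / (4 * (S.card : ℝ) ^ 2) with hq
  have hq0 : 0 < q := by positivity
  set ρ : ℝ := 2 * Real.sqrt (h * d) with hρ
  -- the pieces
  have h4 : ∀ t t' : E d, ∫⁻ y, min (∫⁻ x, Dt P h ε t (x - β - y) ∂(mP A))
      (∫⁻ x, Dt P h ε t' (x - β' - y) ∂(mP A')) ≤ ENNReal.ofReal (q * gc (Fin d) h) := by
    intro t t'
    by_cases hex : ∃ x1 ∈ A, ∃ x2 ∈ A', gauge P (x1 - x2 - (β - β' + t' - t)) ≤ 2 * ε
    · obtain ⟨x1, hx1, x2, hx2, hx⟩ := hex
      set V : Set (E d) := {x | x ∈ A ∧ ∃ y ∈ A', gauge P (x - y - (x1 - x2)) ≤ 4 * ε} with hV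
      have hVc : IsCompact V := by
        have h1 : V = Prod.fst '' ((A ×ˢ A') ∩
            {p : E d × E d | gauge P (p.1 - p.2 - (x1 - x2)) ≤ 4 * ε}) := by
          ext x
          constructor
          · rintro ⟨hx, y, hy, hxy⟩
            exact ⟨(x, y), ⟨⟨hx, hy⟩, hxy⟩, rfl⟩
          · rintro ⟨⟨x', y⟩, ⟨⟨hx, hy⟩, hxy⟩, rfl⟩
            exact ⟨hx, y, hy, hxy⟩
        rw [h1]
        refine ((hAk.prod hAk').inter_right ?_).image continuous_fst
        exact isClosed_le (hgau.comp ((continuous_fst.sub continuous_snd).sub continuous_const))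
          continuous_const
      have hVm : MeasurableSet V := hVc.isClosed.measurableSet
      have hVA : V ⊆ A := fun x hx => hx.1
      refine (piece hP hmA hmA' β β' t t' hVm ?_).trans ?_
      · intro x hx' x' hx'' hgx
        refine ⟨hx', x', hx'', ?_⟩
        have e : x - x' - (x1 - x2) = (x - x' - (β - β' + t' - t)) +
            -(x1 - x2 - (β - β' + t' - t)) := by abel
        rw [e]
        refine (gauge_add_le hP.conv hab _ _).trans ?_
        rw [gauge_neg hP.sym]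
        linarith
      · rw [kap_int hg]
        have h1 : mP A V ≤ ENNReal.ofReal q := by
          unfold mP
          rw [Measure.smul_apply, Measure.restrict_apply hVm, Set.inter_eq_left.mpr hVA,
            smul_eq_mul]
          calc (volume A)⁻¹ * volume V ≤ (volume A)⁻¹ * (ENNReal.ofReal q * volume A) := by
                gcongr
                exact (hcon x1 hx1 x2 hx2).le
            _ = ENNReal.ofReal q := by
                rw [mul_comm (ENNReal.ofReal q), ← mul_assoc, ENNReal.inv_mul_cancel hA0.ne' hAfin,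
                  one_mul]
        rw [ENNReal.ofReal_mul hq0.le]
        gcongr
    · push Not at hex
      refine (piece hP hmA hmA' β β' t t' MeasurableSet.empty ?_).trans ?_
      · intro x hx x' hx' hle
        exact absurd hle (not_le.mpr (hex x hx x' hx'))
      · simp
  -- the sum
  have hA : ∀ y, ENNReal.ofReal (zn h (la A β) y) ≤
      ∑ t ∈ S, (∫⁻ x, Dt P h ε t (x - β - y) ∂(mP A)) + ∫⁻ x, Ot h ρ (x - β - y) ∂(mP A) :=
    fun y => zn_le hh hsa hBa hP hS y
  have hBz : ∀ y, ENNReal.ofReal (zn h (la A' β') y) ≤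
      ∑ t ∈ S, (∫⁻ x, Dt P h ε t (x - β' - y) ∂(mP A')) + ∫⁻ x, Ot h ρ (x - β' - y) ∂(mP A') :=
    fun y => zn_le hh hsb hBb hP hS y
  have hpt : ∀ y, min (ENNReal.ofReal (zn h (la A β) y)) (ENNReal.ofReal (zn h (la A' β') y)) ≤
      (∑ t ∈ S, ∑ t' ∈ S, min (∫⁻ x, Dt P h ε t (x - β - y) ∂(mP A))
        (∫⁻ x, Dt P h ε t' (x - β' - y) ∂(mP A'))) +
      ((∫⁻ x, Ot h ρ (x - β - y) ∂(mP A)) + ∫⁻ x, Ot h ρ (x - β' - y) ∂(mP A')) := fun y =>
    (min_le_min (hA y) (hBz y)).trans ((min_out _ _ _ _).trans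
      (add_le_add (min_sum_sum S _ _) le_rfl))
  have hmD : ∀ (m : Measure (E d)) [SFinite m] (t : E d) (s : E d → E d), Measurable s →
      Measurable fun y => ∫⁻ x, Dt P h ε t (s x - y) ∂m := by
    intro m _ t s hs
    refine Measurable.lintegral_prod_right' (f := fun p : E d × E d => Dt P h ε t (s p.2 - p.1)) ?_
    exact (Dt_meas hP h ε t).comp ((hs.comp measurable_snd).sub measurable_fst)
  have hmO : ∀ (m : Measure (E d)) [SFinite m] (s : E d → E d), Measurable s →
      Measurable fun y => ∫⁻ x, Ot h ρ (s x - y) ∂m := by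
    intro m _ s hs
    refine Measurable.lintegral_prod_right' (f := fun p : E d × E d => Ot h ρ (s p.2 - p.1)) ?_
    exact (Ot_meas h ρ).comp ((hs.comp measurable_snd).sub measurable_fst)
  have hsum := (overlap hz hh hB0 hBa hBb haff).trans (lintegral_mono hpt)
  have hOb : Measurable fun y => ∫⁻ x, Ot h ρ (x - β' - y) ∂(mP A') := hmO (mP A') _ hsb
  have hOO : Measurable fun y => (∫⁻ x, Ot h ρ (x - β - y) ∂(mP A)) +
      ∫⁻ x, Ot h ρ (x - β' - y) ∂(mP A') := (hmO (mP A) _ hsa).add (hmO (mP A') _ hsb)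
  have ta : ∫⁻ y, ∫⁻ x, Ot h ρ (x - β - y) ∂(mP A) = ∫⁻ u : E d, Ot h ρ u :=
    ton' (mP A) (Ot_meas h ρ) hsa
  have tb : ∫⁻ y, ∫⁻ x, Ot h ρ (x - β' - y) ∂(mP A') = ∫⁻ u : E d, Ot h ρ u :=
    ton' (mP A') (Ot_meas h ρ) hsb
  rw [lintegral_add_right _ hOO, lintegral_add_right _ hOb, ta, tb] at hsum
  have hsum2 : ∫⁻ y, ∑ t ∈ S, ∑ t' ∈ S, min (∫⁻ x, Dt P h ε t (x - β - y) ∂(mP A))
        (∫⁻ x, Dt P h ε t' (x - β' - y) ∂(mP A')) ≤
      ENNReal.ofReal ((S.card : ℝ) ^ 2 * (q * gc (Fin d) h)) := by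
    rw [lintegral_finsetSum (f := fun t y => ∑ t' ∈ S, min (∫⁻ x, Dt P h ε t (x - β - y) ∂(mP A))
        (∫⁻ x, Dt P h ε t' (x - β' - y) ∂(mP A'))) _ fun t _ =>
        Finset.measurable_fun_sum _ fun t' _ => (hmD (mP A) t _ hsa).min (hmD (mP A') t' _ hsb)]
    have h5 : ∀ t ∈ S, ∫⁻ y, ∑ t' ∈ S, min (∫⁻ x, Dt P h ε t (x - β - y) ∂(mP A))
        (∫⁻ x, Dt P h ε t' (x - β' - y) ∂(mP A')) ≤ S.card • ENNReal.ofReal (q * gc (Fin d) h) := by
      intro t _
      rw [lintegral_finsetSum (f := fun t' y => min (∫⁻ x, Dt P h ε t (x - β - y) ∂(mP A))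
        (∫⁻ x, Dt P h ε t' (x - β' - y) ∂(mP A'))) _ fun t' _ => (hmD (mP A) t _ hsa).min (hmD (mP A') t' _ hsb)]
      exact Finset.sum_le_card_nsmul _ _ _ fun t' _ => h4 t t'
    refine (Finset.sum_le_card_nsmul _ _ _ h5).trans (le_of_eq ?_)
    have hc : (S.card : ℝ≥0∞) = ENNReal.ofReal (S.card : ℝ) := (ENNReal.ofReal_natCast _).symm
    rw [nsmul_eq_mul, nsmul_eq_mul, ← mul_assoc, hc, ← ENNReal.ofReal_mul (by positivity),
      ← ENNReal.ofReal_mul (by positivity), sq]
  have hout := out_int hT hh hg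
  have hfin : ENNReal.ofReal (gc (Fin d) h * (Real.exp (-(2 * L)) / 2)) ≤
      ENNReal.ofReal ((S.card : ℝ) ^ 2 * (q * gc (Fin d) h) +
        (Real.exp (-(13 / 20 * d)) * gc (Fin d) h + Real.exp (-(13 / 20 * d)) * gc (Fin d) h)) := by
    rw [ENNReal.ofReal_add (by positivity) (by positivity),
      ENNReal.ofReal_add (by positivity) (by positivity)]
    exact hsum.trans (add_le_add hsum2 (add_le_add hout hout))
  rw [ENNReal.ofReal_le_ofReal_iff (by positivity)] at hfin
  have e1 : (S.card : ℝ) ^ 2 * (q * gc (Fin d) h) = gc (Fin d) h * (Real.exp (-(2 * L)) / 4) := by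
    rw [hq]
    field_simp
  rw [e1] at hfin
  have hfin2 : Real.exp (-(2 * L)) ≤ 8 * Real.exp (-(13 / 20 * d)) := by
    by_contra hlt
    push Not at hlt
    nlinarith
  have hdr : (7 : ℝ) ≤ d := by exact_mod_cast hd
  have h6 : Real.exp (-(1 / 4 * d)) ≤ Real.exp (-(2 * L)) := Real.exp_le_exp.mpr (by linarith)
  have h7 : Real.exp (2 / 5 * d) ≤ 8 := by
    have h8 : Real.exp (-(1 / 4 * d)) = Real.exp (2 / 5 * d) * Real.exp (-(13 / 20 * d)) := by
      rw [← Real.exp_add]
      congr 1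
      ring
    have h9 := Real.exp_pos (-(13 / 20 * (d : ℝ)))
    have h10 := h6.trans hfin2
    rw [h8] at h10
    exact le_of_mul_le_mul_right h10 h9
  have h8 : Real.exp 1 * Real.exp 1 * (1 + 4 / 5) ≤ Real.exp (2 / 5 * d) := by
    have h9 : (1 : ℝ) + 4 / 5 ≤ Real.exp (4 / 5) := by
      have := Real.add_one_le_exp (4 / 5 : ℝ)
      linarith
    calc Real.exp 1 * Real.exp 1 * (1 + 4 / 5) ≤ Real.exp 1 * Real.exp 1 * Real.exp (4 / 5) := by
          gcongr
      _ = Real.exp (14 / 5) := by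
          rw [← Real.exp_add, ← Real.exp_add]
          congr 1
          norm_num
      _ ≤ Real.exp (2 / 5 * d) := Real.exp_le_exp.mpr (by linarith)
  have h9 := Real.exp_one_gt_d9
  nlinarith

end Pool.Agent.T2h52.SQ
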