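import Pool.Agent.T2h52.SQ.Stm
import Pool.Agent.T2h52.SP.PLB

/-!
# PLB: the Prékopa-Leindler hypothesis for the laws of two centred convex subsets
-/

set_option autoImplicit false

namespace Pool.Agent.T2h52.SQ

open MeasureTheory Set Filter Topology
open scoped ENNReal InnerProductSpace Pointwise
open Pool.Agent.H888R2.KT (gs gc)
open Pool.Agent.R755.KF (zn aff sd PB PL3 PLH S_ZN)
open Pool.Agent.R754.KG (un)
open Pool.Agent.N555.RZ (mP)
open Pool.Agent.T2h52.SP

/-- PLB -/
theorem plb (h2 : S_ZN) : U_PLB := by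
  intro d P A A' hP hPk hAP hAP' hAk hAk' hA0 hA0' β β' h hh
  have hP0 : 0 < volume P := lt_of_lt_of_le hA0 (measure_mono hAP)
  have hPt : volume P ≠ ⊤ := hPk.measure_lt_top.ne
  have hAt : volume A ≠ ⊤ := hAk.measure_lt_top.ne
  have hAt' : volume A' ≠ ⊤ := hAk'.measure_lt_top.ne
  have vA : 0 < (volume A).toReal := ENNReal.toReal_pos hA0.ne' hAt
  have vA' : 0 < (volume A').toReal := ENNReal.toReal_pos hA0'.ne' hAt'
  have vP : 0 < (volume P).toReal := ENNReal.toReal_pos hP0.ne' hPt
  have hle : (volume A).toReal ≤ (volume P).toReal :=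
    ENNReal.toReal_mono hPt (measure_mono hAP)
  have hle' : (volume A').toReal ≤ (volume P).toReal :=
    ENNReal.toReal_mono hPt (measure_mono hAP')
  have hPL : PL3 (la A β) (la A' β') ((mP P).map fun x => x - (1 / 2 : ℝ) • (β + β'))
      ((volume P).toReal ^ 2 / ((volume A).toReal * (volume A').toReal)) :=
    Pool.Agent.R755.KF.L3aux.gen A A' P (fun x : E d => x - β) (fun y => y - β')
      (fun x => x - (1 / 2 : ℝ) • (β + β')) hAk.measurableSet hAk'.measurableSet hPk.measurableSet
      (by fun_prop) (by fun_prop) (by fun_prop) vA vA' vP (by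
        intro x hx y hy
        constructor
        · have h1 := hP (hAP hx) (hAP' hy) (show (0 : ℝ) ≤ 1 / 2 by norm_num)
            (show (0 : ℝ) ≤ 1 / 2 by norm_num) (by norm_num)
          rwa [smul_add]
        · show (1 / 2 : ℝ) • (x + y) - (1 / 2 : ℝ) • (β + β') = (1 / 2 : ℝ) • (x - β + (y - β'))
          rw [← smul_sub]
          congr 1
          abel)
  obtain ⟨B1, hB1, p1⟩ := PLBaux.pb_map hAk hA0.ne' (fun x => x - β) (by fun_prop)
  obtain ⟨B2, hB2, p2⟩ := PLBaux.pb_map hAk' hA0'.ne' (fun x => x - β') (by fun_prop)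
  obtain ⟨B3, hB3, p3⟩ := PLBaux.pb_map hPk hP0.ne' (fun x => x - (1 / 2 : ℝ) • (β + β'))
    (by fun_prop)
  set B : ℝ := max B1 (max B2 B3) with hB
  have hs : 0 < Real.sqrt ((volume A).toReal * (volume A').toReal) :=
    Real.sqrt_pos.2 (mul_pos vA vA')
  refine Pool.Agent.R755.KF.plh h2 d h B _ (la A β) (la A' β') _ hh
    (hB1.trans (le_max_left _ _)) ?_ (PLBaux.pb_mono p1 (le_max_left _ _))
    (PLBaux.pb_mono p2 ((le_max_left _ _).trans (le_max_right _ _)))
    (PLBaux.pb_mono p3 ((le_max_right _ _).trans (le_max_right _ _))) ?_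
  · rw [sub_nonneg, le_div_iff₀ hs, one_mul]
    calc Real.sqrt ((volume A).toReal * (volume A').toReal)
        ≤ Real.sqrt ((volume P).toReal * (volume P).toReal) :=
          Real.sqrt_le_sqrt (mul_le_mul hle hle' vA'.le vP.le)
      _ = (volume P).toReal := Real.sqrt_mul_self vP.le
  · have e : (1 + ((volume P).toReal / Real.sqrt ((volume A).toReal * (volume A').toReal) - 1)) ^ 2
        = (volume P).toReal ^ 2 / ((volume A).toReal * (volume A').toReal) := by
      rw [add_sub_cancel, div_pow, Real.sq_sqrt (mul_pos vA vA').le]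
    rw [e]
    exact hPL

end Pool.Agent.T2h52.SQ
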