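import Pool.Agent.T2h52.SQ.Stm

/-!
Task POL: the polar body and the unit ball of `n`.
-/

set_option autoImplicit false

namespace Pool.Agent.T2h52.SQ

open MeasureTheory Set Filter Topology
open scoped ENNReal InnerProductSpace Pointwise
open Pool.Agent.T2h52.SP
open Pool.Agent.TH591.Lie (polarAt polarAt_convex polarAt_compact)

theorem pol : U_POL := by
  intro d C K o n hKc hK ho hC hadd hsmul hlo hup hbar
  have hC0 : 0 < C := by linarith
  obtain ⟨P, hP⟩ : ∃ P : Set (E d), P = polarAt K o := ⟨_, rfl⟩
  rw [← hP] at hbar ⊢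
  have hmem : ∀ v, v ∈ P ↔ ∀ y ∈ K, ⟪v, y - o⟫_ℝ ≤ 1 := fun v => by rw [hP]; rfl
  obtain ⟨R, hR⟩ : ∃ R : ℝ, ∀ y ∈ K, ‖y - o‖ ≤ R := by
    obtain ⟨R, hR⟩ := hKc.isBounded.subset_closedBall o
    exact ⟨R, fun y hy => by simpa [dist_eq_norm] using hR hy⟩
  have hR0 : 0 ≤ R := (norm_nonneg _).trans (hR o (interior_subset ho))
  have hint : (0 : E d) ∈ interior P := by
    rw [mem_interior]
    refine ⟨Metric.ball 0 (1 / (R + 1)), ?_, Metric.isOpen_ball, by simp; positivity⟩
    intro v hv
    rw [hmem]
    intro y hy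
    rw [mem_ball_zero_iff] at hv
    calc ⟪v, y - o⟫_ℝ ≤ ‖v‖ * ‖y - o‖ := real_inner_le_norm _ _
      _ ≤ 1 / (R + 1) * R := by
          gcongr
          exact hR y hy
      _ ≤ 1 := by
          rw [one_div, inv_mul_le_iff₀ (by positivity)]
          linarith
  have hnneg : ∀ u, n (-u) = n u := by
    intro u
    have h1 := hsmul (-1) u
    rwa [neg_one_smul, abs_neg, abs_one, one_mul] at h1
  have hn0 : ∀ u, 0 ≤ n u := by
    intro u
    have h1 := hup u o (interior_subset ho)
    rw [sub_self, inner_zero_right] at h1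
    exact (mul_nonneg_iff_of_pos_left hC0).1 h1
  -- lower and upper bound by the norm
  have hnup : ∀ u, n u ≤ R * ‖u‖ := by
    intro u
    obtain ⟨y, hy, h1⟩ := hlo u
    calc n u ≤ ⟪u, y - o⟫_ℝ := h1
      _ ≤ ‖u‖ * ‖y - o‖ := real_inner_le_norm _ _
      _ ≤ ‖u‖ * R := by
          gcongr
          exact hR y hy
      _ = R * ‖u‖ := mul_comm _ _
  obtain ⟨r, hr, hrK⟩ : ∃ r : ℝ, 0 < r ∧ Metric.ball o r ⊆ K := by
    obtain ⟨r, hr, h1⟩ := Metric.mem_nhds_iff.1 (mem_interior_iff_mem_nhds.1 ho)
    exact ⟨r, hr, h1⟩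
  have hnlow : ∀ u, r / 2 * ‖u‖ ≤ C * n u := by
    intro u
    by_cases hu : u = 0
    · rw [hu, norm_zero, mul_zero]
      exact mul_nonneg hC0.le (hn0 _)
    have hun : 0 < ‖u‖ := norm_pos_iff.2 hu
    have hy : o + (r / 2 / ‖u‖) • u ∈ K := by
      refine hrK ?_
      rw [mem_ball_iff_norm, add_sub_cancel_left, norm_smul, Real.norm_of_nonneg (by positivity)]
      rw [div_mul_cancel₀ _ hun.ne']
      linarith
    have h1 := hup u _ hy
    rw [add_sub_cancel_left, inner_smul_right, real_inner_self_eq_norm_sq] at h1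
    refine le_trans (le_of_eq ?_) h1
    field_simp
  have hncont : Continuous n := by
    refine Metric.continuous_iff.2 fun u ε hε => ⟨ε / (R + 1), by positivity, fun v hv => ?_⟩
    have h1 : n u ≤ n v + n (u - v) := by
      have := hadd v (u - v)
      rwa [add_sub_cancel] at this
    have h2 : n v ≤ n u + n (v - u) := by
      have := hadd u (v - u)
      rwa [add_sub_cancel] at this
    have h3 : n (u - v) = n (v - u) := by rw [← hnneg, neg_sub]
    have h4 := hnup (v - u)
    rw [dist_eq_norm] at hv ⊢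
    have h5 : R * ‖v - u‖ < ε := by
      calc R * ‖v - u‖ ≤ (R + 1) * ‖v - u‖ := by
            gcongr
            linarith
        _ < (R + 1) * (ε / (R + 1)) := by gcongr
        _ = ε := by field_simp
    rw [Real.norm_eq_abs, abs_lt]
    constructor <;> linarith
  have hPn : Bn P C :=
    { conv := by rw [hP]; exact polarAt_convex K o
      comp := by rw [hP]; exact polarAt_compact K o ho
      int := hint
      one := hC
      asym := by
        intro v hv
        rw [hmem] at hv ⊢
        intro y hy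
        have h1 := hup (-v) y hy
        rw [hnneg] at h1
        obtain ⟨y', hy', h2⟩ := hlo v
        have h3 := hv y' hy'
        rw [← smul_neg, real_inner_smul_left, inv_mul_le_iff₀ hC0]
        calc ⟪-v, y - o⟫_ℝ ≤ C * n v := h1
          _ ≤ C * 1 := by
              gcongr
              exact h2.trans h3
      bar := hbar }
  have hQn : Bd {u : E d | n u ≤ 1} :=
    { conv := by
        intro u hu v hv a b ha hb hab
        show n (a • u + b • v) ≤ 1
        have hu' : n u ≤ 1 := hu
        have hv' : n v ≤ 1 := hv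
        calc n (a • u + b • v) ≤ n (a • u) + n (b • v) := hadd _ _
          _ = a * n u + b * n v := by rw [hsmul, hsmul, abs_of_nonneg ha, abs_of_nonneg hb]
          _ ≤ a * 1 + b * 1 := by gcongr
          _ = 1 := by linarith
      comp := by
        refine Metric.isCompact_of_isClosed_isBounded
          (isClosed_le hncont continuous_const) ?_
        refine (Metric.isBounded_closedBall (x := (0 : E d)) (r := C / (r / 2))).subset ?_
        intro u hu
        have hu' : n u ≤ 1 := hu
        rw [mem_closedBall_zero_iff, le_div_iff₀ (by positivity)]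
        have h1 := hnlow u
        nlinarith
      int := by
        rw [mem_interior]
        refine ⟨{u | n u < 1}, fun u (hu : n u < 1) => show n u ≤ 1 from hu.le, isOpen_lt hncont continuous_const, ?_⟩
        show n 0 < 1
        have h1 := hsmul 0 0
        rw [zero_smul, abs_zero, zero_mul] at h1
        rw [h1]
        exact zero_lt_one
      sym := by
        intro u hu
        show n (-u) ≤ 1
        rw [hnneg]
        exact hu }
  refine ⟨hPn, hQn, fun u => le_antisymm ?_ ?_, fun u => ⟨?_, ?_⟩⟩
  · refine le_of_forall_pos_le_add fun ε hε => ?_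
    have hr : 0 < n u + ε := by
      have := hn0 u
      linarith
    refine gauge_le_of_mem hr.le ?_
    rw [Set.mem_smul_set_iff_inv_smul_mem₀ hr.ne']
    show n ((n u + ε)⁻¹ • u) ≤ 1
    rw [hsmul, abs_of_pos (inv_pos.2 hr), inv_mul_le_iff₀ hr, mul_one]
    linarith
  · by_contra hlt
    rw [not_le] at hlt
    obtain ⟨b, hb0, hb, v, hv, hvu⟩ :=
      exists_lt_of_gauge_lt (absorbent_nhds_zero (mem_interior_iff_mem_nhds.1 hQn.int)) hlt
    have hvu' : b • v = u := hvu
    have hv' : n v ≤ 1 := hv
    have h1 : n u = b * n v := by rw [← hvu', hsmul, abs_of_pos hb0]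
    have h3 : b * n v ≤ b * 1 := mul_le_mul_of_nonneg_left hv' hb0.le
    linarith
  · by_contra hlt
    rw [not_le] at hlt
    obtain ⟨b, hb0, hb, v, hv, hvu⟩ :=
      exists_lt_of_gauge_lt (absorbent_nhds_zero (mem_interior_iff_mem_nhds.1 hint)) hlt
    obtain ⟨y, hy, hny⟩ := hlo u
    have hvu' : b • v = u := hvu
    have h1 := (hmem v).1 hv y hy
    have h2 : ⟪u, y - o⟫_ℝ = b * ⟪v, y - o⟫_ℝ := by rw [← hvu', real_inner_smul_left]
    rw [h2] at hny
    have h3 : b * ⟪v, y - o⟫_ℝ ≤ b * 1 := mul_le_mul_of_nonneg_left h1 hb0.le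
    linarith
  · refine le_of_forall_pos_le_add fun ε hε => ?_
    have hr : 0 < C * n u + ε := by
      have := mul_nonneg hC0.le (hn0 u)
      linarith
    refine gauge_le_of_mem hr.le ?_
    rw [Set.mem_smul_set_iff_inv_smul_mem₀ hr.ne', hmem]
    intro y hy
    rw [real_inner_smul_left, inv_mul_le_iff₀ hr, mul_one]
    have := hup u y hy
    linarith

end Pool.Agent.T2h52.SQ
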