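import Pool.Agent.T2h52.SQ.Stm
import Pool.Agent.N555.RZ.MainB

/-!
Task RAD: from sign patterns to vectors with small sign averages.
-/

set_option autoImplicit false

namespace Pool.Agent.T2h52.SQ

open MeasureTheory Set Filter Topology
open scoped ENNReal InnerProductSpace Pointwise
open Pool.Agent.T2h52.SP
open Pool.Agent.TH591.Ns

theorem rad : U_RAD := by
  intro d n K c hd hn hB hc φ h1 h2
  have hK := hB.conv
  have hKc := hB.comp
  have hKi := hB.int
  have hsym := hB.sym
  have hK0 : K ∈ nhds (0 : E d) := mem_interior_iff_mem_nhds.mp hKi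
  have hg := isG_gauge hK hK0
  choose z hz hφ using h2
  obtain ⟨N, hN⟩ : ∃ N, N = Pool.Agent.N555.RZ.gsem hK hK0 hsym := ⟨_, rfl⟩
  have hNx : ∀ x, N x = gauge K x := fun x => by rw [hN]; rfl
  have hN0 : ∀ x, N x = 0 → x = 0 := by
    intro x hx
    rw [hNx] at hx
    have hb := NormedSpace.isVonNBounded_of_isBounded ℝ hKc.isBounded
    exact (gauge_eq_zero (absorbent_nhds_zero hK0) hb).mp hx
  obtain ⟨L, hL1, hL2⟩ := Pool.Agent.N555.RZ.exists_euclid N hN0
  obtain ⟨N₀, hN1, hN2, hN3⟩ := Pool.Agent.N555.RZ.exists_N0 d hd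
  have hrad := Pool.Agent.N555.RZ.rad N L (d + 1) (Real.sqrt d) (by positivity) (Real.sqrt_nonneg _)
    hL1 hL2 N₀ hN1 hN2 z (fun δ => by rw [hNx]; exact Pool.Agent.N555.RZ.gauge_le_one hK hKc hK0 (hz δ))
  refine ⟨fun i => Pool.Agent.N555.RZ.hat z {i}, fun i => ?_, ?_⟩
  · have hle : ∀ x, φ i x ≤ gauge K x := by
      intro y
      refine le_of_forall_pos_le_add fun ε hε => ?_
      have hc : 0 < gauge K y + ε := by
        have := hg.nonneg y
        linarith
      have h1' := h1 i ((gauge K y + ε)⁻¹ • y) (Pool.Agent.N555.RZ.mem_of_gauge hK hKc hK0 (by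
        rw [hg.smul _ (by positivity), inv_mul_le_iff₀ hc]
        linarith))
      rw [map_smul, smul_eq_mul, inv_mul_le_iff₀ hc] at h1'
      linarith
    refine le_trans ?_ (hle _)
    show _ ≤ φ i (Pool.Agent.N555.RZ.hat z {i})
    unfold Pool.Agent.N555.RZ.hat
    rw [map_smul, map_sum, smul_eq_mul]
    rw [← div_eq_inv_mul, le_div_iff₀ (by positivity)]
    have h3 : ∀ δ, φ i (Pool.Agent.N555.RZ.wal {i} δ • z δ) =
        Pool.Agent.N555.RZ.sg (δ i) * φ i (z δ) := by
      intro δ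
      rw [map_smul, smul_eq_mul]
      simp [Pool.Agent.N555.RZ.wal]
    simp only [h3]
    calc c * 2 ^ n
        = ∑ _δ : Fin n → Bool, c := by
          simp
          ring
      _ ≤ _ := Finset.sum_le_sum fun δ _ => hφ δ i
  · have h4 : ∑ δ : Fin n → Bool,
        gauge K (∑ i, (if δ i then (1 : ℝ) else -1) • Pool.Agent.N555.RZ.hat z {i}) ^ 2
        ≤ 2 ^ n * (4 * N₀) ^ 2 := by
      have h5 : ∀ x, gauge K x = N x := fun x => (hNx x).symm
      simp only [h5]
      exact hrad
    unfold sm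
    rw [div_le_iff₀ (by positivity)]
    refine h4.trans ?_
    rw [mul_comm]
    gcongr

end Pool.Agent.T2h52.SQ
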