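import Pool.Agent.T2h52.SQ.Stm
import Pool.Agent.T2h52.SP.SMP
import Pool.Agent.T2h52.SP.HALF

/-!
Task SMP: sampling, about `d log d` points with a large covariance, bodies which need not be
symmetric.
-/

set_option autoImplicit false

namespace Pool.Agent.T2h52.SQ

open MeasureTheory Set Filter Topology
open scoped ENNReal InnerProductSpace Pointwise
open Pool.Agent.T2h52.SP
open Pool.Agent.N555.RZ (mP mP_prob mom_inner int_K)

/-- small ball estimate for directions (both signs) -/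
theorem smp_pzd (d : ℕ) (P : Set (E d)) (a0 : ℝ) (hP : Bn P a0) (hiso : Iso P) (e : E d)
    (he : ‖e‖ = 1) : 8 / 10 ^ 10 ≤ (mP P {x | 1 / 2 ≤ |⟪x, e⟫_ℝ|}).toReal := by
  have hK0 : P ∈ 𝓝 0 := mem_interior_iff_mem_nhds.1 hP.int
  have hPm : MeasurableSet P := hP.comp.isClosed.measurableSet
  have hfin : volume P ≠ ⊤ := hP.comp.measure_lt_top.ne
  have h0 : volume P ≠ 0 := (Measure.measure_pos_of_mem_nhds volume hK0).ne'
  have hprob := mP_prob h0 hfin
  set T : Set (E d) := {x | 1 / 2 ≤ |⟪x, e⟫_ℝ|} with hT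
  have hTm : MeasurableSet T :=
    (isClosed_le continuous_const (by fun_prop : Continuous fun x : E d => |⟪x, e⟫_ℝ|)).measurableSet
  -- moments
  have i2 : Integrable (fun x : E d => ⟪x, e⟫_ℝ ^ 2) (mP P) := int_K hP.comp h0 (by fun_prop)
  have i4 : Integrable (fun x : E d => ⟪x, e⟫_ℝ ^ 4) (mP P) := int_K hP.comp h0 (by fun_prop)
  have m2 : ∫ x, ⟪x, e⟫_ℝ ^ 2 ∂(mP P) = 1 := by
    rw [hiso e, he, one_pow]
  have m4 : ∫ x, ⟪x, e⟫_ℝ ^ 4 ∂(mP P) ≤ 160 ^ 4 := by
    have h1 := mom_inner hP.conv hP.comp hK0 hiso e 2 (by norm_num)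
    rw [integral_eq_lintegral_of_nonneg_ae (Eventually.of_forall fun x => by positivity)
      i4.aestronglyMeasurable]
    refine ENNReal.toReal_le_of_le_ofReal (by positivity) (le_trans (le_of_eq ?_) (h1.trans ?_))
    · refine lintegral_congr fun x => ?_
      rw [real_inner_comm]
      congr 1
      rw [show 2 * 2 = 4 by norm_num, pow_abs, abs_of_nonneg (by positivity)]
    · refine ENNReal.ofReal_le_ofReal ?_
      rw [he]
      norm_num
  have hle : ∫ x, ⟪x, e⟫_ℝ ^ 2 ∂(mP P) ≤ ∫ x, (1 / 4 + 3 / (8 * 160 ^ 4) * ⟪x, e⟫_ℝ ^ 4 +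
      (2 / 3 * 160 ^ 4) * T.indicator (fun _ => (1 : ℝ)) x) ∂(mP P) := by
    refine integral_mono i2 ?_ fun x => ?_
    · refine ((integrable_const _).add (i4.const_mul _)).add (Integrable.const_mul ?_ _)
      exact (integrable_const _).indicator hTm
    · have h1 := pz_point (⟪x, e⟫_ℝ)
      have h2 : T.indicator (fun _ => (1 : ℝ)) x = if 1 / 2 ≤ |⟪x, e⟫_ℝ| then (1 : ℝ) else 0 := by
        by_cases hx : 1 / 2 ≤ |⟪x, e⟫_ℝ|
        · rw [if_pos hx, indicator_of_mem (show x ∈ T from hx)]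
        · rw [if_neg hx, indicator_of_notMem (show x ∉ T from hx)]
      show ⟪x, e⟫_ℝ ^ 2 ≤ _
      rw [h2]
      exact h1
  have iA : Integrable (fun x : E d => (1 / 4 : ℝ) + 3 / (8 * 160 ^ 4) * ⟪x, e⟫_ℝ ^ 4) (mP P) :=
    (integrable_const _).add (i4.const_mul _)
  have iB : Integrable (fun x : E d => (2 / 3 * 160 ^ 4 : ℝ) * T.indicator (fun _ => (1 : ℝ)) x)
      (mP P) := Integrable.const_mul ((integrable_const (1 : ℝ)).indicator hTm) _
  have iC : Integrable (fun _ : E d => (1 / 4 : ℝ)) (mP P) := integrable_const _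
  have iD : Integrable (fun x : E d => (3 / (8 * 160 ^ 4) : ℝ) * ⟪x, e⟫_ℝ ^ 4) (mP P) :=
    i4.const_mul _
  rw [integral_add iA iB, integral_add iC iD, integral_const_mul, integral_const_mul,
    integral_indicator hTm, integral_const, integral_const, m2] at hle
  simp only [probReal_univ, smul_eq_mul, one_mul, mul_one] at hle
  have hTp : 9 / (16 * 160 ^ 4) ≤ (mP P).real T := by
    have h1 : ((mP P).restrict T).real univ = (mP P).real T := by
      rw [measureReal_restrict_apply_univ]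
    rw [h1] at hle
    have h2 : 3 / (8 * 160 ^ 4) * ∫ x, ⟪x, e⟫_ℝ ^ 4 ∂(mP P) ≤ 3 / 8 := by
      have := mul_le_mul_of_nonneg_left m4 (by positivity : (0 : ℝ) ≤ 3 / (8 * 160 ^ 4))
      refine this.trans (le_of_eq ?_)
      norm_num
    have h3 : (3 : ℝ) / 8 ≤ 2 / 3 * 160 ^ 4 * (mP P).real T := by linarith
    rw [div_le_iff₀ (by positivity)]
    linarith
  refine le_trans ?_ hTp
  norm_num

theorem smp_sqn {d : ℕ} {P : Set (E d)} {a0 : ℝ} (hP : Bn P a0) (hiso : Iso P) (h0 : volume P ≠ 0) :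
    Integrable (fun x : E d => ‖x‖ ^ 2) (mP P) ∧ ∫ x, ‖x‖ ^ 2 ∂(mP P) = d := by
  have i0 : Integrable (fun x : E d => ‖x‖ ^ 2) (mP P) := int_K hP.comp h0 (by fun_prop)
  refine ⟨i0, ?_⟩
  have h1 : ∀ x : E d, ‖x‖ ^ 2 = ∑ j, ⟪x, EuclideanSpace.single j (1 : ℝ)⟫_ℝ ^ 2 := by
    intro x
    rw [EuclideanSpace.norm_sq_eq]
    refine Finset.sum_congr rfl fun j _ => ?_
    rw [real_inner_comm, EuclideanSpace.inner_single_left]
    simp
  simp_rw [h1]
  rw [integral_finsetSum _ fun j _ => int_K hP.comp h0 (by fun_prop)]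
  rw [Finset.sum_congr rfl fun j _ => hiso (EuclideanSpace.single j (1 : ℝ))]
  simp

theorem smp (hBIN : T_BIN) (hNET : T_NET) : U_SMP := by
  intro d P a0 hd hP hiso
  have hK0 : P ∈ 𝓝 0 := mem_interior_iff_mem_nhds.1 hP.int
  have hPm : MeasurableSet P := hP.comp.isClosed.measurableSet
  have hfin : volume P ≠ ⊤ := hP.comp.measure_lt_top.ne
  have h0 : volume P ≠ 0 := (Measure.measure_pos_of_mem_nhds volume hK0).ne'
  have hprob := mP_prob h0 hfin
  have hd' : (2 : ℝ) ≤ d := by exact_mod_cast hd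
  have hL1 := smp_log hd
  obtain ⟨isq, esq⟩ := smp_sqn hP hiso h0
  set L : ℝ := Real.log (d + 1) with hL
  have hdL : 1 ≤ (d : ℝ) * L := by nlinarith
  set N : ℕ := ⌈10 ^ 12 * ((d : ℝ) * L)⌉₊ with hN
  have hN1 : 10 ^ 12 * ((d : ℝ) * L) ≤ N := Nat.le_ceil _
  have hN2 : (N : ℝ) ≤ 2 * 10 ^ 12 * (d * L) := by
    have := Nat.ceil_lt_add_one (show (0 : ℝ) ≤ 10 ^ 12 * ((d : ℝ) * L) by positivity)
    rw [← hN] at this
    linarith
  have hNpos : 1 ≤ N := by
    have : (1 : ℝ) ≤ N := by linarith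
    exact_mod_cast this
  have hNr : (1 : ℝ) ≤ N := by exact_mod_cast hNpos
  have hdN : (0 : ℝ) < d * N := by positivity
  have hdN1 : (1 : ℝ) ≤ Real.sqrt (d * N) := by
    rw [Real.one_le_sqrt]
    nlinarith
  set δ : ℝ := 1 / (40 * Real.sqrt (d * N)) with hδ
  have hδ0 : 0 < δ := by positivity
  have hδ1 : δ ≤ 1 := by
    rw [hδ, div_le_one (by positivity)]
    linarith
  obtain ⟨S, hS1, hSc, hS⟩ := hNET d δ (by omega) hδ0 hδ1
  set ν : Measure (Fin N → E d) := Measure.pi (fun _ : Fin N => mP P) with hν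
  have hνp : IsProbabilityMeasure ν := by rw [hν]; infer_instance
  -- the bad events
  let A : Fin N → Set (Fin N → E d) := fun i => {X | X i ∈ Pᶜ}
  let B : Fin N → Set (Fin N → E d) := fun i => {X | X i ∈ {x : E d | 100 * ((d : ℝ) * N) ≤ ‖x‖ ^ 2}}
  let T : E d → Set (E d) := fun s => {x : E d | 1 / 2 ≤ |⟪x, s⟫_ℝ|}
  let C : E d → Set (Fin N → E d) := fun s =>
    {X | (∑ i, (T s).indicator (fun _ => (1 : ℝ)) (X i)) < 8 / 10 ^ 10 * N / 2}
  have hev : ∀ (i : Fin N) (D : Set (E d)), MeasurableSet D → ν.real {X | X i ∈ D} = (mP P).real D := by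
    intro i D hD
    have h1 := (measurePreserving_eval (fun _ : Fin N => mP P) i).measure_preimage
      hD.nullMeasurableSet
    rw [Measure.real, Measure.real, ← h1]
    rfl
  have hA : ∀ i, ν.real (A i) = 0 := by
    intro i
    rw [hev i Pᶜ hPm.compl, Measure.real, mP, Measure.smul_apply, Measure.restrict_apply hPm.compl]
    simp
  have hB : ∀ i, ν.real (B i) ≤ 1 / (100 * N) := by
    intro i
    have hm : MeasurableSet {x : E d | 100 * ((d : ℝ) * N) ≤ ‖x‖ ^ 2} :=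
      (isClosed_le continuous_const (by fun_prop)).measurableSet
    rw [hev i _ hm]
    have h1 := mul_meas_ge_le_integral_of_nonneg (μ := mP P) (f := fun x : E d => ‖x‖ ^ 2)
      (Eventually.of_forall fun x => by positivity) isq (100 * ((d : ℝ) * N))
    rw [esq] at h1
    have h2 : (mP P).real {x : E d | 100 * ((d : ℝ) * N) ≤ ‖x‖ ^ 2} ≤ d / (100 * (d * N)) := by
      rw [le_div_iff₀ (by positivity)]
      linarith
    refine h2.trans (le_of_eq ?_)
    have hd0 : (d : ℝ) ≠ 0 := by positivity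
    field_simp
  have hC : ∀ s ∈ S, ν.real (C s) ≤ Real.exp (-(8 / 10 ^ 10 * N / 8)) := by
    intro s hs
    refine hBIN d N (mP P) (T s) (8 / 10 ^ 10) hprob ?_ (by norm_num) (smp_pzd d P a0 hP hiso s (hS1 s hs))
    exact (isClosed_le continuous_const (by fun_prop : Continuous fun x : E d => |⟪x, s⟫_ℝ|)).measurableSet
  have hgood : ∃ X : Fin N → E d, (∀ i, X ∉ A i) ∧ (∀ i, X ∉ B i) ∧ ∀ s ∈ S, X ∉ C s := by
    by_contra hne
    push Not at hne
    have hcov : (univ : Set (Fin N → E d)) ⊆ ((⋃ i, A i) ∪ ⋃ i, B i) ∪ ⋃ s ∈ S, C s := by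
      intro X _
      by_cases h1 : ∀ i, X ∉ A i
      · by_cases h2 : ∀ i, X ∉ B i
        · obtain ⟨s, hs, hs'⟩ := hne X h1 h2
          exact Or.inr (mem_iUnion₂.2 ⟨s, hs, hs'⟩)
        · push Not at h2
          exact Or.inl (Or.inr (mem_iUnion.2 h2))
      · push Not at h1
        exact Or.inl (Or.inl (mem_iUnion.2 h1))
    have h1 : (1 : ℝ) ≤ ν.real (((⋃ i, A i) ∪ ⋃ i, B i) ∪ ⋃ s ∈ S, C s) := by
      rw [← probReal_univ (μ := ν)]
      exact measureReal_mono hcov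
    have h2 : ν.real (⋃ i, A i) ≤ 0 :=
      (measureReal_iUnion_fintype_le _).trans (le_of_eq (Finset.sum_eq_zero fun i _ => hA i))
    have h3 : ν.real (⋃ i, B i) ≤ 1 / 100 := by
      refine (measureReal_iUnion_fintype_le _).trans ((Finset.sum_le_sum fun i _ => hB i).trans ?_)
      rw [Finset.sum_const, Finset.card_univ, Fintype.card_fin, nsmul_eq_mul]
      refine le_of_eq ?_
      have : (N : ℝ) ≠ 0 := by positivity
      field_simp
    have h4 : ν.real (⋃ s ∈ S, C s) ≤ 1 / 2 := by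
      refine (measureReal_biUnion_finset_le _ _).trans ((Finset.sum_le_sum hC).trans ?_)
      rw [Finset.sum_const, nsmul_eq_mul]
      exact (mul_le_mul_of_nonneg_right hSc (Real.exp_pos _).le).trans (smp_num hd hN1 hN2)
    have h5 := measureReal_union_le (μ := ν) ((⋃ i, A i) ∪ ⋃ i, B i) (⋃ s ∈ S, C s)
    have h6 := measureReal_union_le (μ := ν) (⋃ i, A i) (⋃ i, B i)
    linarith
  obtain ⟨X, hXA, hXB, hXC⟩ := hgood
  refine ⟨N, X, hNpos, hN2, fun i => ?_, fun w => ?_⟩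
  · by_contra h
    exact hXA i h
  · refine smp_det S X hNpos (by omega) hS (fun i => ?_) (fun s hs => ?_) w
    · exact not_le.1 (hXB i)
    · exact not_lt.1 (hXC s hs)

end Pool.Agent.T2h52.SQ
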