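import Pool.Agent.T2h52.SQ.Stm
import Pool.Agent.T2h52.SP.SNH

/-!
# SNH: the bound for the chi-square expression of two measures
-/

set_option autoImplicit false
set_option linter.all false

namespace Pool.Agent.T2h52.SQ

open MeasureTheory Set Filter Topology
open scoped ENNReal InnerProductSpace Pointwise
open Pool.Agent.R755.KF (PB)
open Pool.Agent.T2h52.SP
open Pool.Agent.T2h52.SP.SNHx (int_c sq_exp)

namespace SNHx

variable {d : ℕ}

lemma exp_rem2 (t : ℝ) : |Real.exp t - (1 + t)| ≤ |t| ^ 2 * Real.exp |t| := by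
  have h := Complex.norm_exp_sub_sum_le_norm_mul_exp (t : ℂ) 2
  have e : Complex.exp (t : ℂ) - ∑ m ∈ Finset.range 2, (t : ℂ) ^ m / (m.factorial : ℂ) =
      ((Real.exp t - (1 + t) : ℝ) : ℂ) := by
    simp [Finset.sum_range_succ, Nat.factorial]
  rw [e, Complex.norm_real, Complex.norm_real, Real.norm_eq_abs, Real.norm_eq_abs] at h
  exact h

lemma exp_bd (τ u : ℝ) (h0 : 0 ≤ τ) (h1 : τ ≤ 1 / 10) :
    Real.exp (τ * u) ≤ 1 + τ * u + 3 * τ ^ 2 * Real.exp |u| := by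
  have h := (abs_le.mp (exp_rem2 (τ * u))).2
  rw [abs_mul, abs_of_nonneg h0] at h
  have hu := abs_nonneg u
  have h2 := Real.pow_div_factorial_le_exp (x := 9 / 10 * |u|) (by positivity) 2
  have h3 : |u| ^ 2 ≤ 3 * Real.exp (9 / 10 * |u|) := by
    have h4 : ((2 : ℕ).factorial : ℝ) = 2 := by norm_num [Nat.factorial]
    rw [h4] at h2
    have h5 := Real.exp_pos (9 / 10 * |u|)
    nlinarith
  have h4 : Real.exp (τ * |u|) ≤ Real.exp (1 / 10 * |u|) :=
    Real.exp_le_exp.mpr (mul_le_mul_of_nonneg_right h1 hu)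
  have h5 : Real.exp (9 / 10 * |u|) * Real.exp (1 / 10 * |u|) = Real.exp |u| := by
    rw [← Real.exp_add]
    congr 1
    ring
  have h6 : |u| ^ 2 * Real.exp (τ * |u|) ≤ 3 * Real.exp |u| := by
    calc |u| ^ 2 * Real.exp (τ * |u|) ≤ (3 * Real.exp (9 / 10 * |u|)) * Real.exp (1 / 10 * |u|) :=
          mul_le_mul h3 h4 (Real.exp_pos _).le (by positivity)
      _ = 3 * Real.exp |u| := by rw [mul_assoc, h5]
  have h7 : (τ * |u|) ^ 2 * Real.exp (τ * |u|) ≤ 3 * τ ^ 2 * Real.exp |u| := by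
    calc (τ * |u|) ^ 2 * Real.exp (τ * |u|) = τ ^ 2 * (|u| ^ 2 * Real.exp (τ * |u|)) := by ring
      _ ≤ τ ^ 2 * (3 * Real.exp |u|) := mul_le_mul_of_nonneg_left h6 (by positivity)
      _ = _ := by ring
  linarith

lemma int_prod {H R : ℝ} (hH : 0 < H) (m m' : Measure (E d)) [IsFiniteMeasure m]
    [IsFiniteMeasure m'] (hR : ∀ᵐ x ∂m, ‖x‖ ≤ R) (hR' : ∀ᵐ x ∂m', ‖x‖ ≤ R) :
    Integrable (fun p : E d × E d => Real.exp (⟪p.1, p.2⟫_ℝ / H)) (m.prod m') := by
  have hc : Continuous fun p : E d × E d => Real.exp (⟪p.1, p.2⟫_ℝ / H) := by fun_prop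
  refine Integrable.of_bound hc.aestronglyMeasurable (Real.exp (R * R / H)) ?_
  have h2 : ∀ᵐ p : E d × E d ∂(m.prod m'), ‖p.1‖ ≤ R ∧ ‖p.2‖ ≤ R :=
    (Measure.quasiMeasurePreserving_fst.ae hR).and (Measure.quasiMeasurePreserving_snd.ae hR')
  filter_upwards [h2] with p hp
  rw [Real.norm_of_nonneg (Real.exp_pos _).le, Real.exp_le_exp]
  apply div_le_div_of_nonneg_right _ hH.le
  have h3 := real_inner_le_norm p.1 p.2
  have h4 : ‖p.1‖ * ‖p.2‖ ≤ R * R :=
    mul_le_mul hp.1 hp.2 (norm_nonneg _) ((norm_nonneg _).trans hp.1)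
  linarith

/-- the estimates for one measure -/
lemma one {H M B : ℝ} (ν : Measure (E d)) (hd : 1 ≤ d) (hM : 1 ≤ M)
    (hH : 10 ^ 5 * M * Real.sqrt d ≤ H) (hν : PB B ν) (hmean : ∀ w : E d, ∫ x, ⟪x, w⟫_ℝ ∂ν = 0)
    (hexp : ∀ w : E d, ‖w‖ ≤ 1 → ∫ x, Real.exp (|⟪x, w⟫_ℝ| / 20) ∂ν ≤ M) :
    3 / 4 ≤ ν.real (Metric.closedBall (0 : E d) (Real.sqrt (3200 * M * d))) ∧
    ‖∫ x in Metric.closedBall (0 : E d) (Real.sqrt (3200 * M * d)), x ∂ν‖ ^ 2 ≤ 200 * M ∧
    ∫ x in Metric.closedBall (0 : E d) (Real.sqrt (3200 * M * d)),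
      ∫ x' in Metric.closedBall (0 : E d) (Real.sqrt (3200 * M * d)),
        Real.exp (⟪x, x'⟫_ℝ / H) ∂ν ∂ν ≤
      ν.real (Metric.closedBall (0 : E d) (Real.sqrt (3200 * M * d))) ^ 2 +
      ‖∫ x in Metric.closedBall (0 : E d) (Real.sqrt (3200 * M * d)), x ∂ν‖ ^ 2 / H + 1 / 1000 := by
  have hprob := hν.prob
  have hM0 : 0 < M := by linarith
  have hd1 : (1 : ℝ) ≤ d := by exact_mod_cast hd
  have hd0 : (0 : ℝ) < d := by linarith
  have hsd : 1 ≤ Real.sqrt d := Real.one_le_sqrt.mpr hd1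
  have hH0 : 0 < H := lt_of_lt_of_le (by positivity) hH
  -- second moments
  have hci : ∀ w : E d, Continuous fun x : E d => ⟪x, w⟫_ℝ := fun w =>
    continuous_id.inner continuous_const
  have hci2 : ∀ w : E d, Continuous fun x : E d => ⟪x, w⟫_ℝ ^ 2 := fun w => (hci w).pow 2
  have hs : ∀ w : E d, ∫ x, ⟪x, w⟫_ℝ ^ 2 ∂ν ≤ 800 * M * ‖w‖ ^ 2 := by
    intro w
    rcases eq_or_ne w 0 with rfl | hw
    · simp
    have hw0 : 0 < ‖w‖ := norm_pos_iff.mpr hw
    have h1 : ∫ x, ⟪x, ‖w‖⁻¹ • w⟫_ℝ ^ 2 ∂ν ≤ 800 * M := by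
      calc ∫ x, ⟪x, ‖w‖⁻¹ • w⟫_ℝ ^ 2 ∂ν ≤ ∫ x, 800 * Real.exp (|⟪x, ‖w‖⁻¹ • w⟫_ℝ| / 20) ∂ν := by
            refine integral_mono (int_c hν ((hci _).pow 2)) (int_c hν ?_) fun x => sq_exp _
            exact continuous_const.mul (Real.continuous_exp.comp ((hci _).abs.div_const _))
        _ = 800 * ∫ x, Real.exp (|⟪x, ‖w‖⁻¹ • w⟫_ℝ| / 20) ∂ν := integral_const_mul _ _
        _ ≤ 800 * M := by
            have := hexp (‖w‖⁻¹ • w) (by rw [norm_smul, norm_inv, norm_norm,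
              inv_mul_cancel₀ hw0.ne'])
            linarith
    have h2 : ∀ x : E d, ⟪x, w⟫_ℝ ^ 2 = ‖w‖ ^ 2 * ⟪x, ‖w‖⁻¹ • w⟫_ℝ ^ 2 := by
      intro x
      rw [real_inner_smul_right]
      field_simp
    simp only [h2]
    rw [integral_const_mul]
    nlinarith [sq_nonneg ‖w‖]
  have hn : ∫ x, ‖x‖ ^ 2 ∂ν ≤ 800 * M * d := by
    have h1 : ∀ x : E d, ‖x‖ ^ 2 = ∑ i : Fin d, ⟪x, EuclideanSpace.single i (1 : ℝ)⟫_ℝ ^ 2 := by
      intro x
      rw [EuclideanSpace.real_norm_sq_eq]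
      refine Finset.sum_congr rfl fun i _ => ?_
      rw [EuclideanSpace.inner_single_right]
      simp
    simp only [h1]
    rw [integral_finsetSum _ fun i _ => int_c hν (hci2 _)]
    calc ∑ i : Fin d, ∫ x, ⟪x, EuclideanSpace.single i (1 : ℝ)⟫_ℝ ^ 2 ∂ν ≤
        ∑ i : Fin d, 800 * M := Finset.sum_le_sum fun i _ => by
          have := hs (EuclideanSpace.single i (1 : ℝ))
          simpa using this
      _ = 800 * M * d := by
          rw [Finset.sum_const, Finset.card_univ, Fintype.card_fin, nsmul_eq_mul]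
          ring
  set R : ℝ := Real.sqrt (3200 * M * d) with hR
  have hRsq : R ^ 2 = 3200 * M * d := Real.sq_sqrt (by positivity)
  have hR0 : 0 < R := Real.sqrt_pos.mpr (by positivity)
  set A : Set (E d) := Metric.closedBall 0 R with hA
  have hAm : MeasurableSet A := Metric.isClosed_closedBall.measurableSet
  -- Markov
  have hAc : ν.real Aᶜ ≤ 1 / 4 := by
    have h1 : ∫ x in Aᶜ, R ^ 2 ∂ν ≤ ∫ x in Aᶜ, ‖x‖ ^ 2 ∂ν := by
      refine setIntegral_mono_on (integrable_const _) (int_c hν (by fun_prop)).integrableOn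
        hAm.compl fun x hx => ?_
      have : R < ‖x‖ := by
        simpa [hA] using hx
      exact pow_le_pow_left₀ hR0.le this.le 2
    have h2 : ∫ x in Aᶜ, ‖x‖ ^ 2 ∂ν ≤ ∫ x, ‖x‖ ^ 2 ∂ν :=
      setIntegral_le_integral (int_c hν (by fun_prop)) (Eventually.of_forall fun x => sq_nonneg _)
    rw [setIntegral_const, smul_eq_mul, hRsq] at h1
    have h3 : ν.real Aᶜ * (3200 * M * d) ≤ 800 * M * d := h1.trans (h2.trans hn)
    have h4 : 0 < M * d := by positivity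
    by_contra hcon
    push Not at hcon
    nlinarith
  have hAr : ν.real A = 1 - ν.real Aᶜ := by
    have := probReal_compl_eq_one_sub (μ := ν) hAm
    linarith
  have hA1 : ν.real A ≤ 1 := measureReal_le_one
  -- the mean over `A`
  have hid : Integrable (fun x : E d => x) ν := by
    refine Integrable.of_bound aestronglyMeasurable_id B ?_
    exact hν.bdd
  set v : E d := ∫ x in A, x ∂ν with hv
  have hIA : ∀ w : E d, ∫ x in A, ⟪w, x⟫_ℝ ∂ν = ⟪w, v⟫_ℝ := fun w =>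
    integral_inner hid.integrableOn w
  have hvv : ‖v‖ ^ 2 ≤ 200 * M := by
    have h1 : ‖v‖ ^ 2 = - ∫ x in Aᶜ, ⟪x, v⟫_ℝ ∂ν := by
      have h2 := integral_add_compl hAm (int_c hν (hci v))
      rw [hmean v] at h2
      have h3 : ∫ x in A, ⟪x, v⟫_ℝ ∂ν = ‖v‖ ^ 2 := by
        simp only [real_inner_comm v]
        rw [hIA v, real_inner_self_eq_norm_sq]
      linarith
    have h2 : - ∫ x in Aᶜ, ⟪x, v⟫_ℝ ∂ν ≤ ∫ x in Aᶜ, (⟪x, v⟫_ℝ ^ 2 / (1600 * M) + 400 * M) ∂ν := by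
      rw [← integral_neg]
      refine integral_mono (int_c hν (hci v)).integrableOn.neg ?_ fun x => ?_
      · exact ((int_c hν ((hci v).pow 2)).integrableOn.div_const _).add (integrable_const _)
      · show -⟪x, v⟫_ℝ ≤ ⟪x, v⟫_ℝ ^ 2 / (1600 * M) + 400 * M
        rw [← sub_nonneg]
        have : ⟪x, v⟫_ℝ ^ 2 / (1600 * M) + 400 * M - -⟪x, v⟫_ℝ =
            (⟪x, v⟫_ℝ + 800 * M) ^ 2 / (1600 * M) := by
          field_simp
          ring
        rw [this]
        positivity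
    have h3 : ∫ x in Aᶜ, (⟪x, v⟫_ℝ ^ 2 / (1600 * M) + 400 * M) ∂ν =
        (∫ x in Aᶜ, ⟪x, v⟫_ℝ ^ 2 / (1600 * M) ∂ν) + ν.real Aᶜ * (400 * M) := by
      rw [integral_add ((int_c hν (hci2 v)).integrableOn.div_const _) (integrable_const _),
        setIntegral_const, smul_eq_mul]
    have h4 : ∫ x in Aᶜ, ⟪x, v⟫_ℝ ^ 2 / (1600 * M) ∂ν ≤ ‖v‖ ^ 2 / 2 := by
      calc ∫ x in Aᶜ, ⟪x, v⟫_ℝ ^ 2 / (1600 * M) ∂ν ≤ ∫ x, ⟪x, v⟫_ℝ ^ 2 / (1600 * M) ∂ν :=
            setIntegral_le_integral ((int_c hν ((hci v).pow 2)).div_const _)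
              (Eventually.of_forall fun x => by positivity)
        _ = (∫ x, ⟪x, v⟫_ℝ ^ 2 ∂ν) / (1600 * M) := integral_div _ _
        _ ≤ (800 * M * ‖v‖ ^ 2) / (1600 * M) := by
            gcongr
            exact hs v
        _ = ‖v‖ ^ 2 / 2 := by
            field_simp
            ring
    have h5 : ν.real Aᶜ * (400 * M) ≤ 100 * M := by nlinarith
    linarith
  refine ⟨by linarith, hvv, ?_⟩
  set τ : ℝ := 20 * R / H with hτ
  have hτ0 : 0 ≤ τ := by positivity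
  have hsM : 1 ≤ Real.sqrt M := Real.one_le_sqrt.mpr hM
  have hsMM : Real.sqrt M ^ 2 = M := Real.sq_sqrt hM0.le
  have hτ2 : τ ^ 2 * M ≤ 2 / 10 ^ 4 := by
    have h1 : τ ^ 2 * M = 400 * R ^ 2 * M / H ^ 2 := by
      rw [hτ]
      field_simp
      ring
    rw [h1, hRsq, div_le_iff₀ (by positivity)]
    have h2 : (10 ^ 5 * M * Real.sqrt d) ^ 2 ≤ H ^ 2 := pow_le_pow_left₀ (by positivity) hH 2
    have h3 : (10 ^ 5 * M * Real.sqrt d) ^ 2 = 10 ^ 10 * M ^ 2 * d := by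
      rw [mul_pow, mul_pow, Real.sq_sqrt hd0.le]
      ring
    rw [h3] at h2
    have h4 : 0 ≤ M ^ 2 * d := by positivity
    nlinarith
  have hτ1 : τ ≤ 1 / 10 := by
    by_contra hcon
    push Not at hcon
    have : (1 / 10 : ℝ) ^ 2 ≤ τ ^ 2 := pow_le_pow_left₀ (by norm_num) hcon.le 2
    nlinarith
  have hinner : ∀ x ∈ A, ∫ x' in A, Real.exp (⟪x, x'⟫_ℝ / H) ∂ν ≤
      ν.real A + ⟪x, v⟫_ℝ / H + 3 * τ ^ 2 * M := by
    intro x hx
    have hxR : ‖x‖ ≤ R := by simpa [hA] using hx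
    have hxn : ‖R⁻¹ • x‖ ≤ 1 := by
      rw [norm_smul, norm_inv, Real.norm_of_nonneg hR0.le, inv_mul_le_iff₀ hR0, mul_one]
      exact hxR
    have hT : ∀ x' : E d, ⟪x, x'⟫_ℝ / H = τ * (⟪x', R⁻¹ • x⟫_ℝ / 20) := by
      intro x'
      rw [real_inner_smul_right, real_inner_comm, hτ]
      field_simp
    have hce : Continuous fun x' : E d => Real.exp (|⟪x', R⁻¹ • x⟫_ℝ| / 20) :=
      Real.continuous_exp.comp ((hci _).abs.div_const _)
    have hcT : Continuous fun x' : E d => ⟪x, x'⟫_ℝ / H :=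
      (continuous_const.inner continuous_id).div_const _
    calc ∫ x' in A, Real.exp (⟪x, x'⟫_ℝ / H) ∂ν
        ≤ ∫ x' in A, (1 + ⟪x, x'⟫_ℝ / H + 3 * τ ^ 2 * Real.exp (|⟪x', R⁻¹ • x⟫_ℝ| / 20)) ∂ν := by
          refine integral_mono (int_c hν ?_).integrableOn (int_c hν ?_).integrableOn fun x' => ?_
          · exact Real.continuous_exp.comp hcT
          · exact (continuous_const.add hcT).add (continuous_const.mul hce)
          · show Real.exp (⟪x, x'⟫_ℝ / H) ≤ _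
            have := exp_bd τ (⟪x', R⁻¹ • x⟫_ℝ / 20) hτ0 hτ1
            rw [abs_div, abs_of_pos (by norm_num : (0 : ℝ) < 20), ← hT x'] at this
            exact this
      _ = (∫ x' in A, (1 : ℝ) ∂ν) + (∫ x' in A, ⟪x, x'⟫_ℝ / H ∂ν) +
          3 * τ ^ 2 * ∫ x' in A, Real.exp (|⟪x', R⁻¹ • x⟫_ℝ| / 20) ∂ν := by
          rw [integral_add, integral_add, integral_const_mul]
          · exact (int_c hν continuous_const).integrableOn
          · exact (int_c hν hcT).integrableOn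
          · exact (int_c hν (continuous_const.add hcT)).integrableOn
          · exact (int_c hν (continuous_const.mul hce)).integrableOn
      _ ≤ ν.real A + ⟪x, v⟫_ℝ / H + 3 * τ ^ 2 * M := by
          have h0 : ∫ x' in A, (1 : ℝ) ∂ν = ν.real A := by
            rw [setIntegral_const, smul_eq_mul, mul_one]
          have h1 : ∫ x' in A, ⟪x, x'⟫_ℝ / H ∂ν = ⟪x, v⟫_ℝ / H := by
            rw [integral_div, hIA]
          have h2 : ∫ x' in A, Real.exp (|⟪x', R⁻¹ • x⟫_ℝ| / 20) ∂ν ≤ M :=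
            (setIntegral_le_integral (int_c hν hce)
              (Eventually.of_forall fun x => (Real.exp_pos _).le)).trans (hexp _ hxn)
          have h3 : 0 ≤ 3 * τ ^ 2 := by positivity
          have := mul_le_mul_of_nonneg_left h2 h3
          linarith
  have hbd : ∀ᵐ x ∂(ν.restrict A), ‖x‖ ≤ B := ae_restrict_of_ae hν.bdd
  have hint : Integrable (fun x => ∫ x' in A, Real.exp (⟪x, x'⟫_ℝ / H) ∂ν) (ν.restrict A) :=
    (int_prod hH0 (ν.restrict A) (ν.restrict A) hbd hbd).integral_prod_left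
  calc ∫ x in A, ∫ x' in A, Real.exp (⟪x, x'⟫_ℝ / H) ∂ν ∂ν
      ≤ ∫ x in A, (⟪x, v⟫_ℝ / H + (ν.real A + 3 * τ ^ 2 * M)) ∂ν := by
        refine setIntegral_mono_on hint (int_c hν (((hci v).div_const _).add
          continuous_const)).integrableOn hAm fun x hx => ?_
        have := hinner x hx
        linarith
    _ = ‖v‖ ^ 2 / H + ν.real A * (ν.real A + 3 * τ ^ 2 * M) := by
        rw [integral_add (int_c hν ((hci v).div_const _)).integrableOn (integrable_const _),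
          setIntegral_const, smul_eq_mul, integral_div]
        congr 2
        simp only [real_inner_comm v]
        rw [hIA v, real_inner_self_eq_norm_sq]
    _ ≤ ν.real A ^ 2 + ‖v‖ ^ 2 / H + 1 / 1000 := by
        have h3 : 0 ≤ 3 * τ ^ 2 * M := by positivity
        have h2 : ν.real A * (3 * τ ^ 2 * M) ≤ 1 / 1000 := by
          calc ν.real A * (3 * τ ^ 2 * M) ≤ 1 * (3 * τ ^ 2 * M) :=
                mul_le_mul_of_nonneg_right hA1 h3
            _ ≤ 1 / 1000 := by linarith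
        nlinarith

end SNHx

open SNHx in
theorem snh : U_SNH := by
  intro d H M B ν ν' hd hM hH hν hν' hmean hmean' hexp hexp'
  have hprob := hν.prob
  have hprob' := hν'.prob
  have hM0 : 0 < M := by linarith
  have hd1 : (1 : ℝ) ≤ d := by exact_mod_cast hd
  have hd0 : (0 : ℝ) < d := by linarith
  have hsd : 1 ≤ Real.sqrt d := Real.one_le_sqrt.mpr hd1
  have hH0 : 0 < H := lt_of_lt_of_le (by positivity) hH
  obtain ⟨a1, a2, a3⟩ := one ν hd hM hH hν hmean hexp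
  obtain ⟨b1, b2, b3⟩ := one ν' hd hM hH hν' hmean' hexp'
  set A : Set (E d) := Metric.closedBall 0 (Real.sqrt (3200 * M * d)) with hA
  have hAm : MeasurableSet A := Metric.isClosed_closedBall.measurableSet
  have hid : Integrable (fun x : E d => x) ν := by
    refine Integrable.of_bound aestronglyMeasurable_id B ?_
    exact hν.bdd
  have hid' : Integrable (fun x : E d => x) ν' := by
    refine Integrable.of_bound aestronglyMeasurable_id B ?_
    exact hν'.bdd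
  have hbd : ∀ᵐ x ∂(ν.restrict A), ‖x‖ ≤ B := ae_restrict_of_ae hν.bdd
  have hbd' : ∀ᵐ x ∂(ν'.restrict A), ‖x‖ ≤ B := ae_restrict_of_ae hν'.bdd
  set v : E d := ∫ x in A, x ∂ν with hv
  set v' : E d := ∫ x in A, x ∂ν' with hv'
  have hIA : ∀ w : E d, ∫ x in A, ⟪w, x⟫_ℝ ∂ν = ⟪w, v⟫_ℝ := fun w =>
    integral_inner hid.integrableOn w
  have hIA' : ∀ w : E d, ∫ x in A, ⟪w, x⟫_ℝ ∂ν' = ⟪w, v'⟫_ℝ := fun w =>
    integral_inner hid'.integrableOn w
  have hci : ∀ w : E d, Continuous fun x : E d => ⟪x, w⟫_ℝ := fun w =>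
    continuous_id.inner continuous_const
  have hint : Integrable (fun x => ∫ x' in A, Real.exp (⟪x, x'⟫_ℝ / H) ∂ν') (ν.restrict A) :=
    (int_prod hH0 (ν.restrict A) (ν'.restrict A) hbd hbd').integral_prod_left
  have hmix : ν.real A * ν'.real A + ⟪v, v'⟫_ℝ / H ≤
      ∫ x in A, ∫ x' in A, Real.exp (⟪x, x'⟫_ℝ / H) ∂ν' ∂ν := by
    have h1 : ∀ x : E d, ν'.real A + ⟪x, v'⟫_ℝ / H ≤ ∫ x' in A, Real.exp (⟪x, x'⟫_ℝ / H) ∂ν' := by
      intro x
      have hcT : Continuous fun x' : E d => ⟪x, x'⟫_ℝ / H :=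
        (continuous_const.inner continuous_id).div_const _
      have h2 : ∫ x' in A, (1 + ⟪x, x'⟫_ℝ / H) ∂ν' = ν'.real A + ⟪x, v'⟫_ℝ / H := by
        rw [integral_add (integrable_const _) (int_c hν' hcT).integrableOn, setIntegral_const,
          smul_eq_mul, mul_one, integral_div, hIA']
      rw [← h2]
      refine integral_mono (int_c hν' (continuous_const.add hcT)).integrableOn
        (int_c hν' (Real.continuous_exp.comp hcT)).integrableOn fun x' => ?_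
      show 1 + ⟪x, x'⟫_ℝ / H ≤ Real.exp (⟪x, x'⟫_ℝ / H)
      have := Real.add_one_le_exp (⟪x, x'⟫_ℝ / H)
      linarith
    have h3 : ∫ x in A, (ν'.real A + ⟪x, v'⟫_ℝ / H) ∂ν = ν.real A * ν'.real A + ⟪v, v'⟫_ℝ / H := by
      rw [integral_add (integrable_const _) (int_c hν ((hci v').div_const _)).integrableOn,
        setIntegral_const, smul_eq_mul, integral_div]
      congr 2
      simp only [real_inner_comm v']
      rw [hIA v', real_inner_comm]
    rw [← h3]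
    exact integral_mono (int_c hν (continuous_const.add ((hci v').div_const _))).integrableOn
      hint h1
  refine ⟨A, hAm, a1, b1, ?_⟩
  have ha1 : ν.real A ≤ 1 := measureReal_le_one
  have hb1 : ν'.real A ≤ 1 := measureReal_le_one
  have h1 : (ν.real A - ν'.real A) ^ 2 ≤ 1 / 16 := by
    have : |ν.real A - ν'.real A| ≤ 1 / 4 := by
      rw [abs_le]
      constructor <;> linarith
    calc (ν.real A - ν'.real A) ^ 2 = |ν.real A - ν'.real A| ^ 2 := (sq_abs _).symm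
      _ ≤ (1 / 4) ^ 2 := pow_le_pow_left₀ (abs_nonneg _) this 2
      _ = 1 / 16 := by norm_num
  have h2 : ‖v‖ ^ 2 / H + ‖v'‖ ^ 2 / H - 2 * (⟪v, v'⟫_ℝ / H) ≤ 8 / 1000 := by
    have e1 : ‖v‖ ^ 2 / H + ‖v'‖ ^ 2 / H - 2 * (⟪v, v'⟫_ℝ / H) = ‖v - v'‖ ^ 2 / H := by
      rw [norm_sub_sq_real]
      ring
    have e2 : ‖v - v'‖ ^ 2 ≤ 800 * M := by
      have e3 : ‖v - v'‖ ^ 2 + ‖v + v'‖ ^ 2 = 2 * (‖v‖ ^ 2 + ‖v'‖ ^ 2) := by
        rw [norm_sub_sq_real, norm_add_sq_real]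
        ring
      have e4 : 0 ≤ ‖v + v'‖ ^ 2 := sq_nonneg _
      linarith
    rw [e1, div_le_iff₀ hH0]
    have : 10 ^ 5 * M ≤ H := by nlinarith
    linarith
  linarith

end Pool.Agent.T2h52.SQ
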