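import Pool.Agent.T2h52.SQ.Stm

/-!
# Task TNU (adapted from `SP/TNU.lean`)
-/

set_option autoImplicit false

namespace Pool.Agent.T2h52.SQ

open MeasureTheory Set Filter Topology
open scoped ENNReal InnerProductSpace Pointwise

/-- Numbers. -/
theorem tnu : U_TNU := by
  intro d p q T B C hd hp1 hp2 hq hT hB hC hX
  have hd' : (2 : ℝ) ≤ d := by exact_mod_cast hd
  have hL : 1 ≤ Real.log (d + 1) := by
    rw [Real.le_log_iff_exp_le (by positivity)]
    have := Real.exp_one_lt_d9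
    linarith
  generalize Real.log (d + 1) = L at *
  obtain ⟨D, hD⟩ : ∃ D : ℝ, D = d := ⟨_, rfl⟩
  rw [← hD] at hd' hX ⊢
  obtain ⟨κ, hκ⟩ : ∃ κ, κ = 3 - 4 / p := ⟨_, rfl⟩
  rw [← hκ] at hX
  have hp0 : 0 < p := by linarith
  have hκ0 : 0 < κ := by
    have : 4 / p < 3 := by
      rw [div_lt_iff₀ hp0]
      linarith
    linarith
  have hκ1 : κ ≤ 1 := by
    have : 2 ≤ 4 / p := by
      rw [le_div_iff₀ hp0]
      linarith
    linarith
  have ha : 1 / p - 1 / 2 = (1 - κ) / 4 := by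
    rw [hκ]
    field_simp
    ring
  rw [ha]
  obtain ⟨X, hXX⟩ : ∃ X, X = 10 ^ 13 * T * B * C ^ 2 * L ^ 3 := ⟨_, rfl⟩
  rw [← hXX] at hX
  have hL3 : 1 ≤ L ^ 3 := one_le_pow₀ hL
  have hLL3 : L ≤ L ^ 3 := le_self_pow₀ hL (by norm_num)
  have hC2 : 1 ≤ C ^ 2 := one_le_pow₀ hC
  have hCC2 : C ≤ C ^ 2 := le_self_pow₀ hC (by norm_num)
  have hX8 : (10 : ℝ) ^ 13 ≤ X := by
    have h1 : 1 ≤ T * B * C ^ 2 * L ^ 3 :=
      one_le_mul_of_one_le_of_one_le (one_le_mul_of_one_le_of_one_le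
        (one_le_mul_of_one_le_of_one_le hT hB) hC2) hL3
    have e : X = 10 ^ 13 * (T * B * C ^ 2 * L ^ 3) := by rw [hXX]; ring
    rw [e]
    linarith
  have hX1 : 1 ≤ X := le_trans (by norm_num) hX8
  have hX0 : 0 < X := by linarith
  have hXCT : 10 ^ 13 * (C * T) ≤ X := by
    have e : X = 10 ^ 13 * (C ^ 2 * T) * (B * L ^ 3) := by rw [hXX]; ring
    rw [e]
    calc 10 ^ 13 * (C * T) ≤ 10 ^ 13 * (C ^ 2 * T) := by
          refine mul_le_mul_of_nonneg_left ?_ (by norm_num)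
          exact mul_le_mul_of_nonneg_right hCC2 (by linarith)
      _ ≤ 10 ^ 13 * (C ^ 2 * T) * (B * L ^ 3) :=
          le_mul_of_one_le_right (by positivity) (one_le_mul_of_one_le_of_one_le hB hL3)
  have hXL : L ≤ X := by
    have e : X = (10 ^ 13 * T * B * C ^ 2) * L ^ 3 := by rw [hXX]
    rw [e]
    have h1 : 1 ≤ 10 ^ 13 * T * B * C ^ 2 :=
      one_le_mul_of_one_le_of_one_le (one_le_mul_of_one_le_of_one_le
        (one_le_mul_of_one_le_of_one_le (by norm_num) hT) hB) hC2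
    exact hLL3.trans (le_mul_of_one_le_left (by positivity) h1)
  have hXB : 10 ^ 12 * B * C ^ 2 * L ^ 3 ≤ X := by
    have e : X = (10 ^ 12 * B * C ^ 2 * L ^ 3) * (10 * T) := by rw [hXX]; ring
    rw [e]
    exact le_mul_of_one_le_right (by positivity) (by linarith)
  have hXC : C ≤ X ^ ((1 : ℝ) / 2) := by
    rw [← Real.sqrt_eq_rpow]
    refine Real.le_sqrt_of_sq_le ?_
    have e : X = C ^ 2 * (10 ^ 13 * T * B * L ^ 3) := by rw [hXX]; ring
    rw [e]
    exact le_mul_of_one_le_right (by positivity) (one_le_mul_of_one_le_of_one_le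
      (one_le_mul_of_one_le_of_one_le (one_le_mul_of_one_le_of_one_le (by norm_num) hT) hB) hL3)
  have hXq : ∀ e : ℝ, e ≤ 120 * q → X ^ e ≤ D ^ κ := fun e he =>
    (Real.rpow_le_rpow_of_exponent_le hX1 he).trans hX
  have hDL : 1 ≤ D * L := one_le_mul_of_one_le_of_one_le (by linarith) hL
  have hlp : 1 ≤ (D * L) ^ ((1 - κ) / 4) := Real.one_le_rpow hDL (by linarith)
  have h3T : 1 ≤ 3 * 10 ^ 8 * T := by linarith
  have hT0 : 0 < T := by linarith
  have hC0 : 0 < C := by linarith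
  refine ⟨one_le_mul_of_one_le_of_one_le h3T hlp, ?_, ?_⟩
  · have h1 : ((D * L) ^ ((1 - κ) / 4)) ^ 4 ≤ D ^ (1 - κ) * L := by
      rw [← Real.rpow_natCast, ← Real.rpow_mul (by linarith)]
      have : (1 - κ) / 4 * ((4 : ℕ) : ℝ) = 1 - κ := by
        push_cast
        ring
      rw [this, Real.mul_rpow (by linarith) (by linarith)]
      refine mul_le_mul_of_nonneg_left ?_ (Real.rpow_nonneg (by linarith) _)
      calc L ^ (1 - κ) ≤ L ^ (1 : ℝ) := Real.rpow_le_rpow_of_exponent_le hL (by linarith)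
        _ = L := Real.rpow_one L
    have h2 : (C * (3 * 10 ^ 8 * T)) ^ 4 * 10 ^ 280 * L ≤ X ^ 31 := by
      have e1 : (C * (3 * 10 ^ 8 * T)) ^ 4 ≤ X ^ 4 := by
        refine pow_le_pow_left₀ (by positivity) ?_ 4
        refine le_trans ?_ hXCT
        have : 0 ≤ C * T := by positivity
        nlinarith
      have e2 : (10 : ℝ) ^ 280 ≤ X ^ 22 := by
        calc (10 : ℝ) ^ 280 ≤ (10 ^ 13) ^ 22 := by
              rw [← pow_mul]
              exact pow_le_pow_right₀ (by norm_num) (by norm_num)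
          _ ≤ X ^ 22 := pow_le_pow_left₀ (by norm_num) hX8 22
      calc (C * (3 * 10 ^ 8 * T)) ^ 4 * 10 ^ 280 * L ≤ X ^ 4 * X ^ 22 * X := by gcongr
        _ = X ^ 27 := by ring
        _ ≤ X ^ 31 := pow_le_pow_right₀ hX1 (by norm_num)
    have h3 : X ^ 31 ≤ D ^ κ := by
      rw [← Real.rpow_natCast]
      exact hXq _ (by push_cast; linarith)
    have hD0 : 0 < D := by linarith
    calc 10 ^ 280 * (C * (3 * 10 ^ 8 * T * (D * L) ^ ((1 - κ) / 4))) ^ 4
        = ((C * (3 * 10 ^ 8 * T)) ^ 4 * 10 ^ 280) * ((D * L) ^ ((1 - κ) / 4)) ^ 4 := by ring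
      _ ≤ ((C * (3 * 10 ^ 8 * T)) ^ 4 * 10 ^ 280) * (D ^ (1 - κ) * L) :=
        mul_le_mul_of_nonneg_left h1 (by positivity)
      _ = ((C * (3 * 10 ^ 8 * T)) ^ 4 * 10 ^ 280 * L) * D ^ (1 - κ) := by ring
      _ ≤ D ^ κ * D ^ (1 - κ) :=
        mul_le_mul_of_nonneg_right (h2.trans h3) (Real.rpow_nonneg hD0.le _)
      _ = D := by
        rw [← Real.rpow_add hD0, show κ + (1 - κ) = 1 by ring, Real.rpow_one]
  · have hD0 : 0 < D := by linarith
    have h1 : (10 ^ 12 * B * C ^ 2 * L ^ 3) ^ (11 * q) ≤ X ^ (11 * q) :=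
      Real.rpow_le_rpow (by positivity) hXB (by linarith)
    have h2 : (C * (3 * 10 ^ 8 * T * (D * L) ^ ((1 - κ) / 4))) ^ ((1 : ℝ) / 2) ≤
        X ^ ((1 : ℝ)) * D ^ ((1 - κ) / 8) := by
      rw [show C * (3 * 10 ^ 8 * T * (D * L) ^ ((1 - κ) / 4)) =
        (C * (3 * 10 ^ 8 * T)) * (D * L) ^ ((1 - κ) / 4) by ring,
        Real.mul_rpow (by positivity) (by positivity), ← Real.rpow_mul (by positivity),
        show (1 - κ) / 4 * (1 / 2) = (1 - κ) / 8 by ring, Real.mul_rpow hD0.le (by linarith)]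
      have e1 : (C * (3 * 10 ^ 8 * T)) ^ ((1 : ℝ) / 2) ≤ X ^ ((1 : ℝ) / 2) := by
        refine Real.rpow_le_rpow (by positivity) ?_ (by norm_num)
        refine le_trans ?_ hXCT
        have : 0 ≤ C * T := by positivity
        nlinarith
      have e2 : L ^ ((1 - κ) / 8) ≤ X ^ ((1 : ℝ) / 2) :=
        (Real.rpow_le_rpow (by linarith) hXL (by linarith)).trans
          (Real.rpow_le_rpow_of_exponent_le hX1 (by linarith))
      calc (C * (3 * 10 ^ 8 * T)) ^ ((1 : ℝ) / 2) * (D ^ ((1 - κ) / 8) * L ^ ((1 - κ) / 8))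
          ≤ X ^ ((1 : ℝ) / 2) * (D ^ ((1 - κ) / 8) * X ^ ((1 : ℝ) / 2)) := by gcongr
        _ = (X ^ ((1 : ℝ) / 2) * X ^ ((1 : ℝ) / 2)) * D ^ ((1 - κ) / 8) := by ring
        _ = X ^ ((1 : ℝ)) * D ^ ((1 - κ) / 8) := by
          rw [← Real.rpow_add hX0]
          norm_num
    have h3 : (10 : ℝ) ^ 47 ≤ X ^ (4 : ℝ) := by
      calc (10 : ℝ) ^ 47 ≤ (10 ^ 13) ^ 4 := by norm_num
        _ ≤ X ^ 4 := pow_le_pow_left₀ (by norm_num) hX8 4
        _ = X ^ (4 : ℝ) := by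
          rw [← Real.rpow_natCast]
          norm_num
    have h4 : X ^ (15 * q) ≤ D ^ (κ / 8) := by
      calc X ^ (15 * q) = (X ^ (120 * q)) ^ ((1 : ℝ) / 8) := by
            rw [← Real.rpow_mul hX0.le]
            congr 1
            ring
        _ ≤ (D ^ κ) ^ ((1 : ℝ) / 8) := Real.rpow_le_rpow (by positivity) hX (by norm_num)
        _ = D ^ (κ / 8) := by
          rw [← Real.rpow_mul hD0.le]
          congr 1
          ring
    calc (10 ^ 12 * B * C ^ 2 * L ^ 3) ^ (11 * q) *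
          (10 ^ 47 * C * (C * (3 * 10 ^ 8 * T * (D * L) ^ ((1 - κ) / 4))) ^ ((1 : ℝ) / 2))
        ≤ X ^ (11 * q) * (X ^ (4 : ℝ) * X ^ ((1 : ℝ) / 2) *
            (X ^ ((1 : ℝ)) * D ^ ((1 - κ) / 8))) := by gcongr
      _ = X ^ (11 * q + (4 + 1 / 2 + 1)) * D ^ ((1 - κ) / 8) := by
        rw [Real.rpow_add hX0, Real.rpow_add hX0, Real.rpow_add hX0]
        ring
      _ ≤ X ^ (15 * q) * D ^ ((1 - κ) / 8) := by
        gcongr
        linarith
      _ ≤ D ^ (κ / 8) * D ^ ((1 - κ) / 8) := by gcongr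
      _ = D ^ ((1 : ℝ) / 8) := by
        rw [← Real.rpow_add hD0]
        congr 1
        ring

end Pool.Agent.T2h52.SQ
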