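import Pool.Agent.T2h52.SQ.Stm
import Pool.Agent.T2h52.SP.WEAK
import Pool.Agent.TH591.Ns.Cover
import Pool.Agent.TH591.Ns.Flat

/-!
Task WEA: weak type estimate for the derivative of the gauge, bodies which need not be symmetric.
-/

set_option autoImplicit false

namespace Pool.Agent.T2h52.SQ

open MeasureTheory Set Filter Topology
open scoped ENNReal InnerProductSpace Pointwise
open Pool.Agent.T2h52.SP
open Pool.Agent.TH591.Ns (isG_gauge ball_eq fderiv_le IsG)

theorem wea : U_WEA := by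
  intro d P a0 hd hP γ r ε' hr hε hk t ht
  have hK0 : P ∈ 𝓝 0 := mem_interior_iff_mem_nhds.1 hP.int
  have hg := isG_gauge hP.conv hK0
  have hb := ball_eq hP.conv hP.comp hK0
  have hPm : MeasurableSet P := hP.comp.isClosed.measurableSet
  have hfin : volume P ≠ ⊤ := hP.comp.measure_lt_top.ne
  set g := gauge P with hgdef
  have hd0 : (0 : ℝ) < d := by exact_mod_cast hd
  set S : Set (E d) := {x | x ∈ P ∧ ε' + t ≤ -(fderiv ℝ g x γ)} with hS
  have hSP : S ⊆ P := fun x hx => hx.1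
  have hSfin : volume S ≠ ⊤ := measure_ne_top_of_subset hSP hfin
  have hmem : ∀ x, x ∈ P ↔ g x ≤ 1 := fun x => by
    rw [← hb]
    rfl
  rcases lt_or_ge ((d : ℝ) * t) 1 with hdt | hdt
  · refine (measure_mono hSP).trans ?_
    have h1 : (1 : ℝ≥0∞) ≤ ENNReal.ofReal (8 / 5 * (r + 1) / (d * t)) := by
      rw [ENNReal.one_le_ofReal, le_div_iff₀ (by positivity)]
      nlinarith
    calc volume P = 1 * volume P := (one_mul _).symm
      _ ≤ _ := by gcongr
  -- the scale
  obtain ⟨n, hn1, hn2⟩ := exists_nat_pow_near hdt (by norm_num : (1 : ℝ) < 2)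
  set τ : ℝ := (1 / 2) ^ (n + 1) with hτ
  have hτ0 : 0 < τ := by positivity
  have h2τ : τ * 2 ^ (n + 1) = 1 := by
    rw [hτ, ← mul_pow]
    norm_num
  have hx1 : d * t * τ < 1 := by
    have h1 := mul_lt_mul_of_pos_right hn2 hτ0
    nlinarith
  have hx0 : 0 < d * t * τ := by positivity
  have htτ : τ * t < 1 := by
    have h1 : (1 : ℝ) ≤ d := by exact_mod_cast hd
    have h2 : 1 * (t * τ) ≤ d * (t * τ) := mul_le_mul_of_nonneg_right h1 (by positivity)
    nlinarith
  set ρ : ℝ := 1 - τ * t with hρ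
  have hρ0 : 0 < ρ := by linarith
  have hρ1 : ρ ≤ 1 := by
    have : 0 < τ * t := by positivity
    linarith
  -- the smaller cone
  have hcone : {x : E d | g x ≤ ρ ∧ ε' + t ≤ -(fderiv ℝ g x γ)} = ρ • S := by
    ext x
    rw [Set.mem_smul_set_iff_inv_smul_mem₀ hρ0.ne', mem_ofPred_eq, hS, mem_ofPred_eq, hmem,
      hg.smul _ (by positivity), inv_mul_le_iff₀ hρ0, mul_one, fd_smul hg (by positivity)]
  have hvol : volume {x : E d | g x ≤ ρ ∧ ε' + t ≤ -(fderiv ℝ g x γ)} =
      ENNReal.ofReal (ρ ^ d) * volume S := by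
    rw [hcone, Measure.addHaar_smul, finrank_euclideanSpace_fin, abs_of_pos (by positivity)]
  have hsub : {x : E d | g x ≤ ρ ∧ ε' + t ≤ -(fderiv ℝ g x γ)} ⊆ S := fun x hx =>
    ⟨(hmem x).2 (hx.1.trans hρ1), hx.2⟩
  have hmeas : MeasurableSet {x : E d | g x ≤ ρ ∧ ε' + t ≤ -(fderiv ℝ g x γ)} :=
    (isClosed_le hg.cont continuous_const).measurableSet.inter
      (measurableSet_le measurable_const (measurable_fderiv_apply_const ℝ g γ).neg)
  have hincl : S \ {x : E d | g x ≤ ρ ∧ ε' + t ≤ -(fderiv ℝ g x γ)} ⊆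
      {x | x ∈ P ∧ 1 + ε' * (1 / 2) ^ (n + 1) < g (x - (1 / 2 : ℝ) ^ (n + 1) • γ)} := by
    rintro x ⟨⟨hxP, hxC⟩, hx2⟩
    refine ⟨hxP, ?_⟩
    have hx3 : ρ < g x := not_le.1 fun h => hx2 ⟨h, hxC⟩
    have hdiff : DifferentiableAt ℝ g x := by
      by_contra hnd
      rw [fderiv_zero_of_not_differentiableAt hnd] at hxC
      simp at hxC
      linarith
    have h4 := fderiv_le hg x (-(τ • γ)) hdiff
    rw [map_neg, map_smul, smul_eq_mul, ← sub_eq_add_neg] at h4
    have h5 := mul_le_mul_of_nonneg_left hxC hτ0.le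
    show 1 + ε' * τ < g (x - τ • γ)
    nlinarith
  have hmain : volume (S \ {x : E d | g x ≤ ρ ∧ ε' + t ≤ -(fderiv ℝ g x γ)}) ≤
      ENNReal.ofReal (r * τ) * volume P := (measure_mono hincl).trans (hk (n + 1))
  rw [measure_diff hsub hmeas.nullMeasurableSet (measure_ne_top_of_subset hsub hSfin), hvol] at hmain
  set V := (volume P).toReal with hV
  set s := (volume S).toReal with hs
  have hV0 : 0 ≤ V := ENNReal.toReal_nonneg
  have hs0 : 0 ≤ s := ENNReal.toReal_nonneg
  have hreal : s - ρ ^ d * s ≤ r * τ * V := by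
    rw [← ENNReal.ofReal_toReal hSfin, ← ENNReal.ofReal_toReal hfin, ← hs, ← hV,
      ← ENNReal.ofReal_mul (by positivity), ← ENNReal.ofReal_sub _ (by positivity),
      ← ENNReal.ofReal_mul (by positivity)] at hmain
    exact (ENNReal.ofReal_le_ofReal_iff (by positivity)).1 hmain
  have hpow : ρ ^ d ≤ 1 - 5 / 8 * (d * t * τ) := by
    have h1 : ρ ≤ Real.exp (-(τ * t)) := by
      have := Real.add_one_le_exp (-(τ * t))
      linarith
    calc ρ ^ d ≤ Real.exp (-(τ * t)) ^ d := pow_le_pow_left₀ hρ0.le h1 d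
      _ = Real.exp (-(d * t * τ)) := by
        rw [← Real.exp_nat_mul]
        congr 1
        ring
      _ ≤ _ := exp_neg_ge hx0.le hx1.le
  have h6 : 5 / 8 * (d * t * τ) * s ≤ r * τ * V := by
    have := mul_le_mul_of_nonneg_right hpow hs0
    linarith
  have h7 : 5 / 8 * (d * t) * s ≤ r * V := by
    have h8 : τ * (5 / 8 * (d * t) * s) ≤ τ * (r * V) := by linarith
    exact le_of_mul_le_mul_left h8 hτ0
  rw [← ENNReal.ofReal_toReal hSfin, ← ENNReal.ofReal_toReal hfin, ← hs, ← hV,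
    ← ENNReal.ofReal_mul (by positivity)]
  refine ENNReal.ofReal_le_ofReal ?_
  rw [div_mul_eq_mul_div, le_div_iff₀ (by positivity)]
  nlinarith

end Pool.Agent.T2h52.SQ
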