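import Pool.Agent.T2h52.SP.All
import Pool.Agent.T2h52.SQ.BIG
import Pool.Agent.T2h52.SQ.BM
import Pool.Agent.T2h52.SQ.CHI
import Pool.Agent.T2h52.SQ.CRT
import Pool.Agent.T2h52.SQ.EIG
import Pool.Agent.T2h52.SQ.EXM
import Pool.Agent.T2h52.SQ.FM
import Pool.Agent.T2h52.SQ.Fin
import Pool.Agent.T2h52.SQ.GSY
import Pool.Agent.T2h52.SQ.HAF
import Pool.Agent.T2h52.SQ.IMG
import Pool.Agent.T2h52.SQ.LAM
import Pool.Agent.T2h52.SQ.LAW
import Pool.Agent.T2h52.SQ.LGM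
import Pool.Agent.T2h52.SQ.MAI
import Pool.Agent.T2h52.SQ.NUM
import Pool.Agent.T2h52.SQ.OVL
import Pool.Agent.T2h52.SQ.PLB
import Pool.Agent.T2h52.SQ.POL
import Pool.Agent.T2h52.SQ.RAD
import Pool.Agent.T2h52.SQ.REV
import Pool.Agent.T2h52.SQ.SM
import Pool.Agent.T2h52.SQ.SMP
import Pool.Agent.T2h52.SQ.SNH
import Pool.Agent.T2h52.SQ.SPR
import Pool.Agent.T2h52.SQ.TGM
import Pool.Agent.T2h52.SQ.TNU
import Pool.Agent.T2h52.SQ.WEA
import Pool.Agent.T2h52.SQ.ZGM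

/-!
# The spread inequality without symmetry: the theorems without hypotheses
-/

set_option autoImplicit false

namespace Pool.Agent.T2h52.SQ

open Pool.Agent.T2h52.SP

theorem z_big : U_BIG := big snh chi

theorem z_ovl : U_OVL := ovl z_zn tail_ law

theorem z_plb : U_PLB := plb z_zn

theorem z_haf : U_HAF := haf fm

theorem z_smp : U_SMP := smp bin net

theorem z_zgm : U_ZGM := zgm fm

theorem z_lgm : U_LGM := lgm lln_ fm

theorem z_tgm : U_TGM := tgm z_smp gmo tyg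

end Pool.Agent.T2h52.SQ
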