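import Pool.Agent.T2h52.SQ.Stm
import Pool.Agent.T2h52.SP.LGM

/-!
# LGM: the Gaussian mean of the gauge of a subspace of a `q`-concave lattice which is below the gauge
of a body which need not be symmetric
-/

set_option autoImplicit false
set_option linter.all false

namespace Pool.Agent.T2h52.SQ

open MeasureTheory Set Filter Topology
open scoped ENNReal InnerProductSpace Pointwise
open Pool.Agent.H888R2.KT (gs gc gc_pos)
open Pool.Agent.N555.RZ (mP Spr)
open Pool.Agent.T2h52.SP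

lemma vol_nen {d : ℕ} {P : Set (E d)} {a : ℝ} (hP : Bn P a) : volume P ≠ 0 :=
  (Measure.measure_pos_of_mem_nhds volume (mem_interior_iff_mem_nhds.1 hP.int)).ne'

lemma mP_intn {d : ℕ} {P : Set (E d)} {a : ℝ} (hP : Bn P a) {f : E d → ℝ} (hf : Continuous f) :
    Integrable f (mP P) := by
  unfold mP
  exact (hf.continuousOn.integrableOn_compact hP.comp).smul_measure
    (ENNReal.inv_ne_top.2 (vol_nen hP))

lemma mP_aen {d : ℕ} {P : Set (E d)} {a : ℝ} (hP : Bn P a) : ∀ᵐ x ∂(mP P), x ∈ P := by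
  unfold mP
  exact Measure.ae_smul_measure (ae_restrict_mem hP.comp.isClosed.measurableSet) _

open Lgm Sud in
theorem lgm (hL : T_LLN) (hFM : U_FM) : U_LGM := by
  classical
  intro d P Q a0 q M hq hM hP hI hQ hQP hLC
  obtain ⟨N, G, x, hG, hGQ⟩ := hLC
  have hq0 : 0 < q := by linarith
  have hM0 : 0 ≤ M := by linarith
  -- facts on `G`
  have hG0 : G 0 = 0 := by
    have := hG.smul 0 0
    simpa using this
  have hGnn : ∀ a, 0 ≤ G a := by
    intro a
    have h1 := hG.add a ((-1 : ℝ) • a)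
    rw [hG.smul, neg_one_smul, add_neg_cancel, hG0] at h1
    simp only [abs_neg, abs_one, one_mul] at h1
    linarith
  have hconv : ConvexOn ℝ univ G := by
    refine ⟨convex_univ, fun a _ b _ s t hs ht _ => ?_⟩
    refine (hG.add _ _).trans ?_
    rw [hG.smul, hG.smul, abs_of_nonneg hs, abs_of_nonneg ht, smul_eq_mul, smul_eq_mul]
  have hGc : Continuous G := by
    have := hconv.continuousOn_interior
    rw [interior_univ] at this
    exact continuousOn_univ.1 this
  set n : E d → ℝ := fun u => G fun j => ⟪u, x j⟫_ℝ with hn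
  have hnc : Continuous n := by
    refine hGc.comp (continuous_pi fun j => ?_)
    fun_prop
  have hn0 : ∀ u, 0 ≤ n u := fun u => hGnn _
  have hnabs : ∀ u, n u = G fun j => |⟪u, x j⟫_ℝ| := by
    intro u
    apply le_antisymm
    · exact hG.mono _ _ fun j => by rw [abs_abs]
    · exact hG.mono _ _ fun j => by rw [abs_abs]
  -- the gauge
  have hQ0 : Q ∈ 𝓝 (0 : E d) := mem_interior_iff_mem_nhds.1 hQ.int
  have hcont : Continuous (gauge Q) := continuous_gauge hQ.conv hQ0
  have hgint : Integrable fun y : E d => gauge Q y * W y := by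
    obtain ⟨r, hr, hball⟩ := Metric.mem_nhds_iff.1 hQ0
    refine (W_int1.const_mul r⁻¹).mono' (by have := W_cont (d := d); fun_prop)
      (Eventually.of_forall fun y => ?_)
    have h1 := mul_gauge_le_norm (x := y) hball
    rw [norm_mul, Real.norm_eq_abs, Real.norm_eq_abs, abs_of_nonneg (gauge_nonneg y),
      abs_of_pos (W_pos y), ← mul_assoc]
    refine mul_le_mul_of_nonneg_right ?_ (W_pos y).le
    rw [← div_eq_inv_mul, le_div_iff₀ hr, mul_comm]
    exact h1
  have hgi : Integrable (gauge Q) (ga d) := ga_integrable hgint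
  have hni : Integrable n (ga d) := by
    refine hgi.mono' hnc.aestronglyMeasurable (Eventually.of_forall fun u => ?_)
    rw [Real.norm_eq_abs, abs_of_nonneg (hn0 u)]
    exact (hGQ u).1
  haveI := ga_prob (d := d)
  obtain ⟨hnq, hLLN⟩ := hL N d q M G x (by linarith) hM0 hG (ga d) inferInstance
    (fun j => (momq hq (x j)).1)
  -- Jensen
  have hJ : (∫ z, n z ∂(ga d)) ^ q ≤ ∫ z, n z ^ q ∂(ga d) :=
    (convexOn_rpow (by linarith : 1 ≤ q)).map_integral_le
      (continuousOn_id.rpow_const fun _ _ => Or.inr hq0.le) isClosed_Ici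
      (Eventually.of_forall hn0) hni hnq
  have hIn0 : 0 ≤ ∫ z, n z ∂(ga d) := integral_nonneg hn0
  have hJ2 : ∫ z, n z ∂(ga d) ≤ (∫ z, n z ^ q ∂(ga d)) ^ (1 / q) := by
    have h1 := Real.rpow_le_rpow (Real.rpow_nonneg hIn0 _) hJ (by positivity : 0 ≤ 1 / q)
    rwa [← Real.rpow_mul hIn0, mul_one_div_cancel hq0.ne', Real.rpow_one] at h1
  set g0 : ℝ := G fun j => ‖x j‖ with hg0
  have hup : G (fun j => (∫ z, |⟪z, x j⟫_ℝ| ^ q ∂(ga d)) ^ (1 / q)) ≤ 2 * q * g0 := by
    have h1 : 2 * q * g0 = G ((2 * q) • fun j => ‖x j‖) := by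
      rw [hG.smul, abs_of_nonneg (by positivity)]
    rw [h1]
    refine hG.mono _ _ fun j => ?_
    have h2 : 0 ≤ ∫ z, |⟪z, x j⟫_ℝ| ^ q ∂(ga d) :=
      integral_nonneg fun z => Real.rpow_nonneg (abs_nonneg _) _
    rw [abs_of_nonneg (Real.rpow_nonneg h2 _), Pi.smul_apply, smul_eq_mul,
      abs_of_nonneg (by positivity)]
    have h3 := Real.rpow_le_rpow h2 (momq hq (x j)).2 (by positivity : 0 ≤ 1 / q)
    rwa [← Real.rpow_mul (by positivity), mul_one_div_cancel hq0.ne', Real.rpow_one] at h3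
  have hgm : gm (gauge Q) ≤ ∫ z, n z ∂(ga d) := by
    rw [← ga_gm]
    exact integral_mono hgi hni fun u => by
      have := (hGQ u).2
      rwa [one_mul] at this
  -- the lower bound
  have hlow : g0 ≤ 10 ^ 5 := by
    haveI : IsProbabilityMeasure (mP P) :=
      Pool.Agent.N555.RZ.mP_prob (vol_nen hP) hP.comp.measure_lt_top.ne
    have hVi : ∀ j, Integrable (fun u : E d => |⟪u, x j⟫_ℝ|) (mP P) := fun j =>
      mP_intn hP (by fun_prop)
    have h1 : G (∫ u, (fun j => |⟪u, x j⟫_ℝ|) ∂(mP P)) ≤ ∫ u, G (fun j => |⟪u, x j⟫_ℝ|) ∂(mP P) := by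
      refine hconv.map_integral_le hGc.continuousOn isClosed_univ
        (Eventually.of_forall fun _ => mem_univ _) ?_ ?_
      · exact Integrable.of_eval hVi
      · refine mP_intn hP ?_
        exact hGc.comp (continuous_pi fun j => by fun_prop)
    have h2 : ∫ u, G (fun j => |⟪u, x j⟫_ℝ|) ∂(mP P) ≤ 1 := by
      have h3 : ∫ u, G (fun j => |⟪u, x j⟫_ℝ|) ∂(mP P) ≤ ∫ u, (1 : ℝ) ∂(mP P) := by
        refine integral_mono_ae (mP_intn hP (hGc.comp (continuous_pi fun j => by fun_prop)))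
          (integrable_const _) ?_
        filter_upwards [mP_aen hP] with u hu
        rw [← hnabs u]
        exact (hGQ u).1.trans ((hQP u).trans (gauge_le_one_of_mem hu))
      simpa using h3
    have h3 : 10⁻¹ ^ 5 * g0 ≤ G (∫ u, (fun j => |⟪u, x j⟫_ℝ|) ∂(mP P)) := by
      have h4 : 10⁻¹ ^ 5 * g0 = G (((10⁻¹ : ℝ) ^ 5) • fun j => ‖x j‖) := by
        rw [hG.smul, abs_of_nonneg (by positivity)]
      rw [h4]
      refine hG.mono _ _ fun j => ?_
      have h5 : (∫ u, (fun j => |⟪u, x j⟫_ℝ|) ∂(mP P)) j = ∫ u, |⟪u, x j⟫_ℝ| ∂(mP P) :=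
        eval_integral hVi j
      rw [h5, Pi.smul_apply, smul_eq_mul, abs_of_nonneg (by positivity),
        abs_of_nonneg (integral_nonneg fun u => abs_nonneg _)]
      have h6 := hFM d P a0 hP hI (x j)
      have h7 : (10⁻¹ : ℝ) ^ 5 = 1 / 10 ^ 5 := by norm_num
      rw [h7]
      exact h6
    have h4 : 10⁻¹ ^ 5 * g0 ≤ 1 := h3.trans (h1.trans h2)
    have h5 : g0 = 10 ^ 5 * (10⁻¹ ^ 5 * g0) := by
      rw [← mul_assoc, ← mul_pow]
      norm_num
    rw [h5]
    calc (10 : ℝ) ^ 5 * (10⁻¹ ^ 5 * g0) ≤ 10 ^ 5 * 1 := by gcongr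
      _ = 10 ^ 5 := mul_one _
  calc gm (gauge Q) ≤ ∫ z, n z ∂(ga d) := hgm
    _ ≤ M * (2 * q * g0) := hJ2.trans (hLLN.trans (mul_le_mul_of_nonneg_left hup hM0))
    _ ≤ M * (2 * q * 10 ^ 5) := by gcongr
    _ = 2 * 10 ^ 5 * q * M := by ring

end Pool.Agent.T2h52.SQ
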