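import Pool.Agent.T2h52.SQ.Stm
import Pool.Agent.T2h52.SP.ZGM

set_option autoImplicit false

/-!
# ZGM: the Gaussian mean of the gauge of the polar of a zonoid, not symmetric case
-/

namespace Pool.Agent.T2h52.SQ

open MeasureTheory Set Filter Topology Pool.Agent.T2h52.SP.ZGMaux
open scoped ENNReal InnerProductSpace Pointwise
open Pool.Agent.H888R2.KT (gs gc)
open Pool.Agent.N555.RZ
open Pool.Agent.T2h52.SP

theorem zgm (hFM : U_FM) : U_ZGM := by
  rintro d P Q a hP hI hQ hQP ⟨n, ⟨μ, hμf, hμi, hμ0⟩, hnb⟩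
  have hμ : ∀ u, gauge Q u = ∫ x, |⟪u, x⟫_ℝ| ∂μ := by
    intro u
    rw [← hμ0 u]
    have := (hnb u).2
    rw [one_mul] at this
    exact le_antisymm this (hnb u).1
  have hP0 : P ∈ 𝓝 (0 : E d) := mem_interior_iff_mem_nhds.1 hP.int
  have hQ0 : Q ∈ 𝓝 (0 : E d) := mem_interior_iff_mem_nhds.1 hQ.int
  have h0 : volume P ≠ 0 := (Measure.measure_pos_of_mem_nhds volume hP0).ne'
  have hfin : volume P ≠ ⊤ := hP.comp.measure_lt_top.ne
  have hpr := mP_prob h0 hfin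
  -- the bound `∫ ‖x‖ dμ ≤ 10⁵`
  have i1 : Integrable (fun z : E d => ‖z‖ * (1 : ℝ)) (mP P) := int_K hP.comp h0 (by fun_prop)
  have h1 : ∫ x, ‖x‖ ∂μ ≤ 10 ^ 5 := by
    have e1 : ∫ z, gauge Q z ∂(mP P) ≤ 1 := by
      have ig : Integrable (gauge Q) (mP P) := int_K hP.comp h0 (continuous_gauge hQ.conv hQ0)
      have : ∫ z, gauge Q z ∂(mP P) ≤ ∫ _z : E d, (1 : ℝ) ∂(mP P) := by
        refine integral_mono_ae ig (integrable_const _) ?_
        filter_upwards [mP_ae hP.comp.isClosed.measurableSet] with z hz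
        exact (hQP z).trans (gauge_le_one_of_mem hz)
      simpa using this
    have e2 := fub (mP P) μ (fun _ => (1 : ℝ)) continuous_const (fun _ => zero_le_one) i1 hμi
    have e3 := innInt (mP P) μ (fun _ => (1 : ℝ)) continuous_const (fun _ => zero_le_one) i1 hμi
    simp only [mul_one] at e2 e3
    have e4 : ∫ z, gauge Q z ∂(mP P) = ∫ y, ∫ x, |⟪y, x⟫_ℝ| ∂μ ∂(mP P) :=
      integral_congr_ae (Eventually.of_forall fun y => hμ y)
    rw [e4, e2] at e1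
    have e5 : ∫ x, 1 / 10 ^ 5 * ‖x‖ ∂μ ≤ ∫ x, ∫ y, |⟪y, x⟫_ℝ| ∂(mP P) ∂μ :=
      integral_mono (hμi.const_mul _) e3 fun x => hFM d P a hP hI x
    rw [integral_const_mul] at e5
    have e6 := e5.trans e1
    have e7 : (∫ x, ‖x‖ ∂μ) = 10 ^ 5 * (1 / 10 ^ 5 * ∫ x, ‖x‖ ∂μ) := by ring
    rw [e7]
    linarith
  -- the Gaussian mean
  have h2 : ∫ y : E d, gauge Q y * Real.exp (-(‖y‖ ^ 2 / 2)) ≤
      (∫ x, ‖x‖ ∂μ) * ∫ y : E d, W y := by
    have e2 := fub volume μ W W_cont (fun _ => (Real.exp_pos _).le) W_norm hμi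
    have e3 := innInt volume μ W W_cont (fun _ => (Real.exp_pos _).le) W_norm hμi
    have e4 : ∫ y : E d, gauge Q y * Real.exp (-(‖y‖ ^ 2 / 2)) =
        ∫ y, (∫ x, |⟪y, x⟫_ℝ| ∂μ) * W y := by
      refine integral_congr_ae (Eventually.of_forall fun y => ?_)
      show gauge Q y * Real.exp (-(‖y‖ ^ 2 / 2)) = (∫ x, |⟪y, x⟫_ℝ| ∂μ) * W y
      rw [hμ y, W]
    rw [e4, e2, ← integral_mul_const]
    exact integral_mono e3 (hμi.mul_const _) fun x => W_bound x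
  have hG : 0 < ∫ y : E d, W y := by
    refine (integral_pos_iff_support_of_nonneg (fun y => (Real.exp_pos _).le) W_int).2 ?_
    have : Function.support (fun y : E d => Real.exp (-(‖y‖ ^ 2 / 2))) = univ := by
      ext y
      simp [(Real.exp_pos _).ne']
    rw [this]
    exact Measure.measure_univ_pos.2 (NeZero.ne _)
  unfold gm
  show (∫ y : E d, W y)⁻¹ * ∫ y : E d, gauge Q y * Real.exp (-(‖y‖ ^ 2 / 2)) ≤ 10 ^ 5
  rw [inv_mul_le_iff₀ hG]
  calc _ ≤ (∫ x, ‖x‖ ∂μ) * ∫ y : E d, W y := h2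
    _ ≤ 10 ^ 5 * ∫ y : E d, W y := mul_le_mul_of_nonneg_right h1 hG.le
    _ = _ := mul_comm _ _

end Pool.Agent.T2h52.SQ
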